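import Pool.Agent.J4.H1.AR.Defs
import Pool.Agent.Helper705_SA.Amalg

/-! Project AR (helper1), piece AM (helper30): two generators without relation give an amalgam. -/

set_option autoImplicit false

namespace Pool.Agent.J4.H1.AR.AM

open Pool.Agent.Helper741 Pool.Agent.K7.H87.FJ6 CoxeterSystem Pool.Agent.J4.H1.AR
open Pool.Agent.K7.H20.AW (PW PW_mem PW_coord)

variable {B : Type}

theorem core {G : Type} [Group G] (ge : B → G) (hcl : Subgroup.closure (Set.range ge) = ⊤) {s t : B} (hst : s ≠ t)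
    (hup : ∀ (K : Type) [Group K] (φ : B → K), (∀ i j, (i ≠ s ∧ j ≠ s ∨ i ≠ t ∧ j ≠ t) →
      ∃ (A : Subgroup G) (f : A →* K) (hi : ge i ∈ A) (hj : ge j ∈ A), φ i = f ⟨ge i, hi⟩ ∧ φ j = f ⟨ge j, hj⟩) →
      ∃ Φ : G →* K, ∀ b, Φ (ge b) = φ b) :
    Pool.Agent.Helper705_SA.IsAmalgam (Subgroup.closure (ge '' {s}ᶜ)) (Subgroup.closure (ge '' {t}ᶜ)) := by
  classical
  have hs : ∀ {b : B}, b ≠ s → ge b ∈ Subgroup.closure (ge '' {s}ᶜ) := fun {b} hb =>
    Subgroup.subset_closure ⟨b, hb, rfl⟩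
  have ht : ∀ {b : B}, b ≠ t → ge b ∈ Subgroup.closure (ge '' {t}ᶜ) := fun {b} hb =>
    Subgroup.subset_closure ⟨b, hb, rfl⟩
  constructor
  · rw [eq_top_iff, ← hcl, Subgroup.closure_le]
    rintro _ ⟨b, rfl⟩
    by_cases hb : b = s
    · exact Subgroup.mem_sup_right (ht (by rw [hb]; exact hst))
    · exact Subgroup.mem_sup_left (hs hb)
  · intro K _ f g hfg
    obtain ⟨φ, hφ⟩ : ∃ φ : B → K, φ = fun b => if hb : b = s then g ⟨ge b, ht (by rw [hb]; exact hst)⟩
      else f ⟨ge b, hs hb⟩ := ⟨_, rfl⟩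
    have h1 : ∀ b (hb : b ≠ s), φ b = f ⟨ge b, hs hb⟩ := by
      intro b hb
      rw [hφ]
      simp only
      rw [dif_neg hb]
    have h2 : ∀ b (hb : b ≠ t), φ b = g ⟨ge b, ht hb⟩ := by
      intro b hb
      by_cases hbs : b = s
      · rw [hφ]
        simp only
        rw [dif_pos hbs]
      · rw [h1 b hbs]
        exact hfg _ _ _
    obtain ⟨Φ, hΦ⟩ := hup K φ (by
      rintro i j (⟨hi, hj⟩ | ⟨hi, hj⟩)
      · exact ⟨_, f, hs hi, hs hj, h1 i hi, h1 j hj⟩
      · exact ⟨_, g, ht hi, ht hj, h2 i hi, h2 j hj⟩)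
    refine ⟨Φ, ?_, ?_⟩
    · rintro ⟨a, ha⟩
      show Φ a = f ⟨a, ha⟩
      induction ha using Subgroup.closure_induction with
      | mem x hx =>
        obtain ⟨b, hb, rfl⟩ := hx
        rw [hΦ]
        exact h1 b hb
      | one => rw [map_one]; exact (map_one f).symm
      | mul x y hx hy ihx ihy =>
        rw [map_mul, ihx, ihy]
        exact (map_mul f ⟨x, hx⟩ ⟨y, hy⟩).symm
      | inv x hx ihx =>
        rw [map_inv, ihx]
        exact (map_inv f ⟨x, hx⟩).symm
    · rintro ⟨a, ha⟩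
      show Φ a = g ⟨a, ha⟩
      induction ha using Subgroup.closure_induction with
      | mem x hx =>
        obtain ⟨b, hb, rfl⟩ := hx
        rw [hΦ]
        exact h2 b hb
      | one => rw [map_one]; exact (map_one g).symm
      | mul x y hx hy ihx ihy =>
        rw [map_mul, ihx, ihy]
        exact (map_mul g ⟨x, hx⟩ ⟨y, hy⟩).symm
      | inv x hx ihx =>
        rw [map_inv, ihx]
        exact (map_inv g ⟨x, hx⟩).symm

/-- a pair of generators is not `{s, t}`, or there is no relation -/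
theorem cases_pair {M : CoxeterMatrix B} {s t : B} (h : M s t = 0) (i j : B) :
    (i ≠ s ∧ j ≠ s ∨ i ≠ t ∧ j ≠ t) ∨ M i j = 0 ∨ s = t := by
  by_cases h1 : i ≠ s ∧ j ≠ s
  · exact Or.inl (Or.inl h1)
  by_cases h2 : i ≠ t ∧ j ≠ t
  · exact Or.inl (Or.inr h2)
  right
  rw [not_and_or, not_ne_iff, not_ne_iff] at h1 h2
  rcases h1 with h1 | h1 <;> rcases h2 with h2 | h2
  · exact Or.inr (h1.symm.trans h2)
  · left; rw [h1, h2]; exact h
  · left; rw [h1, h2, M.symmetric]; exact h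
  · exact Or.inr (h1.symm.trans h2)

section cox

variable [Fintype B] [DecidableEq B] {M : CoxeterMatrix B}
variable {W : Type} [Group W] (cs : CoxeterSystem M W) {p : B → ℕ}

theorem AM_Sh {s t : B} (hst : s ≠ t) (h : M s t = 0) :
    Pool.Agent.Helper705_SA.IsAmalgam (SP M p {s}ᶜ) (SP M p {t}ᶜ) := by
  refine core (Sh.gen M p) Sh.closure_range_gen hst fun K _ φ hφ => ?_
  refine ⟨Sh.lift φ (fun i j => ?_) (fun i => ?_), fun b => Sh.lift_gen _ _ _ _⟩
  · rcases cases_pair h i j with h1 | h1 | h1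
    · obtain ⟨A, f, hi, hj, e1, e2⟩ := hφ i j h1
      rw [e1, e2, ← map_alt, ← map_alt]
      congr 1
      apply A.subtype_injective
      rw [map_alt, map_alt]
      exact Sh.rel i j
    · rw [h1]
      simp [alt]
    · exact absurd h1 hst
  · have h1 : (i ≠ s ∧ i ≠ s) ∨ (i ≠ t ∧ i ≠ t) := by
      by_cases h2 : i = s
      · right
        rw [h2]
        exact ⟨hst, hst⟩
      · exact Or.inl ⟨h2, h2⟩
    obtain ⟨A, f, hi, -, e1, -⟩ := hφ i i h1
    rw [e1, ← map_pow]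
    have h3 : (⟨Sh.gen M p i, hi⟩ : A) ^ p i = 1 := by
      apply A.subtype_injective
      rw [map_pow, map_one]
      exact Sh.pow i
    rw [h3, map_one]

theorem AM_W {s t : B} (hst : s ≠ t) (h : M s t = 0) :
    Pool.Agent.Helper705_SA.IsAmalgam (PW cs {s}ᶜ) (PW cs {t}ᶜ) := by
  refine core (cs.simple) cs.subgroup_closure_range_simple hst fun K _ φ hφ => ?_
  have hl : M.IsLiftable φ := by
    intro i j
    rcases cases_pair h i j with h1 | h1 | h1
    · obtain ⟨A, f, hi, hj, e1, e2⟩ := hφ i j h1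
      rw [e1, e2, ← map_mul, ← map_pow]
      have h3 : ((⟨cs.simple i, hi⟩ : A) * ⟨cs.simple j, hj⟩) ^ M i j = 1 := by
        apply A.subtype_injective
        rw [map_pow, map_mul, map_one]
        exact cs.simple_mul_simple_pow i j
      rw [h3, map_one]
    · rw [h1, pow_zero]
    · exact absurd h1 hst
  exact ⟨cs.lift ⟨φ, hl⟩, fun b => cs.lift_apply_simple hl b⟩

end cox

end Pool.Agent.J4.H1.AR.AM
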