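import Pool.Agent.J4.H1.AR.Defs

/-!
# AR, piece COC: the retraction given by van der Lek's action
-/

set_option autoImplicit false

namespace Pool.Agent.J4.H1.AR.COC

open Pool.Agent.Helper741 Pool.Agent.K7.H87.FJ6 CoxeterSystem
open Pool.Agent.K7.H20.AW (PW PW_mem PW_coord)

variable {B : Type} [Fintype B] [DecidableEq B] {M : CoxeterMatrix B}
variable {W : Type} [Group W] (cs : CoxeterSystem M W) {p : B → ℕ} (ho : Adm M p) (X : Set B)

theorem pinv {α : Type} (e : Equiv.Perm α) (x : α) : e (e⁻¹ x) = x := e.apply_symm_apply x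

/-- the set on which the group acts -/
abbrev Om' (p : B → ℕ) : Type := Om cs (Subtype.val : X → B) Subtype.val_injective p

/-- the action -/
noncomputable def ph : Sh M p →* Equiv.Perm (Om' cs X p) :=
  act cs ho (Subtype.val : X → B) Subtype.val_injective

theorem ph_gen (b : B) (ω : Om' cs X p) : ph cs ho X (Sh.gen M p b) ω =
    stp cs (Subtype.val : X → B) Subtype.val_injective b ω := by
  rw [ph, act, Sh.lift_gen, prm_apply]

/-- a map which commutes with the generators commutes with everything -/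
theorem comm_of (F : Om' cs X p → Om' cs X p)
    (hF : ∀ b ω, F (stp cs (Subtype.val : X → B) Subtype.val_injective b ω) =
      stp cs (Subtype.val : X → B) Subtype.val_injective b (F ω)) (g : Sh M p) :
    ∀ ω, F (ph cs ho X g ω) = ph cs ho X g (F ω) := by
  induction g using Sh.induction with
  | one => intro ω; rw [map_one]; rfl
  | gen b => intro ω; rw [ph_gen, ph_gen, hF]
  | mul x y hx hy =>
    intro ω
    rw [map_mul, Equiv.Perm.mul_apply, Equiv.Perm.mul_apply, hx, hy]
  | inv x hx =>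
    intro ω
    apply (ph cs ho X x).injective
    rw [← hx, map_inv, pinv, pinv]

/-- right multiplication -/
def Rm (a : Sh (pull M (Subtype.val : X → B) Subtype.val_injective) (p ∘ (Subtype.val : X → B)))
    (ω : Om' cs X p) : Om' cs X p := (ω.1 * a, ω.2)

theorem Rm_stp (a : Sh (pull M (Subtype.val : X → B) Subtype.val_injective)
    (p ∘ (Subtype.val : X → B))) (b : B) (ω : Om' cs X p) :
    Rm cs X a (stp cs (Subtype.val : X → B) Subtype.val_injective b ω) =
      stp cs (Subtype.val : X → B) Subtype.val_injective b (Rm cs X a ω) := by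
  by_cases h : ∃ x : X, cs.simple b * ω.2.1 = ω.2.1 * cs.simple x
  · obtain ⟨x, hx⟩ := h
    rw [stp_pos (x := x) hx, stp_pos (ω := Rm cs X a ω) (x := x) hx]
    unfold Rm
    rw [mul_assoc]
  · rw [stp_neg h, stp_neg (ω := Rm cs X a ω) h]
    rfl

/-- the fixing subgroup -/
def Fx : Subgroup W where
  carrier := {w | ∀ x ∈ X, geo cs w (ee x) = ee x}
  one_mem' := fun x _ => by rw [map_one]; rfl
  mul_mem' := by
    intro a b ha hb x hx
    rw [geo_mul_apply, hb x hx, ha x hx]
  inv_mem' := by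
    intro a ha x hx
    have := geo_inv_apply cs a (ee x)
    rwa [ha x hx] at this

theorem mem_Fx {w : W} : w ∈ Fx cs X ↔ ∀ x ∈ X, geo cs w (ee x) = ee x := Iff.rfl

theorem Fx_simple {m : W} (hm : m ∈ Fx cs X) {x : B} (hx : x ∈ X) :
    cs.simple x * m = m * cs.simple x :=
  trick cs (t := 1) (by rw [hm x hx, one_smul])

theorem Fx_PW {m : W} (hm : m ∈ Fx cs X) {y : W} (hy : y ∈ PW cs X) : y * m = m * y := by
  have h1 : PW cs X ≤ Subgroup.centralizer {m} := by
    unfold PW
    rw [Subgroup.closure_le]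
    rintro _ ⟨x, hx, rfl⟩
    rw [SetLike.mem_coe, Subgroup.mem_centralizer_singleton_iff]
    exact Fx_simple cs X hm hx
  exact Subgroup.mem_centralizer_singleton_iff.1 (h1 hy)

theorem Mn_mul {m v : W} (hm : m ∈ Fx cs X) (hv : Mn cs (Subtype.val : X → B) v) :
    Mn cs (Subtype.val : X → B) (v * m) := by
  intro x
  rw [geo_mul_apply, hm x.1 x.2]
  exact hv x

/-- right multiplication with an element of the fixing subgroup -/
def Tm (m : W) (hm : m ∈ Fx cs X) (ω : Om' cs X p) : Om' cs X p :=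
  (ω.1, ⟨ω.2.1 * m, Mn_mul cs X hm ω.2.2⟩)

theorem Tm_iff {m : W} (hm : m ∈ Fx cs X) (b : B) (v : W) :
    (∃ x : X, cs.simple b * (v * m) = (v * m) * cs.simple x) ↔
      ∃ x : X, cs.simple b * v = v * cs.simple x := by
  refine exists_congr fun x => ?_
  have h := Fx_simple cs X hm x.2
  rw [mul_assoc v m, ← h, ← mul_assoc, ← mul_assoc]
  exact mul_right_cancel_iff

theorem Tm_stp {m : W} (hm : m ∈ Fx cs X) (b : B) (ω : Om' cs X p) :
    Tm cs X m hm (stp cs (Subtype.val : X → B) Subtype.val_injective b ω) =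
      stp cs (Subtype.val : X → B) Subtype.val_injective b (Tm cs X m hm ω) := by
  by_cases h : ∃ x : X, cs.simple b * ω.2.1 = ω.2.1 * cs.simple x
  · obtain ⟨x, hx⟩ := h
    have hx' : cs.simple b * (ω.2.1 * m) = (ω.2.1 * m) * cs.simple x := by
      rw [mul_assoc ω.2.1 m, ← Fx_simple cs X hm x.2, ← mul_assoc, ← mul_assoc, hx]
    rw [stp_pos (x := x) hx, stp_pos (ω := Tm cs X m hm ω) (x := x) hx']
    rfl
  · have h' : ¬ ∃ x : X, cs.simple b * (ω.2.1 * m) = (ω.2.1 * m) * cs.simple x := by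
      rw [Tm_iff cs X hm]
      exact h
    rw [stp_neg h, stp_neg (ω := Tm cs X m hm ω) h']
    refine Prod.ext rfl (Subtype.ext ?_)
    show cs.simple b * ω.2.1 * m = cs.simple b * (ω.2.1 * m)
    rw [mul_assoc]

/-- minimal representatives are unique -/
theorem Mn_unique {v y : W} (hv : Mn cs (Subtype.val : X → B) v)
    (hv' : Mn cs (Subtype.val : X → B) (v * y)) (hy : y ∈ PW cs X) : y = 1 := by
  apply eq_one_of_geo cs
  intro i
  rcases sgn cs y i with h | h
  · exact h
  exfalso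
  have hi : i ∈ X := by
    by_contra hi
    have h1 := h i
    rw [PW_coord cs hy (ee i) i hi] at h1
    have h2 : (ee i : B → ℝ) i = 1 := by simp [ee]
    rw [h2] at h1
    exact absurd h1 (by norm_num)
  have h1 : geo cs (v * y) (ee i) ≤ 0 := by
    intro e
    rw [geo_mul_apply, geo_sum]
    refine Finset.sum_nonpos fun d _ => ?_
    by_cases hd : d ∈ X
    · exact mul_nonpos_of_nonpos_of_nonneg (h d) (hv ⟨d, hd⟩ e)
    · rw [PW_coord cs hy (ee i) d hd]
      have h2 : d ≠ i := fun hc => hd (hc ▸ hi)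
      have h3 : (ee i : B → ℝ) d = 0 := by simp [ee, h2]
      rw [h3, zero_mul]
  exact geo_ee_ne_zero cs (v * y) i (le_antisymm h1 (hv' ⟨i, hi⟩))

theorem bar_mem (a : Sh (pull M (Subtype.val : X → B) Subtype.val_injective)
    (p ∘ (Subtype.val : X → B))) :
    bar cs ho (Subtype.val : X → B) Subtype.val_injective a ∈ PW cs X := by
  induction a using Sh.induction with
  | one => rw [map_one]; exact one_mem _
  | gen x => rw [bar_gen]; exact PW_mem cs x.2
  | mul x y hx hy => rw [map_mul]; exact mul_mem hx hy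
  | inv x hx => rw [map_inv]; exact inv_mem hx

theorem tot_ph (g : Sh M p) : ∀ ω : Om' cs X p,
    tot cs ho (Subtype.val : X → B) Subtype.val_injective (ph cs ho X g ω) =
      pr cs ho g * tot cs ho (Subtype.val : X → B) Subtype.val_injective ω := by
  induction g using Sh.induction with
  | one => intro ω; rw [map_one, map_one, one_mul]; rfl
  | gen b => intro ω; rw [ph_gen, tot_stp, pr_gen]
  | mul x y hx hy =>
    intro ω
    rw [map_mul, Equiv.Perm.mul_apply, hx, hy, map_mul, mul_assoc]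
  | inv x hx =>
    intro ω
    have h := hx (ph cs ho X x⁻¹ ω)
    rw [map_inv, pinv] at h
    rw [map_inv, map_inv, h, inv_mul_cancel_left]

/-- the base point -/
def bp : Om' cs X p := (1, ⟨1, Mn_one cs _⟩)

theorem tot_bp : tot cs ho (Subtype.val : X → B) Subtype.val_injective (bp (p := p) cs X) = 1 := by
  show 1 * bar cs ho (Subtype.val : X → B) Subtype.val_injective 1 = 1
  rw [map_one, one_mul]

theorem inc_mem (a : Sh (pull M (Subtype.val : X → B) Subtype.val_injective)
    (p ∘ (Subtype.val : X → B))) :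
    inc M p (Subtype.val : X → B) Subtype.val_injective a ∈ SP M p X := by
  induction a using Sh.induction with
  | one => rw [map_one]; exact one_mem _
  | gen x => rw [inc_gen]; exact Subgroup.subset_closure ⟨x.1, x.2, rfl⟩
  | mul x y hx hy => rw [map_mul]; exact mul_mem hx hy
  | inv x hx => rw [map_inv]; exact inv_mem hx

theorem exists_inc {g : Sh M p} (hg : g ∈ SP M p X) :
    ∃ a, inc M p (Subtype.val : X → B) Subtype.val_injective a = g := by
  have h1 : SP M p X ≤ (inc M p (Subtype.val : X → B) Subtype.val_injective).range := by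
    unfold SP
    rw [Subgroup.closure_le]
    rintro _ ⟨x, hx, rfl⟩
    exact ⟨Sh.gen _ _ ⟨x, hx⟩, inc_gen _ _ _ _ _⟩
  exact h1 hg

variable {n : W}

/-- products -/
theorem mem_sup (hn : ∀ x ∈ X, geo cs n (ee x) = ee x) {w : W}
    (hw : w ∈ PW cs X ⊔ Subgroup.zpowers n) :
    ∃ y ∈ PW cs X, ∃ m ∈ Fx cs X, w = y * m := by
  let K : Subgroup W :=
    { carrier := {w | ∃ y ∈ PW cs X, ∃ m ∈ Fx cs X, w = y * m}
      one_mem' := ⟨1, one_mem _, 1, one_mem _, by rw [one_mul]⟩
      mul_mem' := by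
        rintro _ _ ⟨y, hy, m, hm, rfl⟩ ⟨y', hy', m', hm', rfl⟩
        refine ⟨y * y', mul_mem hy hy', m * m', mul_mem hm hm', ?_⟩
        calc y * m * (y' * m') = y * (m * y') * m' := by group
          _ = y * (y' * m) * m' := by rw [Fx_PW cs X hm hy']
          _ = y * y' * (m * m') := by group
      inv_mem' := by
        rintro _ ⟨y, hy, m, hm, rfl⟩
        refine ⟨y⁻¹, inv_mem hy, m⁻¹, inv_mem hm, ?_⟩
        rw [mul_inv_rev, Fx_PW cs X (inv_mem hm) (inv_mem hy)] }
  have h1 : PW cs X ⊔ Subgroup.zpowers n ≤ K := by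
    refine sup_le (fun y hy => ⟨y, hy, 1, one_mem _, by rw [mul_one]⟩) ?_
    rw [Subgroup.zpowers_le]
    exact ⟨1, one_mem _, n, hn, by rw [one_mul]⟩
  exact h1 hw

/-- the image of the base point -/
theorem ph_bp {g : Sh M p} {y m : W} (hy : y ∈ PW cs X) (hm : m ∈ Fx cs X)
    (hg : pr cs ho g = y * m) : (ph cs ho X g (bp cs X)).2.1 = m := by
  have h1 := tot_ph cs ho X g (bp cs X)
  rw [tot_bp, mul_one, hg] at h1
  obtain ⟨c, hc⟩ : ∃ c, c = bar cs ho (Subtype.val : X → B) Subtype.val_injective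
    (ph cs ho X g (bp cs X)).1 := ⟨_, rfl⟩
  have hcm : c ∈ PW cs X := hc ▸ bar_mem cs ho X _
  have h2 : (ph cs ho X g (bp cs X)).2.1 * c = y * m := by
    rw [hc]
    exact h1
  have h3 : (ph cs ho X g (bp cs X)).2.1 = m * (y * c⁻¹) := by
    rw [← mul_assoc, ← Fx_PW cs X hm hy, ← h2, mul_inv_cancel_right]
  have hMm : Mn cs (Subtype.val : X → B) m := by
    have := Mn_mul cs X hm (Mn_one cs (Subtype.val : X → B))
    rwa [one_mul] at this
  have h4 := Mn_unique cs X hMm (y := y * c⁻¹) (by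
    rw [← h3]
    exact (ph cs ho X g (bp cs X)).2.2) (mul_mem hy (inv_mem hcm))
  rw [h3, h4, mul_one]

theorem COC (X : Set B) (n : W) (hn : ∀ x ∈ X, geo cs n (ee x) = ee x) :
    ∃ ρ : ↥((PW cs X ⊔ Subgroup.zpowers n).comap (pr cs ho)) →* Sh M p,
      (∀ g, ρ g ∈ SP M p X) ∧
      (∀ g : ↥((PW cs X ⊔ Subgroup.zpowers n).comap (pr cs ho)),
        (g : Sh M p) ∈ SP M p X → ρ g = (g : Sh M p)) ∧
      ∀ (u : Sh M p) (s : B) (h : u * Sh.gen M p s ^ 2 * u⁻¹ ∈
          (PW cs X ⊔ Subgroup.zpowers n).comap (pr cs ho)),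
        pr cs ho u * cs.simple s * (pr cs ho u)⁻¹ ∉ PW cs X → ρ ⟨_, h⟩ = 1 := by
  have key : ∀ g : ↥((PW cs X ⊔ Subgroup.zpowers n).comap (pr cs ho)),
      ∃ (c : Sh (pull M (Subtype.val : X → B) Subtype.val_injective) (p ∘ (Subtype.val : X → B)))
        (m : W) (hm : m ∈ Fx cs X), ph cs ho X (g : Sh M p) (bp cs X) =
          Rm cs X c (Tm cs X m hm (bp cs X)) := by
    intro g
    obtain ⟨y, hy, m, hm, hg⟩ := mem_sup cs X hn g.2
    refine ⟨(ph cs ho X (g : Sh M p) (bp cs X)).1, m, hm, ?_⟩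
    refine Prod.ext ?_ (Subtype.ext ?_)
    · show _ = 1 * _
      rw [one_mul]
    · rw [ph_bp cs ho X hy hm hg]
      show m = 1 * m
      rw [one_mul]
  refine ⟨MonoidHom.mk' (fun g => inc M p (Subtype.val : X → B) Subtype.val_injective
    (ph cs ho X (g : Sh M p) (bp cs X)).1) ?_, ?_, ?_, ?_⟩
  · intro g' g
    obtain ⟨c, m, hm, hc⟩ := key g
    have h1 : ph cs ho X ((g' * g : ↥((PW cs X ⊔ Subgroup.zpowers n).comap (pr cs ho))) : Sh M p)
        (bp cs X) = Rm cs X c (Tm cs X m hm (ph cs ho X (g' : Sh M p) (bp cs X))) := by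
      rw [Subgroup.coe_mul, map_mul, Equiv.Perm.mul_apply, hc,
        ← comm_of cs ho X (Rm cs X c) (Rm_stp cs X c), ← comm_of cs ho X (Tm cs X m hm)
          (Tm_stp cs X hm)]
    show inc M p _ _ _ = inc M p _ _ _ * inc M p _ _ _
    rw [h1, hc, ← map_mul]
    congr 1
    show (ph cs ho X (g' : Sh M p) (bp cs X)).1 * c = _ * (1 * c)
    rw [one_mul]
  · intro g
    exact inc_mem X _
  · intro g hg
    obtain ⟨a, ha⟩ := exists_inc X hg
    show inc M p _ _ (ph cs ho X (g : Sh M p) (bp cs X)).1 = _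
    have h1 := act_inc (cs := cs) (ho := ho) (ι := (Subtype.val : X → B))
      (hι := Subtype.val_injective) a 1
    have h2 : ph cs ho X (g : Sh M p) (bp cs X) = (a * 1, ⟨1, Mn_one cs _⟩) := by
      rw [← ha]
      exact h1
    rw [h2, mul_one, ha]
  · intro u s h hs
    obtain ⟨ω, hω⟩ : ∃ ω, ω = ph cs ho X u⁻¹ (bp cs X) := ⟨_, rfl⟩
    have h1 := tot_ph cs ho X u⁻¹ (bp cs X)
    rw [tot_bp, mul_one, ← hω, map_inv] at h1
    have h1' : ω.2.1 * bar cs ho (Subtype.val : X → B) Subtype.val_injective ω.1 =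
      (pr cs ho u)⁻¹ := h1
    have h2 : ¬ ∃ x : X, cs.simple s * ω.2.1 = ω.2.1 * cs.simple x := by
      rintro ⟨x, hx⟩
      apply hs
      have h3 : pr cs ho u * cs.simple s * (pr cs ho u)⁻¹ =
          (bar cs ho (Subtype.val : X → B) Subtype.val_injective ω.1)⁻¹ * cs.simple x *
            bar cs ho (Subtype.val : X → B) Subtype.val_injective ω.1 := by
        have h4 : pr cs ho u = (bar cs ho (Subtype.val : X → B) Subtype.val_injective ω.1)⁻¹ *
            ω.2.1⁻¹ := by
          rw [← mul_inv_rev, h1', inv_inv]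
        rw [← h1', h4]
        calc _ = (bar cs ho (Subtype.val : X → B) Subtype.val_injective ω.1)⁻¹ * (ω.2.1⁻¹ *
              (cs.simple s * ω.2.1)) *
              bar cs ho (Subtype.val : X → B) Subtype.val_injective ω.1 := by group
          _ = _ := by rw [hx, inv_mul_cancel_left]
      rw [h3]
      exact mul_mem (mul_mem (inv_mem (bar_mem cs ho X _)) (PW_mem cs x.2)) (bar_mem cs ho X _)
    have h3 : ph cs ho X (Sh.gen M p s ^ 2) ω = ω := by
      rw [pow_two, map_mul, Equiv.Perm.mul_apply, ph_gen, ph_gen, stp_neg h2]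
      rw [stp_neg (ω := (ω.1, ⟨cs.simple s * ω.2.1, Mn_move cs _ ω.2.2 h2⟩))
        (Pool.Agent.K7.H20.AW.back (cs := cs) (ι := (Subtype.val : X → B)) h2)]
      refine Prod.ext rfl (Subtype.ext ?_)
      show cs.simple s * (cs.simple s * ω.2.1) = ω.2.1
      rw [← mul_assoc, cs.simple_mul_simple_self, one_mul]
    show inc M p _ _ (ph cs ho X (u * Sh.gen M p s ^ 2 * u⁻¹) (bp cs X)).1 = 1
    rw [map_mul, map_mul, Equiv.Perm.mul_apply, Equiv.Perm.mul_apply, ← hω, h3, hω, map_inv,
      pinv]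
    show inc M p _ _ 1 = 1
    rw [map_one]

end Pool.Agent.J4.H1.AR.COC
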