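import Pool.Agent.Q30.FJ.Crit

/-!
# Homomorphisms to the class from a homomorphism on a normal subgroup with cyclic quotient
-/

set_option autoImplicit false

namespace Pool.Agent.J4.H1.AR.CORE

open Pool.Agent.Y110.FJ (ClosedE Realized)
open Pool.Agent.Y462.SS (Closed Wr)

variable {C : ∀ (G : Type) [Group G], Prop}

/-- finite powers -/
theorem of_pi (hC : Closed C) {A : Type} [Group A] (hA : C A) (T : Type) [Finite T] :
    C (T → A) := by
  revert T
  intro T hT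
  induction T using Finite.induction_empty_option with
  | of_equiv e ih =>
    exact hC.of_injective _ _ (MulEquiv.arrowCongr e (MulEquiv.refl A)).symm.toMonoidHom
      (MulEquiv.injective _) ih
  | h_empty => exact Pool.Agent.Y430.SS.of_finite hC _ inferInstance
  | @h_option α _ ih =>
    refine hC.of_injective _ _ (MonoidHom.mk' (fun s : Option α → A => (s none, fun i => s (some i)))
      fun s t => rfl) ?_ (hC.prod _ _ hA ih)
    intro s t hst
    funext o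
    cases o with
    | none => exact congrArg Prod.fst hst
    | some i => exact congrFun (congrArg Prod.snd hst) i

/-- the wreath product with a finite symmetric group -/
theorem of_wr (hC : Closed C) {A : Type} [Group A] (hA : C A) (T : Type) [Finite T] :
    C (Wr T A) := by
  let π : Wr T A →* Equiv.Perm T := MonoidHom.mk' (fun w => w.p) fun a b => rfl
  have hK : π.ker.FiniteIndex := by
    have : Finite π.range := inferInstance
    exact Subgroup.finiteIndex_ker π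
  refine hC.finiteIndex _ π.ker hK ?_
  refine hC.of_injective _ (T → A) (MonoidHom.mk' (fun w : π.ker => (w : Wr T A).s) ?_) ?_
    (of_pi hC hA T)
  · intro a b
    funext x
    have hb : (b : Wr T A).p = 1 := b.2
    show (a : Wr T A).s ((b : Wr T A).p x) * (b : Wr T A).s x = _
    rw [hb]
    rfl
  · intro a b hab
    apply Subtype.ext
    apply Wr.ext
    · exact hab
    · have ha : (a : Wr T A).p = 1 := a.2
      have hb : (b : Wr T A).p = 1 := b.2
      rw [ha, hb]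

/-- conjugation in the wreath product -/
theorem conj_s {X Γ : Type} [Group Γ] (a w : Wr X Γ) (hw : w.p = 1) (i : X) :
    (a * w * a⁻¹).s (a.p i) = a.s i * w.s i * (a.s i)⁻¹ := by
  simp [hw]

/-- conjugation in the wreath product -/
theorem conj_p {X Γ : Type} [Group Γ] (a w : Wr X Γ) (hw : w.p = 1) : (a * w * a⁻¹).p = 1 := by
  simp [hw]

/-- extension of a partial permutation -/
theorem perm_ext' {Ω : Type} (π₀ : Equiv.Perm Ω) (S : Set Ω) (hS : S.Finite) :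
    ∃ τ : Equiv.Perm ↥(S ∪ π₀ '' S), ∀ (s : Ω) (hs : s ∈ S),
      ((τ ⟨s, Or.inl hs⟩ : ↥(S ∪ π₀ '' S)) : Ω) = π₀ s := by
  classical
  let T : Set Ω := S ∪ π₀ '' S
  have hT : T.Finite := hS.union (hS.image _)
  have := hT.fintype
  let p : T → Prop := fun x => (x : Ω) ∈ S
  let q : T → Prop := fun x => (x : Ω) ∈ π₀ '' S
  let e : {x // p x} ≃ {x // q x} :=
    { toFun := fun x => ⟨⟨π₀ x, Or.inr ⟨x, x.2, rfl⟩⟩, ⟨x, x.2, rfl⟩⟩
      invFun := fun y => ⟨⟨π₀.symm y, by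
          obtain ⟨s, hs, h⟩ := y.2
          rw [← h, Equiv.symm_apply_apply]; exact Or.inl hs⟩, by
          obtain ⟨s, hs, h⟩ := y.2
          show π₀.symm ((y : T) : Ω) ∈ S
          rw [← h, Equiv.symm_apply_apply]; exact hs⟩
      left_inv := by
        intro x
        apply Subtype.ext; apply Subtype.ext
        simp
      right_inv := by
        intro y
        apply Subtype.ext; apply Subtype.ext
        simp }
  refine ⟨e.extendSubtype, fun s hs => ?_⟩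
  have h2 : e.extendSubtype ⟨s, Or.inl hs⟩ = e ⟨⟨s, Or.inl hs⟩, hs⟩ :=
    Equiv.extendSubtype_apply_of_mem e ⟨s, Or.inl hs⟩ hs
  show ((e.extendSubtype ⟨s, Or.inl hs⟩ : T) : Ω) = π₀ s
  rw [h2]
  rfl

theorem CORE {C : ∀ (G : Type) [Group G], Prop} (hC : ClosedE C) {H P₁ A₁ : Type} [Group H]
    [Group P₁] [Group A₁] (N : Subgroup H) [N.Normal] (g : H) (hg : N ⊔ Subgroup.zpowers g = ⊤)
    (hinf : ∀ n : ℕ, 0 < n → g ^ n ∉ N) (ρ : N →* A₁) (hA : C A₁) (f₁ : H →* P₁) (hP : C P₁)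
    (hfin : ∀ x : H, x ∈ N → f₁ x = 1 →
      {j : ℤ | ∃ h : g ^ (-j) * x * g ^ j ∈ N, ρ ⟨_, h⟩ ≠ 1}.Finite) :
    ∃ (P : Type) (_ : Group P) (f : H →* P), C P ∧ ∀ x : N, f x = 1 → ρ x = 1 := by
  classical
  -- the degree
  have hz : ∀ n : ℤ, g ^ n ∈ N → n = 0 := by
    intro n hn
    by_contra h0
    refine hinf n.natAbs (Int.natAbs_pos.2 h0) ?_
    rcases Int.natAbs_eq n with h | h
    · rw [h, zpow_natCast] at hn
      exact hn
    · rw [h, zpow_neg, zpow_natCast] at hn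
      exact (Subgroup.inv_mem_iff N).1 hn
  have hex : ∀ h : H, ∃ n : ℤ, h * g ^ (-n) ∈ N := by
    intro h
    have h1 : h ∈ ((N ⊔ Subgroup.zpowers g : Subgroup H) : Set H) := by rw [hg]; trivial
    rw [Subgroup.normal_mul] at h1
    obtain ⟨x, hx, y, ⟨n, rfl⟩, rfl⟩ := h1
    refine ⟨n, ?_⟩
    have e : x * g ^ n * g ^ (-n) = x := by group
    show x * g ^ n * g ^ (-n) ∈ N
    rw [e]
    exact hx
  choose d hd using hex
  have huniq : ∀ (h : H) (n : ℤ), h * g ^ (-n) ∈ N → d h = n := by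
    intro h n hn
    have h1 := N.mul_mem (N.inv_mem (hd h)) hn
    have h2 := Subgroup.Normal.conj_mem inferInstance _ h1 (1 : H)
    have e : (h * g ^ (-(d h)))⁻¹ * (h * g ^ (-n)) = g ^ (d h - n) := by group
    rw [e] at h1
    have := hz _ h1
    omega
  have hdm : ∀ a b : H, d (a * b) = d a + d b := by
    intro a b
    apply huniq
    have h1 := Subgroup.Normal.conj_mem (inferInstance : N.Normal) _ (hd b) a
    have h2 := N.mul_mem h1 (hd a)
    have e : a * (b * g ^ (-(d b))) * a⁻¹ * (a * g ^ (-(d a))) = a * b * g ^ (-(d a + d b)) := by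
      group
    rwa [e] at h2
  have hdg : ∀ n : ℤ, d (g ^ n) = n := by
    intro n
    apply huniq
    have e : g ^ n * g ^ (-n) = 1 := by group
    rw [e]
    exact N.one_mem
  have hdN : ∀ x : H, d x = 0 ↔ x ∈ N := by
    intro x
    constructor
    · intro h
      have := hd x
      rwa [h, neg_zero, zpow_zero, mul_one] at this
    · intro h
      apply huniq
      rwa [neg_zero, zpow_zero, mul_one]
  have hmem : ∀ (h : H) (j : ℤ), g ^ (-(j + d h)) * h * g ^ j ∈ N := by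
    intro h j
    rw [← hdN, hdm, hdm, hdg, hdg]
    ring
  -- the induced homomorphism
  let F : H →* Wr ℤ A₁ := MonoidHom.mk'
    (fun h => ⟨fun j => ρ ⟨g ^ (-(j + d h)) * h * g ^ j, hmem h j⟩, Equiv.addRight (d h)⟩) (by
      intro a b
      apply Wr.ext
      · funext x
        rw [Pool.Agent.Y462.SS.Wr.mul_s, ← map_mul]
        refine congrArg ρ (Subtype.ext ?_)
        show g ^ (-(x + d (a * b))) * (a * b) * g ^ x =
          g ^ (-((Equiv.addRight (d b)) x + d a)) * a * g ^ ((Equiv.addRight (d b)) x) *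
            (g ^ (-(x + d b)) * b * g ^ x)
        rw [hdm, Equiv.coe_addRight]
        group
      · rw [Pool.Agent.Y462.SS.Wr.mul_p]
        apply Equiv.ext
        intro x
        show x + d (a * b) = x + d b + d a
        rw [hdm]
        ring)
  have hFs : ∀ h j, (F h).s j = ρ ⟨g ^ (-(j + d h)) * h * g ^ j, hmem h j⟩ := fun _ _ => rfl
  have hFp : ∀ h j, (F h).p j = j + d h := fun _ _ => rfl
  let Φ : H →* Wr ℤ A₁ × P₁ := F.prod f₁
  have hr : ∀ x : Φ.range, ∃ h : H, F h = (x : Wr ℤ A₁ × P₁).1 ∧ f₁ h = (x : Wr ℤ A₁ × P₁).2 := by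
    rintro ⟨_, h, rfl⟩
    exact ⟨h, rfl, rfl⟩
  refine ⟨Φ.range, inferInstance, Φ.rangeRestrict, ?_, ?_⟩
  swap
  · intro x hx
    have h1 : Φ (x : H) = 1 := congrArg Subtype.val hx
    have h2 : F (x : H) = 1 := congrArg Prod.fst h1
    have h3 : (F (x : H)).s 0 = 1 := by rw [h2]; rfl
    rw [hFs] at h3
    have e : (⟨g ^ (-(0 + d (x : H))) * (x : H) * g ^ (0 : ℤ), hmem x 0⟩ : N) = x := by
      apply Subtype.ext
      show g ^ (-(0 + d (x : H))) * (x : H) * g ^ (0 : ℤ) = x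
      rw [(hdN x).2 x.2]
      group
    rwa [e] at h3
  -- membership in the class
  let ψ : Φ.range →* Multiplicative ℤ × P₁ := MonoidHom.mk'
    (fun x => (Multiplicative.ofAdd ((x : Wr ℤ A₁ × P₁).1.p 0), (x : Wr ℤ A₁ × P₁).2)) (by
      intro x y
      obtain ⟨a, ha, -⟩ := hr x
      obtain ⟨b, hb, -⟩ := hr y
      apply Prod.ext
      · show Multiplicative.ofAdd (((x : Wr ℤ A₁ × P₁).1 * (y : Wr ℤ A₁ × P₁).1).p 0) =
          Multiplicative.ofAdd ((x : Wr ℤ A₁ × P₁).1.p 0) *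
            Multiplicative.ofAdd ((y : Wr ℤ A₁ × P₁).1.p 0)
        rw [← ofAdd_add, ← ha, ← hb, ← map_mul, hFp, hFp, hFp, hdm]
        congr 1
        ring
      · rfl)
  have hker : ∀ x : Φ.range, x ∈ ψ.ker → (x : Wr ℤ A₁ × P₁).1.p = 1 ∧
      (x : Wr ℤ A₁ × P₁).2 = 1 ∧ {j : ℤ | (x : Wr ℤ A₁ × P₁).1.s j ≠ 1}.Finite := by
    intro x hx
    obtain ⟨h, h1, h2⟩ := hr x
    have h3 : ψ x = 1 := hx
    have h4 : (x : Wr ℤ A₁ × P₁).1.p 0 = 0 := congrArg Prod.fst h3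
    have h5 : (x : Wr ℤ A₁ × P₁).2 = 1 := congrArg Prod.snd h3
    rw [← h1, hFp, zero_add] at h4
    refine ⟨?_, h5, ?_⟩
    · rw [← h1]
      apply Equiv.ext
      intro j
      rw [hFp, h4, add_zero]
      rfl
    · refine (hfin h ((hdN h).1 h4) (by rw [h2, h5])).subset ?_
      intro j hj
      have hj' : (F h).s j ≠ 1 := by rw [h1]; exact hj
      rw [hFs] at hj'
      have e : g ^ (-(j + d h)) * h * g ^ j = g ^ (-j) * h * g ^ j := by rw [h4, add_zero]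
      have hm := hmem h j
      rw [e] at hm
      refine ⟨hm, ?_⟩
      have e2 : (⟨g ^ (-(j + d h)) * h * g ^ j, hmem h j⟩ : N) = ⟨g ^ (-j) * h * g ^ j, hm⟩ :=
        Subtype.ext e
      rwa [e2] at hj'
  refine Q30.FJ.crit C hC Φ.range ψ.ker ?_ ?_
  · exact hC.base.of_injective _ _ (QuotientGroup.kerLift ψ) (QuotientGroup.kerLift_injective ψ)
      (hC.base.prod _ _ hC.base.int hP)
  intro g₀ E hE hEN
  set π₀ : Equiv.Perm ℤ := (g₀ : Wr ℤ A₁ × P₁).1.p with hπ₀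
  set S : Set ℤ := ⋃ x ∈ E, {j : ℤ | (x : Wr ℤ A₁ × P₁).1.s j ≠ 1} with hS
  have hai : ∀ j : ℤ, π₀ (π₀⁻¹ j) = j := fun j => Equiv.apply_symm_apply π₀ j
  have hSf : S.Finite := hE.biUnion fun x hx => (hker x (hEN hx)).2.2
  have hS1 : ∀ x ∈ E, ∀ j ∉ S, (x : Wr ℤ A₁ × P₁).1.s j = 1 := by
    intro x hx j hj
    by_contra h
    exact hj (Set.mem_biUnion hx h)
  obtain ⟨τ, hτ⟩ := perm_ext' π₀ S hSf
  have hTf : (S ∪ π₀ '' S).Finite := hSf.union (hSf.image _)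
  have : Finite ↥(S ∪ π₀ '' S) := hTf.to_subtype
  -- values of the conjugates
  have hcs : ∀ x ∈ E, ∀ i : ℤ, ((g₀ * x * g₀⁻¹ : Φ.range) : Wr ℤ A₁ × P₁).1.s (π₀ i) =
      (g₀ : Wr ℤ A₁ × P₁).1.s i * (x : Wr ℤ A₁ × P₁).1.s i *
        ((g₀ : Wr ℤ A₁ × P₁).1.s i)⁻¹ := by
    intro x hx i
    exact conj_s (g₀ : Wr ℤ A₁ × P₁).1 (x : Wr ℤ A₁ × P₁).1 (hker x (hEN hx)).1 i
  -- the elements supported in `T`
  let K : Subgroup Φ.range :=
    { carrier := {x | (x : Wr ℤ A₁ × P₁).1.p = 1 ∧ (x : Wr ℤ A₁ × P₁).2 = 1 ∧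
        ∀ j ∉ S ∪ π₀ '' S, (x : Wr ℤ A₁ × P₁).1.s j = 1}
      one_mem' := ⟨rfl, rfl, fun _ _ => rfl⟩
      mul_mem' := by
        rintro a b ⟨a1, a2, a3⟩ ⟨b1, b2, b3⟩
        refine ⟨?_, ?_, fun j hj => ?_⟩
        · show (a : Wr ℤ A₁ × P₁).1.p * (b : Wr ℤ A₁ × P₁).1.p = 1
          rw [a1, b1, mul_one]
        · show (a : Wr ℤ A₁ × P₁).2 * (b : Wr ℤ A₁ × P₁).2 = 1
          rw [a2, b2, mul_one]
        · show (a : Wr ℤ A₁ × P₁).1.s ((b : Wr ℤ A₁ × P₁).1.p j) * (b : Wr ℤ A₁ × P₁).1.s j = 1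
          rw [b1, Equiv.Perm.one_apply, a3 j hj, b3 j hj, mul_one]
      inv_mem' := by
        rintro a ⟨a1, a2, a3⟩
        refine ⟨?_, ?_, fun j hj => ?_⟩
        · show ((a : Wr ℤ A₁ × P₁).1.p)⁻¹ = 1
          rw [a1, inv_one]
        · show ((a : Wr ℤ A₁ × P₁).2)⁻¹ = 1
          rw [a2, inv_one]
        · show ((a : Wr ℤ A₁ × P₁).1.s (((a : Wr ℤ A₁ × P₁).1.p)⁻¹ j))⁻¹ = 1
          rw [a1, inv_one, Equiv.Perm.one_apply, a3 j hj, inv_one] }
  have hMK : Subgroup.closure (E ∪ (fun x => g₀ * x * g₀⁻¹) '' E) ≤ K := by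
    rw [Subgroup.closure_le]
    rintro x (hx | ⟨x, hx, rfl⟩)
    · exact ⟨(hker x (hEN hx)).1, (hker x (hEN hx)).2.1, fun j hj =>
        hS1 x hx j fun h => hj (Or.inl h)⟩
    · refine ⟨conj_p _ _ (hker x (hEN hx)).1, ?_, fun j hj => ?_⟩
      · show (g₀ : Wr ℤ A₁ × P₁).2 * (x : Wr ℤ A₁ × P₁).2 * ((g₀ : Wr ℤ A₁ × P₁).2)⁻¹ = 1
        rw [(hker x (hEN hx)).2.1, mul_one, mul_inv_cancel]
      · have h1 := hcs x hx (π₀⁻¹ j)
        rw [hai] at h1
        show ((g₀ * x * g₀⁻¹ : Φ.range) : Wr ℤ A₁ × P₁).1.s j = 1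
        rw [h1, hS1 x hx (π₀⁻¹ j) fun h => hj (Or.inr ⟨π₀⁻¹ j, h, hai _⟩),
          mul_one, mul_inv_cancel]
  refine ⟨Wr ↥(S ∪ π₀ '' S) A₁, inferInstance, MonoidHom.mk'
    (fun x => ⟨fun j => ((x : Φ.range) : Wr ℤ A₁ × P₁).1.s (j : ℤ), 1⟩) ?_,
    ⟨fun j => (g₀ : Wr ℤ A₁ × P₁).1.s (j : ℤ), τ⟩, of_wr hC.base hA _, ?_, ?_⟩
  · intro a b
    apply Wr.ext
    · funext j
      have hb := (hMK b.2).1
      show ((a : Φ.range) : Wr ℤ A₁ × P₁).1.s (((b : Φ.range) : Wr ℤ A₁ × P₁).1.p (j : ℤ)) *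
        ((b : Φ.range) : Wr ℤ A₁ × P₁).1.s (j : ℤ) = _
      rw [hb]
      rfl
    · rfl
  · intro a b hab
    obtain ⟨a1, a2, a3⟩ := hMK a.2
    obtain ⟨b1, b2, b3⟩ := hMK b.2
    have hs := congrArg Wr.s hab
    apply Subtype.ext
    apply Subtype.ext
    apply Prod.ext
    · apply Wr.ext
      · funext j
        by_cases hj : j ∈ S ∪ π₀ '' S
        · exact congrFun hs ⟨j, hj⟩
        · rw [a3 j hj, b3 j hj]
      · rw [a1, b1]
    · rw [a2, b2]
  · intro x y hx hy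
    apply Wr.ext
    · funext j
      obtain ⟨i, rfl⟩ := τ.surjective j
      have h1 := conj_s (⟨fun j : ↥(S ∪ π₀ '' S) => (g₀ : Wr ℤ A₁ × P₁).1.s (j : ℤ), τ⟩ :
        Wr ↥(S ∪ π₀ '' S) A₁) (⟨fun j => ((x : Φ.range) : Wr ℤ A₁ × P₁).1.s (j : ℤ), 1⟩) rfl i
      refine Eq.trans ?_ h1.symm
      show ((y : Φ.range) : Wr ℤ A₁ × P₁).1.s ((τ i : ↥(S ∪ π₀ '' S)) : ℤ) =
        (g₀ : Wr ℤ A₁ × P₁).1.s (i : ℤ) * ((x : Φ.range) : Wr ℤ A₁ × P₁).1.s (i : ℤ) *
          ((g₀ : Wr ℤ A₁ × P₁).1.s (i : ℤ))⁻¹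
      rw [hy]
      by_cases hi : (i : ℤ) ∈ S
      · have h2 : ((τ i : ↥(S ∪ π₀ '' S)) : ℤ) = π₀ i := hτ i hi
        rw [h2]
        exact hcs _ hx _
      · rw [hS1 _ hx _ hi, mul_one, mul_inv_cancel]
        have h3 := hcs _ hx (π₀⁻¹ ((τ i : ↥(S ∪ π₀ '' S)) : ℤ))
        rw [hai] at h3
        rw [h3, hS1 _ hx _ ?_, mul_one, mul_inv_cancel]
        intro hk
        have h4 := hτ _ hk
        rw [hai] at h4
        have h5 := τ.injective (Subtype.ext h4)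
        apply hi
        rw [← h5]
        exact hk
    · exact (conj_p _ _ rfl).symm

end Pool.Agent.J4.H1.AR.CORE
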