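import Pool.Agent.J4.H1.AR.Rt

/-!
# The homomorphism for one vertex
-/

set_option autoImplicit false

namespace Pool.Agent.J4.H1.AR.Rt

open Pool.Agent.Helper741 Pool.Agent.K7.H87.FJ6 CoxeterSystem
open Pool.Agent.K7.H20.AW (PW PW_mem PW_coord)
open Pool.Agent.Y110.FJ (ClosedE)
open Pool.Agent.R941.FJ (mem_sup_normal)

variable {B : Type} [Fintype B] [DecidableEq B] {M : CoxeterMatrix B}
variable {W : Type} [Group W] (cs : CoxeterSystem M W) {p : B → ℕ} (ho : Adm M p)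

theorem hn1 (Y : Set B) : ∀ x ∈ Y, geo cs (1 : W) (ee x) = ee x := by
  intro x _
  rw [map_one]
  rfl

open Classical in
/-- the retraction, extended by `1` -/
noncomputable def R0 (Y : Set B) (y : Sh M p) : Sh M p :=
  if h : pr cs ho y = 1 then rt cs ho Y 1 (hn1 cs Y) ⟨y, ker_Dm cs ho h⟩ else 1

theorem R0_eq (Y : Set B) {y : Sh M p} (h : pr cs ho y = 1) :
    R0 cs ho Y y = rt cs ho Y 1 (hn1 cs Y) ⟨y, ker_Dm cs ho h⟩ := by
  rw [R0, dif_pos h]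

theorem R0_mul (Y : Set B) {y z : Sh M p} (h : pr cs ho y = 1) (h' : pr cs ho z = 1) :
    R0 cs ho Y (y * z) = R0 cs ho Y y * R0 cs ho Y z := by
  have h2 : pr cs ho (y * z) = 1 := by rw [map_mul, h, h', mul_one]
  rw [R0_eq cs ho Y h, R0_eq cs ho Y h', R0_eq cs ho Y h2, ← map_mul]
  rfl

theorem R0_inv (Y : Set B) {y : Sh M p} (h : pr cs ho y = 1) :
    R0 cs ho Y y⁻¹ = (R0 cs ho Y y)⁻¹ := by
  have h2 : pr cs ho y⁻¹ = 1 := by rw [map_inv, h, inv_one]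
  rw [R0_eq cs ho Y h, R0_eq cs ho Y h2, ← map_inv]
  rfl

theorem R0_one (Y : Set B) : R0 cs ho Y (1 : Sh M p) = 1 := by
  rw [R0_eq cs ho Y (map_one _)]
  exact map_one _

theorem R0_mer (Y : Set B) (u : Sh M p) (s : B)
    (hs : pr cs ho u * cs.simple s * (pr cs ho u)⁻¹ ∉ PW cs Y) :
    R0 cs ho Y (u * Sh.gen M p s ^ 2 * u⁻¹) = 1 := by
  rw [R0_eq cs ho Y (pr_mer cs ho u s)]
  exact rt_mer cs ho (hn1 cs Y) u s _ hs

theorem conj_ker {y : Sh M p} (h : pr cs ho y = 1) (c : Sh M p) : pr cs ho (c⁻¹ * y * c) = 1 := by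
  rw [map_mul, map_mul, h, mul_one, map_inv, inv_mul_cancel]

theorem supp_fin (g a b : Sh M p) (X Y : Set B)
    (Hf : ∀ (v : W) (s : B), (pr cs ho b)⁻¹ * (v * cs.simple s * v⁻¹) * pr cs ho b ∉ PW cs X →
      {j : ℤ | ((pr cs ho g) ^ j * pr cs ho a)⁻¹ * (v * cs.simple s * v⁻¹) *
        ((pr cs ho g) ^ j * pr cs ho a) ∈ PW cs Y}.Finite) {m : Sh M p} (hm : m ∈ Mer cs ho X) :
    {j : ℤ | R0 cs ho Y ((g ^ j * a)⁻¹ * (b * m * b⁻¹) * (g ^ j * a)) ≠ 1}.Finite := by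
  have hpr : ∀ x ∈ Mer cs ho X, ∀ j : ℤ,
      pr cs ho ((g ^ j * a)⁻¹ * (b * x * b⁻¹) * (g ^ j * a)) = 1 := by
    intro x hx j
    apply conj_ker
    have := conj_ker cs ho (Mer_le cs ho hx) b⁻¹
    rwa [inv_inv] at this
  unfold Mer at hm
  induction hm using Subgroup.closure_induction with
  | mem m hm =>
    obtain ⟨u, s, hs, rfl⟩ := hm
    refine (Hf (pr cs ho (b * u)) s ?_).subset ?_
    · rw [map_mul]
      intro h
      apply hs
      convert h using 1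
      group
    · intro j hj
      by_contra hcon
      apply hj
      have h1 : (g ^ j * a)⁻¹ * (b * (u * Sh.gen M p s ^ 2 * u⁻¹) * b⁻¹) * (g ^ j * a) =
          ((g ^ j * a)⁻¹ * b * u) * Sh.gen M p s ^ 2 * ((g ^ j * a)⁻¹ * b * u)⁻¹ := by group
      rw [h1]
      apply R0_mer
      intro h
      apply hcon
      show _ ∈ PW cs Y
      convert h using 1
      simp only [map_mul, map_inv, map_zpow]
      group
  | one =>
    convert Set.finite_empty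
    ext j
    simp only [Set.mem_ofPred_eq, Set.mem_empty_iff_false, iff_false, not_not]
    rw [mul_one, mul_inv_cancel, mul_one, inv_mul_cancel]
    exact R0_one cs ho Y
  | mul x y hx hy ihx ihy =>
    refine (ihx.union ihy).subset ?_
    intro j hj
    by_contra hcon
    rw [Set.mem_union, not_or] at hcon
    simp only [Set.mem_ofPred_eq, not_not] at hcon
    apply hj
    have h1 : (g ^ j * a)⁻¹ * (b * (x * y) * b⁻¹) * (g ^ j * a) =
        ((g ^ j * a)⁻¹ * (b * x * b⁻¹) * (g ^ j * a)) *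
        ((g ^ j * a)⁻¹ * (b * y * b⁻¹) * (g ^ j * a)) := by group
    rw [h1, R0_mul cs ho Y (hpr x hx j) (hpr y hy j), hcon.1, hcon.2, mul_one]
  | inv x hx ih =>
    refine ih.subset ?_
    intro j hj
    by_contra hcon
    simp only [Set.mem_ofPred_eq, not_not] at hcon
    apply hj
    have h1 : (g ^ j * a)⁻¹ * (b * x⁻¹ * b⁻¹) * (g ^ j * a) =
        ((g ^ j * a)⁻¹ * (b * x * b⁻¹) * (g ^ j * a))⁻¹ := by group
    rw [h1, R0_inv cs ho Y (hpr x hx j), hcon, inv_one]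

variable {C : ∀ (G : Type) [Group G], Prop}

/-- the homomorphism for one vertex -/
theorem core' (hC : ClosedE C) (g : Sh M p) (hinf : ∀ k : ℕ, 0 < k → g ^ k ∉ (pr cs ho).ker)
    (Y : Set B) (a : Sh M p) (hCY : C ↥(SP M p Y)) {X : Set B} {n : W}
    (hn : ∀ x ∈ X, geo cs n (ee x) = ee x) (hCX : C ↥(SP M p X)) (b : Sh M p)
    (hK : ∀ x ∈ (pr cs ho).ker ⊔ Subgroup.zpowers g, b⁻¹ * x * b ∈ Dm cs ho X n)
    (Hf : ∀ (v : W) (s : B), (pr cs ho b)⁻¹ * (v * cs.simple s * v⁻¹) * pr cs ho b ∉ PW cs X →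
      {j : ℤ | ((pr cs ho g) ^ j * pr cs ho a)⁻¹ * (v * cs.simple s * v⁻¹) *
        ((pr cs ho g) ^ j * pr cs ho a) ∈ PW cs Y}.Finite) :
    ∃ (P : Type) (_ : Group P) (f : ↥((pr cs ho).ker ⊔ Subgroup.zpowers g) →* P), C P ∧
      ∀ x : ↥((pr cs ho).ker ⊔ Subgroup.zpowers g), (x : Sh M p) ∈ (pr cs ho).ker →
        a⁻¹ * (x : Sh M p) * a ∈ SP M p Y → f x = 1 → x = 1 := by
  obtain ⟨H, hH⟩ : ∃ H : Subgroup (Sh M p), H = (pr cs ho).ker ⊔ Subgroup.zpowers g := ⟨_, rfl⟩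
  rw [← hH] at hK
  rw [← hH]
  have hkH : (pr cs ho).ker ≤ H := hH ▸ le_sup_left
  have hgH : g ∈ H := hH ▸ Subgroup.mem_sup_right (Subgroup.mem_zpowers g)
  have hkD : ∀ x ∈ (pr cs ho).ker, a⁻¹ * x * a ∈ Dm cs ho Y 1 := fun x hx =>
    ker_Dm cs ho (conj_ker cs ho hx a)
  let N : Subgroup H := (pr cs ho).ker.subgroupOf H
  let ι : ↥N →* ↥(pr cs ho).ker := (H.subtype.comp N.subtype).codRestrict _ (fun x => x.2)
  let ρ : ↥N →* ↥(SP M p Y) := (rc cs ho (hn1 cs Y) a (pr cs ho).ker hkD).comp ι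
  have hρ : ∀ x : ↥N, ((ρ x : ↥(SP M p Y)) : Sh M p) = R0 cs ho Y (a⁻¹ * ((x : H) : Sh M p) * a) := by
    intro x
    have hx1 : pr cs ho ((x : H) : Sh M p) = 1 := x.2
    rw [R0_eq cs ho Y (conj_ker cs ho hx1 a)]
    exact rc_coe cs ho (hn1 cs Y) a (pr cs ho).ker hkD (ι x)
  have e1 : N ⊔ Subgroup.zpowers (⟨g, hgH⟩ : H) = ⊤ := by
    rw [eq_top_iff]
    rintro ⟨x, hx⟩ -
    have hx' := hx
    rw [hH] at hx'
    obtain ⟨c, hc, d, ⟨k, rfl⟩, rfl⟩ := mem_sup_normal.1 hx'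
    have h1 : (⟨c * (fun z : ℤ => g ^ z) k, hx⟩ : H) = ⟨c, hkH hc⟩ * ⟨g, hgH⟩ ^ k := by
      apply Subtype.ext
      simp
    rw [h1]
    exact mul_mem (Subgroup.mem_sup_left hc) (Subgroup.mem_sup_right ⟨k, rfl⟩)
  have e2 : ∀ k : ℕ, 0 < k → (⟨g, hgH⟩ : H) ^ k ∉ N := fun k hk h => hinf k hk h
  have e3 : ∀ x : H, x ∈ N → rc cs ho hn b H hK x = 1 →
      {j : ℤ | ∃ h : (⟨g, hgH⟩ : H) ^ (-j) * x * (⟨g, hgH⟩ : H) ^ j ∈ N, ρ ⟨_, h⟩ ≠ 1}.Finite := by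
    intro x hx hfx
    have h1 : b⁻¹ * (x : Sh M p) * b ∈ Mer cs ho X := by
      refine rt_ker cs ho hn (conj_ker cs ho hx b) ?_
      have h2 := rc_coe cs ho hn b H hK x
      rw [hfx] at h2
      exact h2.symm
    refine (supp_fin cs ho g a b X Y Hf h1).subset ?_
    rintro j ⟨hj, hj'⟩ h2
    apply hj'
    apply Subtype.ext
    rw [hρ]
    show R0 cs ho Y _ = 1
    rw [← h2]
    congr 1
    simp only [Subgroup.coe_mul, Subgroup.coe_zpow]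
    group
  obtain ⟨P, iP, f, hP, hf⟩ := CORE.CORE hC N ⟨g, hgH⟩ e1 e2 ρ hCY (rc cs ho hn b H hK) hCX e3
  refine ⟨P, iP, f, hP, fun x hx hxa hfx => ?_⟩
  have h1 := hf ⟨x, hx⟩ hfx
  have h2 := hρ ⟨x, hx⟩
  rw [h1] at h2
  have h3 : (1 : Sh M p) = a⁻¹ * (x : Sh M p) * a := by
    have h4 : R0 cs ho Y (a⁻¹ * (x : Sh M p) * a) = a⁻¹ * (x : Sh M p) * a := by
      rw [R0_eq cs ho Y (conj_ker cs ho hx a)]
      exact rt_fix cs ho (hn1 cs Y) _ hxa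
    rw [← h4]
    exact h2
  apply Subtype.ext
  have h5 : (x : Sh M p) = a * (a⁻¹ * (x : Sh M p) * a) * a⁻¹ := by group
  rw [h5, ← h3]
  simp

end Pool.Agent.J4.H1.AR.Rt
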