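import Pool.Agent.J4.H1.AR.Pw

/-!
# The kernel of the homomorphism to the Coxeter group and its cyclic extensions
-/

set_option autoImplicit false

namespace Pool.Agent.J4.H1.AR.Cyc

open Pool.Agent.Helper741 Pool.Agent.K7.H87.FJ6 CoxeterSystem
open Pool.Agent.K7.H20.AW (PW PW_mem PW_coord)
open Pool.Agent.Y110.FJ (ClosedE)
open Pool.Agent.J4.H1.AR.Rt Pool.Agent.J4.H1.AR.Vx Pool.Agent.J4.H1.AR.Pw
open Pool.Agent.Helper705_SA (cosetGraph IsAmalgam cosetGraph_isTree)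

variable {B : Type} [Fintype B] [DecidableEq B] {M : CoxeterMatrix B}
variable {W : Type} [Group W] (cs : CoxeterSystem M W) {p : B → ℕ} (ho : Adm M p)
variable {C : ∀ (G : Type) [Group G], Prop}

/-- the two sets -/
def Yb (s t : B) : Bool → Set B
  | true => {s}ᶜ
  | false => {t}ᶜ

theorem sb_SP (s t : B) (i : Bool) :
    sb (SP M p {s}ᶜ) (SP M p {t}ᶜ) i = SP M p (Yb s t i) := by
  cases i <;> rfl

theorem sb_PW (s t : B) (i : Bool) :
    sb (PW cs {s}ᶜ) (PW cs {t}ᶜ) i = PW cs (Yb s t i) := by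
  cases i <;> rfl

theorem Yb_ne (s t : B) (i : Bool) : Yb s t i ≠ Set.univ := by
  cases i
  · intro h
    have : t ∈ Yb s t false := by rw [h]; trivial
    exact this rfl
  · intro h
    have : s ∈ Yb s t true := by rw [h]; trivial
    exact this rfl

/-- the homomorphism given by one retraction -/
theorem one {Y : Set B} (a : Sh M p) (K : Subgroup (Sh M p))
    (hK : ∀ x ∈ K, a⁻¹ * x * a ∈ Dm cs ho Y 1) (x : K) (hx : a⁻¹ * (x : Sh M p) * a ∈ SP M p Y)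
    (h : rc cs ho (hn1 cs Y) a K hK x = 1) : x = 1 := by
  have h2 := rc_coe cs ho (hn1 cs Y) a K hK x
  rw [h, rt_fix cs ho (hn1 cs Y) _ hx] at h2
  have h3 : (1 : Sh M p) = a⁻¹ * (x : Sh M p) * a := h2
  apply Subtype.ext
  have h5 : (x : Sh M p) = a * (a⁻¹ * (x : Sh M p) * a) * a⁻¹ := by group
  rw [h5, ← h3]
  simp

theorem Dm_of_PW {Y : Set B} {n : W} {x : Sh M p} (h : pr cs ho x ∈ PW cs Y) :
    x ∈ Dm cs ho Y n := (le_sup_left : PW cs Y ≤ PW cs Y ⊔ Subgroup.zpowers n) h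

theorem pr_SP {Y : Set B} {x : Sh M p} (hx : x ∈ SP M p Y) : pr cs ho x ∈ PW cs Y := by
  have h1 : SP M p Y ≤ (PW cs Y).comap (pr cs ho) := by
    rw [SP, Subgroup.closure_le]
    rintro _ ⟨b, hb, rfl⟩
    show pr cs ho (Sh.gen M p b) ∈ PW cs Y
    rw [pr_gen]
    exact PW_mem cs hb
  exact h1 hx

/-- the kernel -/
theorem kerC (hC : ClosedE C) {s t : B} (hst : s ≠ t) (h0 : M s t = 0)
    (hA : ∀ Y : Set B, Y ≠ Set.univ → C ↥(SP M p Y)) : C ↥(pr cs ho).ker := by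
  refine local' _ _ hC (AM.AM_Sh hst h0) _ fun i a => ?_
  have hK : ∀ x ∈ (pr cs ho).ker, a⁻¹ * x * a ∈ Dm cs ho (Yb s t i) 1 := fun x hx =>
    ker_Dm cs ho (conj_ker cs ho hx a)
  refine ⟨↥(SP M p (Yb s t i)), inferInstance, rc cs ho (hn1 cs (Yb s t i)) a _ hK,
    hA _ (Yb_ne s t i), fun x hx h => ?_⟩
  rw [sb_SP] at hx
  exact one cs ho a _ hK x hx h

theorem Cu_smul (w v v' : W) {X : Set B} (h : (w * v)⁻¹ * v' ∈ PW cs X) :
    (Cu cs v X).map (geo cs w) = Cu cs v' X := by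
  ext z
  rw [INT.mem_Cu, Submodule.mem_map]
  have e : v'⁻¹ = ((w * v)⁻¹ * v')⁻¹ * (w * v)⁻¹ := by group
  constructor
  · rintro ⟨y, hy, rfl⟩
    rw [INT.mem_Cu] at hy
    rw [e, geo_mul_apply, INT.PW_Cp cs (inv_mem h), ← geo_mul_apply]
    have e2 : (w * v)⁻¹ * w = v⁻¹ := by group
    rw [e2]
    exact hy
  · intro hz
    rw [e, geo_mul_apply, INT.PW_Cp cs (inv_mem h)] at hz
    refine ⟨geo cs w⁻¹ z, ?_, ?_⟩
    · rw [INT.mem_Cu, ← geo_mul_apply]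
      have e2 : v⁻¹ * w⁻¹ = (w * v)⁻¹ := by group
      rw [e2]
      exact hz
    · rw [← geo_mul_apply, mul_inv_cancel, map_one]
      rfl

/-- reflections and roots -/
theorem refl_root (v u : W) (s : B) (X : Set B) :
    v⁻¹ * (u * cs.simple s * u⁻¹) * v ∈ PW cs X ↔ geo cs u (ee s) ∈ Cu cs v X := by
  have e : v⁻¹ * (u * cs.simple s * u⁻¹) * v = (v⁻¹ * u) * cs.simple s * (v⁻¹ * u)⁻¹ := by group
  rw [e, REF.REF, INT.mem_Cu, geo_mul_apply]

theorem vx_inj {G : Type} [Group G] (A D : Subgroup G) {i j : Bool} {a b : G}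
    (h : vx A D i a = vx A D j b) : i = j := by
  cases i <;> cases j
  · rfl
  · exact absurd h (by rintro ⟨⟩)
  · exact absurd h (by rintro ⟨⟩)
  · rfl

/-- the elements of the cyclic extension -/
theorem mem_cyc (g : Sh M p) {x : Sh M p} (hx : x ∈ (pr cs ho).ker ⊔ Subgroup.zpowers g) :
    ∃ j : ℤ, pr cs ho x = (pr cs ho g) ^ j := by
  rw [← comap_zp] at hx
  obtain ⟨j, hj⟩ := hx
  exact ⟨j, hj.symm⟩

/-- only the kernel fixes the vertex -/
theorem mem_ker_of (w : W) (g : Sh M p) (hgw : pr cs ho g = w) {V : Type} [MulAction W V] (x₀ : V)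
    (hfree : ∀ m : ℕ, 0 < m → w ^ m • x₀ ≠ x₀) {x : Sh M p}
    (hx : x ∈ (pr cs ho).ker ⊔ Subgroup.zpowers g) (hfix : pr cs ho x • x₀ = x₀) :
    x ∈ (pr cs ho).ker := by
  obtain ⟨j, hj⟩ := mem_cyc cs ho g hx
  rw [hgw] at hj
  rw [hj] at hfix
  rcases Int.lt_trichotomy j 0 with h | h | h
  · exfalso
    refine hfree (-j).toNat (by omega) ?_
    rw [← zpow_natCast, Int.toNat_of_nonneg (by omega), zpow_neg]
    exact inv_smul_eq_iff.2 hfix.symm
  · rw [MonoidHom.mem_ker, hj, h, zpow_zero]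
  · exfalso
    refine hfree j.toNat (by omega) ?_
    rw [← zpow_natCast, Int.toNat_of_nonneg (by omega)]
    exact hfix

theorem pow_ker {g : Sh M p} (hinf : ∀ k : ℕ, 0 < k → g ^ k ∉ (pr cs ho).ker) {k : ℕ}
    (hk : 0 < k) : ∀ m : ℕ, 0 < m → (g ^ k) ^ m ∉ (pr cs ho).ker := by
  intro m hm
  rw [← pow_mul]
  exact hinf _ (Nat.mul_pos hk hm)

/-- the elliptic case -/
theorem ell (hC : ClosedE C) {s t : B} (hst : s ≠ t) (h0 : M s t = 0)
    (hA : ∀ Y : Set B, Y ≠ Set.univ → C ↥(SP M p Y)) (g : Sh M p)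
    (hinf : ∀ k : ℕ, 0 < k → g ^ k ∉ (pr cs ho).ker)
    (q : (W ⧸ PW cs {s}ᶜ) ⊕ (W ⧸ PW cs {t}ᶜ)) (hq : pr cs ho g • q = q) :
    C ↥((pr cs ho).ker ⊔ Subgroup.zpowers g) := by
  have hT := cosetGraph_isTree _ _ (AM.AM_W cs hst h0)
  refine local' _ _ hC (AM.AM_Sh hst h0) _ fun i a => ?_
  obtain ⟨x₀, hx₀⟩ : ∃ x₀, x₀ = vx (PW cs {s}ᶜ) (PW cs {t}ᶜ) i (pr cs ho a) := ⟨_, rfl⟩
  have hfix : ∀ x : Sh M p, a⁻¹ * x * a ∈ SP M p (Yb s t i) → pr cs ho x • x₀ = x₀ := by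
    intro x hx
    rw [hx₀, fix_vx, sb_PW]
    have := pr_SP cs ho hx
    rwa [map_mul, map_mul, map_inv] at this
  by_cases hm : ∃ m : ℕ, 0 < m ∧ (pr cs ho g) ^ m • x₀ = x₀
  · obtain ⟨m, hm, hmx⟩ := hm
    have hK : ∀ x ∈ (pr cs ho).ker ⊔ Subgroup.zpowers (g ^ m),
        a⁻¹ * x * a ∈ Dm cs ho (Yb s t i) 1 := by
      intro x hx
      apply Dm_of_PW
      obtain ⟨j, hj⟩ := mem_cyc cs ho _ hx
      have h1 : pr cs ho x • x₀ = x₀ := by
        have h2 : (pr cs ho g) ^ m ∈ MulAction.stabilizer W x₀ := hmx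
        rw [hj, map_pow]
        exact Subgroup.zpow_mem _ h2 j
      rw [hx₀, fix_vx, sb_PW] at h1
      rwa [map_mul, map_mul, map_inv]
    obtain ⟨P, iP, f, hP, hf⟩ := lift_pow (pr cs ho) (pr_surjective cs ho) hC g hm
      (rc cs ho (hn1 cs (Yb s t i)) a _ hK) (hA _ (Yb_ne s t i))
    refine ⟨P, iP, f, hP, fun x hx hfx => ?_⟩
    rw [sb_SP] at hx
    obtain ⟨hx', h1⟩ := hf x hfx
    have h2 := one cs ho a _ hK ⟨x, hx'⟩ hx h1
    have h9 : (x : Sh M p) = 1 := congrArg Subtype.val h2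
    exact Subtype.ext h9
  · push Not at hm
    obtain ⟨k, v, hk, hkv, hr⟩ := ELL.ELL hT (hact _ _) (pr cs ho g) q hq x₀ hm
    obtain ⟨i', v', rfl⟩ := vx_surj _ _ v
    obtain ⟨b, rfl⟩ := pr_surjective cs ho v'
    have hfree : ∀ m : ℕ, 0 < m → ((pr cs ho g) ^ k) ^ m • x₀ ≠ x₀ := by
      intro m hm'
      rw [← pow_mul]
      exact hm _ (Nat.mul_pos hk hm')
    obtain ⟨P', iP', f', hP', hf'⟩ := core' cs ho hC (g ^ k) (pow_ker cs ho hinf hk)
      (Yb s t i) a (hA _ (Yb_ne s t i)) (hn1 cs (Yb s t i')) (hA _ (Yb_ne s t i')) b (by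
        intro x hx
        apply Dm_of_PW
        obtain ⟨j, hj⟩ := mem_cyc cs ho _ hx
        have h1 : pr cs ho x • vx (PW cs {s}ᶜ) (PW cs {t}ᶜ) i' (pr cs ho b) =
            vx (PW cs {s}ᶜ) (PW cs {t}ᶜ) i' (pr cs ho b) := by
          have h2 : (pr cs ho g) ^ k ∈ MulAction.stabilizer W
            (vx (PW cs {s}ᶜ) (PW cs {t}ᶜ) i' (pr cs ho b)) := hkv
          rw [hj, map_pow]
          exact Subgroup.zpow_mem _ h2 j
        rw [fix_vx, sb_PW] at h1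
        rwa [map_mul, map_mul, map_inv]) (by
        intro u s' hu
        apply Set.Subsingleton.finite
        intro j hj j' hj'
        by_contra hne
        apply hu
        have hfx : ∀ j : ℤ, ((pr cs ho (g ^ k)) ^ j * pr cs ho a)⁻¹ *
            (u * cs.simple s' * u⁻¹) * ((pr cs ho (g ^ k)) ^ j * pr cs ho a) ∈
            PW cs (Yb s t i) → (u * cs.simple s' * u⁻¹) • (((pr cs ho g) ^ k) ^ j • x₀) =
            ((pr cs ho g) ^ k) ^ j • x₀ := by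
          intro j hj
          rw [hx₀, smul_vx, fix_vx, sb_PW]
          rwa [map_pow] at hj
        have h1 := hr (u * cs.simple s' * u⁻¹) j j' hne (hfx j hj) (hfx j' hj')
        rwa [fix_vx, sb_PW] at h1)
    obtain ⟨P, iP, f, hP, hf⟩ := lift_pow (pr cs ho) (pr_surjective cs ho) hC g hk f' hP'
    refine ⟨P, iP, f, hP, fun x hx hfx => ?_⟩
    rw [sb_SP] at hx
    obtain ⟨hx', h1⟩ := hf x hfx
    have h3 : (x : Sh M p) ∈ (pr cs ho).ker := mem_ker_of cs ho _ (g ^ k) (map_pow _ _ _) x₀ hfree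
      hx' (hfix _ hx)
    have h2 := hf' ⟨x, hx'⟩ h3 hx h1
    have h9 : (x : Sh M p) = 1 := congrArg Subtype.val h2
    exact Subtype.ext h9

end Pool.Agent.J4.H1.AR.Cyc
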