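import Pool.Agent.J4.H1.AR.Defs
import Pool.Agent.Y110.FJ.Stm
import Pool.Agent.Y430.SS.Lf
import Pool.Agent.R941.FJ.Hyper

/-!
# Dihedral Artin groups belong to every class `ClosedE` (helper81)
-/

set_option autoImplicit false

namespace Pool.Agent.J4.H1.AR.D2

open Pool.Agent.Helper741 Pool.Agent.K7.H87.FJ6 CoxeterSystem
open Pool.Agent.Y110.FJ (ClosedE)
open Pool.Agent.Y462.SS (Closed)
open Pool.Agent.R941.FJ (C_equiv C_le C_cyc)

variable {C : ∀ (G : Type) [Group G], Prop}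

theorem swp {G : Type} [Group G] (a b : G) (k : ℕ) : (a * b) ^ k * a = a * (b * a) ^ k := by
  induction k with
  | zero => simp
  | succ k ih => rw [pow_succ', mul_assoc, ih, pow_succ']; simp only [mul_assoc]

/-- central extensions -/
theorem central_ext (hC : ClosedE C) {G : Type} [Group G] (N : Subgroup G) [N.Normal]
    (hN : N ≤ Subgroup.center G) (h1 : C ↥N) (h2 : C (G ⧸ N)) : C G := by
  refine Pool.Agent.Y529.FJ.t_ext C hC G N h1 h2 fun g hg => ?_
  let μ : ↥N × ↥(Subgroup.zpowers g) →* G :=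
    { toFun := fun x => (x.1 : G) * (x.2 : G)
      map_one' := by simp
      map_mul' := fun x y => by
        have hc : (y.1 : G) * (x.2 : G) = (x.2 : G) * (y.1 : G) :=
          (Subgroup.mem_center_iff.1 (hN y.1.2) (x.2 : G)).symm
        show (x.1 : G) * (y.1 : G) * ((x.2 : G) * (y.2 : G)) =
          (x.1 : G) * (x.2 : G) * ((y.1 : G) * (y.2 : G))
        rw [mul_assoc, ← mul_assoc (y.1 : G), hc, mul_assoc, mul_assoc] }
  have hinj : Function.Injective μ := by
    rw [injective_iff_map_eq_one]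
    rintro ⟨n, h⟩ hx
    have hx' : (n : G) * (h : G) = 1 := hx
    obtain ⟨j, hj⟩ := Subgroup.mem_zpowers_iff.1 h.2
    have hhN : (h : G) ∈ N := by
      rw [eq_inv_of_mul_eq_one_right hx']
      exact N.inv_mem n.2
    have hj0 : j = 0 := by
      by_contra hne
      rcases lt_or_gt_of_ne hne with hlt | hgt
      · obtain ⟨m, hm⟩ := Int.eq_ofNat_of_zero_le (a := -j) (by omega)
        refine hg m (by omega) ?_
        have h3 : g ^ m = (h : G)⁻¹ := by
          rw [← hj, ← zpow_natCast, ← zpow_neg]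
          congr 1
          exact hm.symm
        rw [h3]
        exact N.inv_mem hhN
      · obtain ⟨m, hm⟩ := Int.eq_ofNat_of_zero_le (a := j) (by omega)
        refine hg m (by omega) ?_
        have h3 : g ^ m = (h : G) := by
          rw [← hj, ← zpow_natCast]
          congr 1
          exact hm.symm
        rw [h3]
        exact hhN
    have hh1 : (h : G) = 1 := by rw [← hj, hj0, zpow_zero]
    have hn1 : (n : G) = 1 := by rw [hh1, mul_one] at hx'; exact hx'
    exact Prod.ext (Subtype.ext hn1) (Subtype.ext hh1)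
  have hle : N ⊔ Subgroup.zpowers g ≤ μ.range := by
    refine sup_le ?_ ?_
    · intro n hn
      exact ⟨(⟨n, hn⟩, 1), by show n * ((1 : ↥(Subgroup.zpowers g)) : G) = n; simp⟩
    · rw [Subgroup.zpowers_le]
      exact ⟨(1, ⟨g, Subgroup.mem_zpowers g⟩), by show ((1 : ↥N) : G) * g = g; simp⟩
  refine C_le hC.base hle ?_
  exact C_equiv hC.base (MonoidHom.ofInjective hinj).symm
    (hC.base.prod _ _ h1 (C_cyc hC.base g))

/-- a group generated by two elements `c`, `d` with a central element `z` such that modulo `z` it is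
the free product of the groups generated by `c` and `d` -/
theorem free_mod (hC : ClosedE C) {G : Type} [Group G] (z : G) (hz : z ∈ Subgroup.center G)
    [(Subgroup.zpowers z).Normal] (c d : G)
    (Φ : G →* Monoid.Coprod ↥(Subgroup.zpowers (c : G ⧸ Subgroup.zpowers z))
      ↥(Subgroup.zpowers (d : G ⧸ Subgroup.zpowers z)))
    (hΦ : (Monoid.Coprod.lift (Subgroup.zpowers (c : G ⧸ Subgroup.zpowers z)).subtype
      (Subgroup.zpowers (d : G ⧸ Subgroup.zpowers z)).subtype).comp Φ =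
        QuotientGroup.mk' (Subgroup.zpowers z)) : C G := by
  have hker : Φ.ker ≤ Subgroup.zpowers z := by
    intro x hx
    have h1 : QuotientGroup.mk' (Subgroup.zpowers z) x = 1 := by
      rw [← hΦ, MonoidHom.comp_apply, (MonoidHom.mem_ker).1 hx, map_one]
    exact (QuotientGroup.eq_one_iff _).1 h1
  refine central_ext hC Φ.ker (hker.trans ?_) (C_le hC.base hker (C_cyc hC.base z)) ?_
  · rw [Subgroup.zpowers_le]
    exact hz
  · exact hC.base.of_injective _ _ (QuotientGroup.kerLift Φ) (QuotientGroup.kerLift_injective Φ)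
      (hC.base.coprod _ _ (C_cyc hC.base _) (C_cyc hC.base _))

section dihedral

variable {B : Type} [Fintype B] [DecidableEq B] (M : CoxeterMatrix B) (s t : B)

theorem center_of (h : ∀ b, b = s ∨ b = t) {z : Sh M (fun _ => 0)}
    (hs : z * Sh.gen M _ s = Sh.gen M _ s * z) (ht : z * Sh.gen M _ t = Sh.gen M _ t * z) :
    z ∈ Subgroup.center (Sh M (fun _ => 0)) := by
  rw [Subgroup.mem_center_iff]
  intro g
  refine Sh.induction (q := fun g => g * z = z * g) ?_ ?_ ?_ ?_ g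
  · rw [one_mul, mul_one]
  · intro i
    rcases h i with rfl | rfl
    · exact hs.symm
    · exact ht.symm
  · intro x y hx hy
    rw [mul_assoc, hy, ← mul_assoc, hx, mul_assoc]
  · intro x hx
    rw [inv_mul_eq_iff_eq_mul, ← mul_assoc, hx, mul_assoc, mul_inv_cancel, mul_one]

theorem normal_zpowers {G : Type} [Group G] {z : G} (hz : z ∈ Subgroup.center G) :
    (Subgroup.zpowers z).Normal := by
  refine ⟨fun n hn g => ?_⟩
  have h1 : Subgroup.zpowers z ≤ Subgroup.center G := by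
    rw [Subgroup.zpowers_le]
    exact hz
  have h2 : g * n = n * g := Subgroup.mem_center_iff.1 (h1 hn) g
  rw [h2, mul_inv_cancel_right]
  exact hn

/-- the relation between the two generators -/
theorem exists_lift (hst : s ≠ t) (h : ∀ b, b = s ∨ b = t) {P : Type} [Group P] (a b : P)
    (hab : alt a b (M s t) = alt b a (M s t)) :
    ∃ Φ : Sh M (fun _ => 0) →* P, Φ (Sh.gen M _ s) = a ∧ Φ (Sh.gen M _ t) = b := by
  let f : B → P := fun x => if x = s then a else b
  have hfs : f s = a := if_pos rfl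
  have hft : f t = b := if_neg hst.symm
  refine ⟨Sh.lift f ?_ fun _ => pow_zero _, ?_, ?_⟩
  · intro i j
    rcases h i with hi | hi <;> rcases h j with hj | hj
    · rw [hi, hj]
    · rw [hi, hj, hfs, hft]
      exact hab
    · rw [hi, hj, hfs, hft, M.symmetric t s]
      exact hab.symm
    · rw [hi, hj]
  · rw [Sh.lift_gen]
    exact hfs
  · rw [Sh.lift_gen]
    exact hft

theorem even_case (hC : ClosedE C) (hst : s ≠ t) (h : ∀ b, b = s ∨ b = t) (k : ℕ)
    (hm : M s t = 2 * k) : C (Sh M (fun _ => 0)) := by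
  obtain ⟨a, ha⟩ : ∃ a, a = Sh.gen M (fun _ => 0) s := ⟨_, rfl⟩
  obtain ⟨b, hb⟩ : ∃ b, b = Sh.gen M (fun _ => 0) t := ⟨_, rfl⟩
  have hrel : (a * b) ^ k = (b * a) ^ k := by
    have h1 := Sh.rel (M := M) (p := fun _ => 0) s t
    rw [hm, alt_mul_two, alt_mul_two, ← ha, ← hb] at h1
    exact h1
  have hza : (a * b) ^ k * a = a * (a * b) ^ k := by
    rw [swp, hrel]
  have hzb : (a * b) ^ k * b = b * (a * b) ^ k := by
    rw [← swp b a k, hrel]
  have hz : (a * b) ^ k ∈ Subgroup.center (Sh M (fun _ => 0)) := by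
    refine center_of M s t h ?_ ?_
    · rw [← ha]
      exact hza
    · rw [← hb]
      exact hzb
  have := normal_zpowers hz
  let N := Subgroup.zpowers ((a * b) ^ k)
  let ca : ↥(Subgroup.zpowers (a : Sh M (fun _ => 0) ⧸ N)) := ⟨_, Subgroup.mem_zpowers _⟩
  let cx : ↥(Subgroup.zpowers ((a * b : Sh M (fun _ => 0)) : Sh M (fun _ => 0) ⧸ N)) :=
    ⟨_, Subgroup.mem_zpowers _⟩
  have hcx : cx ^ k = 1 := by
    apply Subtype.ext
    show (((a * b : Sh M (fun _ => 0)) : Sh M (fun _ => 0) ⧸ N)) ^ k = 1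
    rw [← QuotientGroup.mk_pow]
    exact (QuotientGroup.eq_one_iff _).2 (Subgroup.mem_zpowers _)
  let A : Monoid.Coprod ↥(Subgroup.zpowers (a : Sh M (fun _ => 0) ⧸ N))
    ↥(Subgroup.zpowers ((a * b : Sh M (fun _ => 0)) : Sh M (fun _ => 0) ⧸ N)) := Monoid.Coprod.inl ca
  let X : Monoid.Coprod ↥(Subgroup.zpowers (a : Sh M (fun _ => 0) ⧸ N))
    ↥(Subgroup.zpowers ((a * b : Sh M (fun _ => 0)) : Sh M (fun _ => 0) ⧸ N)) := Monoid.Coprod.inr cx
  have hX : X ^ k = 1 := by
    show (Monoid.Coprod.inr cx) ^ k = _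
    rw [← map_pow, hcx, map_one]
  obtain ⟨Φ, hΦs, hΦt⟩ := exists_lift M s t hst h A (A⁻¹ * X) (by
    rw [hm, alt_mul_two, alt_mul_two, mul_inv_cancel_left, hX]
    have h1 : (A⁻¹ * X * A) ^ k = A⁻¹ * X ^ k * A := by
      have := conj_pow (i := k) (a := A⁻¹) (b := X)
      rw [inv_inv] at this
      exact this
    rw [h1, hX, mul_one, inv_mul_cancel])
  refine free_mod hC ((a * b) ^ k) hz a (a * b) Φ ?_
  apply Sh.hom_ext
  intro i
  have hAs : Monoid.Coprod.lift (Subgroup.zpowers (a : Sh M (fun _ => 0) ⧸ N)).subtype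
      (Subgroup.zpowers ((a * b : Sh M (fun _ => 0)) : Sh M (fun _ => 0) ⧸ N)).subtype A =
        (a : Sh M (fun _ => 0) ⧸ N) := by
    show Monoid.Coprod.lift _ _ (Monoid.Coprod.inl ca) = _
    rw [Monoid.Coprod.lift_apply_inl]
    rfl
  have hXs : Monoid.Coprod.lift (Subgroup.zpowers (a : Sh M (fun _ => 0) ⧸ N)).subtype
      (Subgroup.zpowers ((a * b : Sh M (fun _ => 0)) : Sh M (fun _ => 0) ⧸ N)).subtype X =
        ((a * b : Sh M (fun _ => 0)) : Sh M (fun _ => 0) ⧸ N) := by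
    show Monoid.Coprod.lift _ _ (Monoid.Coprod.inr cx) = _
    rw [Monoid.Coprod.lift_apply_inr]
    rfl
  rcases h i with rfl | rfl
  · rw [MonoidHom.comp_apply, hΦs, hAs, ← ha]
    rfl
  · rw [MonoidHom.comp_apply, hΦt, map_mul, map_inv, hAs, hXs, ← hb]
    show _ = ((b : Sh M (fun _ => 0)) : Sh M (fun _ => 0) ⧸ N)
    rw [← QuotientGroup.mk_inv, ← QuotientGroup.mk_mul, inv_mul_cancel_left]

theorem odd_case (hC : ClosedE C) (hst : s ≠ t) (h : ∀ b, b = s ∨ b = t) (k : ℕ)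
    (hm : M s t = 2 * k + 1) : C (Sh M (fun _ => 0)) := by
  obtain ⟨a, ha⟩ : ∃ a, a = Sh.gen M (fun _ => 0) s := ⟨_, rfl⟩
  obtain ⟨b, hb⟩ : ∃ b, b = Sh.gen M (fun _ => 0) t := ⟨_, rfl⟩
  have hrel : (a * b) ^ k * a = b * (a * b) ^ k := by
    have h1 := Sh.rel (M := M) (p := fun _ => 0) s t
    rw [hm, alt_mul_two_add_one, alt_mul_two_add_one, ← ha, ← hb] at h1
    rw [h1, swp b a k]
  obtain ⟨D, hD⟩ : ∃ D, D = (a * b) ^ k * a := ⟨_, rfl⟩
  have hDa : D * a = b * D := by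
    rw [hD]
    nth_rewrite 1 [hrel]
    rw [mul_assoc]
  have hDb : a * D = D * b := by
    have h1 : a * (b * (a * b) ^ k) = (a * b) ^ k * a * b := by
      rw [← mul_assoc, ← pow_succ', mul_assoc, ← pow_succ]
    rw [hD]
    nth_rewrite 1 [hrel]
    exact h1
  have hDD : D * D = (a * b) ^ (2 * k + 1) := by
    have h1 : D * D = (a * b) ^ k * a * (b * (a * b) ^ k) := by
      rw [← hrel, ← hD]
    rw [h1, mul_assoc, ← mul_assoc a b, ← mul_assoc, ← pow_succ, ← pow_add]
    congr 1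
    ring
  have hza : D * D * a = a * (D * D) := by
    rw [mul_assoc, hDa, ← mul_assoc, ← hDb, mul_assoc]
  have hzb : D * D * b = b * (D * D) := by
    rw [mul_assoc, ← hDb, ← mul_assoc, hDa, mul_assoc]
  have hz : D * D ∈ Subgroup.center (Sh M (fun _ => 0)) := by
    refine center_of M s t h ?_ ?_
    · rw [← ha]
      exact hza
    · rw [← hb]
      exact hzb
  have := normal_zpowers hz
  let N := Subgroup.zpowers (D * D)
  let cd : ↥(Subgroup.zpowers (D : Sh M (fun _ => 0) ⧸ N)) := ⟨_, Subgroup.mem_zpowers _⟩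
  let cx : ↥(Subgroup.zpowers ((a * b : Sh M (fun _ => 0)) : Sh M (fun _ => 0) ⧸ N)) :=
    ⟨_, Subgroup.mem_zpowers _⟩
  have hcd : cd * cd = 1 := by
    apply Subtype.ext
    show (D : Sh M (fun _ => 0) ⧸ N) * (D : Sh M (fun _ => 0) ⧸ N) = 1
    rw [← QuotientGroup.mk_mul]
    exact (QuotientGroup.eq_one_iff _).2 (Subgroup.mem_zpowers _)
  have hcx : cx ^ (2 * k + 1) = 1 := by
    apply Subtype.ext
    show (((a * b : Sh M (fun _ => 0)) : Sh M (fun _ => 0) ⧸ N)) ^ (2 * k + 1) = 1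
    rw [← QuotientGroup.mk_pow, ← hDD]
    exact (QuotientGroup.eq_one_iff _).2 (Subgroup.mem_zpowers _)
  let Δ : Monoid.Coprod ↥(Subgroup.zpowers (D : Sh M (fun _ => 0) ⧸ N))
    ↥(Subgroup.zpowers ((a * b : Sh M (fun _ => 0)) : Sh M (fun _ => 0) ⧸ N)) := Monoid.Coprod.inl cd
  let X : Monoid.Coprod ↥(Subgroup.zpowers (D : Sh M (fun _ => 0) ⧸ N))
    ↥(Subgroup.zpowers ((a * b : Sh M (fun _ => 0)) : Sh M (fun _ => 0) ⧸ N)) := Monoid.Coprod.inr cx
  have hΔ : Δ * Δ = 1 := by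
    show (Monoid.Coprod.inl cd) * (Monoid.Coprod.inl cd) = _
    rw [← map_mul, hcd, map_one]
  have hX : X ^ (2 * k + 1) = 1 := by
    show (Monoid.Coprod.inr cx) ^ (2 * k + 1) = _
    rw [← map_pow, hcx, map_one]
  -- `s ↦ X ^ (-k) Δ`, `t ↦ Δ⁻¹ X ^ (k + 1)`
  obtain ⟨Φ, hΦs, hΦt⟩ := exists_lift M s t hst h ((X ^ k)⁻¹ * Δ) (Δ⁻¹ * X ^ (k + 1)) (by
    have h1 : (X ^ k)⁻¹ * Δ * (Δ⁻¹ * X ^ (k + 1)) = X := by
      rw [pow_succ]
      group
    rw [hm, alt_mul_two_add_one, alt_mul_two_add_one, h1,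
      swp (Δ⁻¹ * X ^ (k + 1)) ((X ^ k)⁻¹ * Δ) k, h1, mul_inv_cancel_left, mul_assoc,
      ← pow_add, show k + 1 + k = 2 * k + 1 by ring, hX, mul_one]
    exact eq_inv_of_mul_eq_one_left hΔ)
  refine free_mod hC (D * D) hz D (a * b) Φ ?_
  apply Sh.hom_ext
  intro i
  have hDs : Monoid.Coprod.lift (Subgroup.zpowers (D : Sh M (fun _ => 0) ⧸ N)).subtype
      (Subgroup.zpowers ((a * b : Sh M (fun _ => 0)) : Sh M (fun _ => 0) ⧸ N)).subtype Δ =
        (D : Sh M (fun _ => 0) ⧸ N) := by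
    show Monoid.Coprod.lift _ _ (Monoid.Coprod.inl cd) = _
    rw [Monoid.Coprod.lift_apply_inl]
    rfl
  have hXs : Monoid.Coprod.lift (Subgroup.zpowers (D : Sh M (fun _ => 0) ⧸ N)).subtype
      (Subgroup.zpowers ((a * b : Sh M (fun _ => 0)) : Sh M (fun _ => 0) ⧸ N)).subtype X =
        ((a * b : Sh M (fun _ => 0)) : Sh M (fun _ => 0) ⧸ N) := by
    show Monoid.Coprod.lift _ _ (Monoid.Coprod.inr cx) = _
    rw [Monoid.Coprod.lift_apply_inr]
    rfl
  rcases h i with rfl | rfl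
  · rw [MonoidHom.comp_apply, hΦs, map_mul, map_inv, map_pow, hDs, hXs, ← ha]
    show _ = ((a : Sh M (fun _ => 0)) : Sh M (fun _ => 0) ⧸ N)
    rw [← QuotientGroup.mk_pow, ← QuotientGroup.mk_inv, ← QuotientGroup.mk_mul, hD,
      inv_mul_cancel_left]
  · rw [MonoidHom.comp_apply, hΦt, map_mul, map_inv, map_pow, hDs, hXs, ← hb]
    show _ = ((b : Sh M (fun _ => 0)) : Sh M (fun _ => 0) ⧸ N)
    rw [← QuotientGroup.mk_pow, ← QuotientGroup.mk_inv, ← QuotientGroup.mk_mul]
    congr 1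
    rw [inv_mul_eq_iff_eq_mul, ← hDb, hD, hrel, ← mul_assoc, ← pow_succ']

end dihedral

theorem D2 {C : ∀ (G : Type) [Group G], Prop} (hC : ClosedE C) {B : Type} [Fintype B]
    [DecidableEq B] (M : CoxeterMatrix B) (s t : B) (hst : s ≠ t) (h : ∀ b, b = s ∨ b = t)
    (h0 : M s t ≠ 0) : C (Sh M (fun _ => 0)) := by
  clear h0
  rcases Nat.even_or_odd' (M s t) with ⟨k, hk | hk⟩
  · exact even_case M s t hC hst h k hk
  · exact odd_case M s t hC hst h k hk

end Pool.Agent.J4.H1.AR.D2
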