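import Mathlib

set_option autoImplicit false

/-!
# Automorphisms of trees without inversions: fixed point or axis
-/

namespace Pool.Agent.J4.H1.AR.DICH

variable {G V : Type} [Group G] [MulAction G V] {T : SimpleGraph V}

lemma dist_chain (hc : T.Connected) (f : ℕ → V) (a n : ℕ)
    (h : ∀ i, a ≤ i → i < a + n → T.Adj (f i) (f (i + 1))) : T.dist (f a) (f (a + n)) ≤ n := by
  induction n with
  | zero => simp
  | succ n ih =>
    have h1 := ih fun i h1 h2 => h i h1 (by omega)
    have h2 := h (a + n) (by omega) (by omega)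
    have h3 : T.dist (f (a + n)) (f (a + n + 1)) = 1 := SimpleGraph.dist_eq_one_iff_adj.2 h2
    have h4 := hc.dist_triangle (u := f a) (v := f (a + n)) (w := f (a + n + 1))
    rw [← add_assoc]
    omega

theorem DICH (hT : T.IsTree) (hact : ∀ (g : G) (u v : V), T.Adj u v → T.Adj (g • u) (g • v))
    (hinv : ∀ (g : G) (u : V), ¬ T.Adj u (g • u)) (w : G) :
    (∃ q : V, w • q = q) ∨ ∃ (γ : ℤ → V) (L : ℤ), 0 < L ∧ (∀ i, T.Adj (γ i) (γ (i + 1))) ∧
      (∀ i, γ i ≠ γ (i + 2)) ∧ ∀ i, w • γ i = γ (i + L) := by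
  have hc : T.Connected := hT.1
  have : Nonempty V := hc.nonempty
  obtain ⟨q, hq⟩ : ∃ q : V, ∀ q' : V, T.dist q (w • q) ≤ T.dist q' (w • q') := by
    have hne : (Set.range fun q : V => T.dist q (w • q)).Nonempty := Set.range_nonempty _
    obtain ⟨q, hq⟩ := Nat.sInf_mem hne
    refine ⟨q, fun q' => ?_⟩
    have h1 : sInf (Set.range fun q : V => T.dist q (w • q)) ≤ T.dist q' (w • q') :=
      Nat.sInf_le ⟨q', rfl⟩
    have h2 : T.dist q (w • q) = sInf (Set.range fun q : V => T.dist q (w • q)) := hq
    rw [h2]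
    exact h1
  by_cases h0 : T.dist q (w • q) = 0
  · left
    exact ⟨q, ((hc.dist_eq_zero_iff).1 h0).symm⟩
  have h1 : T.dist q (w • q) ≠ 1 := fun h => hinv w q (SimpleGraph.dist_eq_one_iff_adj.1 h)
  right
  obtain ⟨P, hP⟩ := hc.exists_walk_length_eq_dist q (w • q)
  obtain ⟨l, hl⟩ : ∃ l, P.length = l + 2 := ⟨P.length - 2, by omega⟩
  have hmin : ∀ q' : V, l + 2 ≤ T.dist q' (w • q') := by
    intro q'
    have := hq q'
    omega
  have hadj : ∀ i, i < l + 2 → T.Adj (P.getVert i) (P.getVert (i + 1)) := by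
    intro i hi
    exact P.adj_getVert_succ (by omega)
  have hP0 : P.getVert 0 = q := P.getVert_zero
  have hPL : P.getVert (l + 2) = w • q := by
    rw [← hl]
    exact P.getVert_length
  set L : ℤ := (l : ℤ) + 2 with hL
  have hLpos : 0 < L := by omega
  set γ : ℤ → V := fun n => w ^ (n / L) • P.getVert (n % L).toNat with hγ
  -- the values of `γ`
  have key : ∀ (k : ℤ) (j : ℕ), j ≤ l + 2 → γ (k * L + j) = w ^ k • P.getVert j := by
    intro k j hj
    rcases Nat.lt_or_ge j (l + 2) with h | h
    · have e1 : (k * L + j) / L = k := by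
        rw [add_comm, Int.add_mul_ediv_right _ _ hLpos.ne', Int.ediv_eq_zero_of_lt (by omega) (by omega),
          zero_add]
      have e2 : (k * L + j) % L = j := by
        rw [add_comm, Int.add_mul_emod_self_right]
        exact Int.emod_eq_of_lt (by omega) (by omega)
      rw [hγ]
      show w ^ ((k * L + j) / L) • P.getVert ((k * L + j) % L).toNat = _
      rw [e1, e2, Int.toNat_natCast]
    · have hj' : j = l + 2 := by omega
      have e0 : k * L + j = (k + 1) * L + 0 := by
        rw [hj', hL]
        push_cast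
        ring
      have e1 : ((k + 1) * L + 0) / L = k + 1 := by
        rw [add_zero]
        exact Int.mul_ediv_cancel _ hLpos.ne'
      have e2 : ((k + 1) * L + 0) % L = 0 := by
        rw [add_zero]
        exact Int.mul_emod_left _ _
      rw [hγ]
      show w ^ ((k * L + j) / L) • P.getVert ((k * L + j) % L).toNat = _
      rw [e0, e1, e2, Int.toNat_zero, hP0, hj', hPL, zpow_add, zpow_one, mul_smul]
  have hdec : ∀ i : ℤ, ∃ (k : ℤ) (j : ℕ), j < l + 2 ∧ i = k * L + j := by
    intro i
    refine ⟨i / L, (i % L).toNat, ?_, ?_⟩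
    · have h2 := Int.emod_nonneg i hLpos.ne'
      have h3 := Int.emod_lt_of_pos i hLpos
      omega
    · have h2 := Int.emod_nonneg i hLpos.ne'
      rw [Int.toNat_of_nonneg h2]
      have := Int.mul_ediv_add_emod i L
      linarith
  refine ⟨γ, L, hLpos, ?_, ?_, ?_⟩
  · intro i
    obtain ⟨k, j, hj, rfl⟩ := hdec i
    have e : k * L + (j : ℤ) + 1 = k * L + ((j + 1 : ℕ) : ℤ) := by push_cast; ring
    rw [e, key k j (by omega), key k (j + 1) (by omega)]
    exact hact _ _ _ (hadj j hj)
  · intro i
    obtain ⟨k, j, hj, rfl⟩ := hdec i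
    rcases Nat.lt_or_ge (j + 1) (l + 2) with h | h
    · have e : k * L + (j : ℤ) + 2 = k * L + ((j + 2 : ℕ) : ℤ) := by push_cast; ring
      rw [e, key k j (by omega), key k (j + 2) (by omega)]
      intro h2
      have h3 : P.getVert j = P.getVert (j + 2) := smul_left_cancel _ h2
      have h4 := dist_chain hc P.getVert 0 j (fun i _ hi => hadj i (by omega))
      obtain ⟨t, ht⟩ : ∃ t, l + 2 = (j + 2) + t := ⟨l - j, by omega⟩
      have h5 := dist_chain hc P.getVert (j + 2) t (fun i _ hi => hadj i (by omega))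
      rw [zero_add, hP0, h3] at h4
      rw [← ht, hPL] at h5
      have h6 := hc.dist_triangle (u := q) (v := P.getVert (j + 2)) (w := w • q)
      have h7 := hmin q
      omega
    · have hj' : j = l + 1 := by omega
      have e : k * L + (j : ℤ) + 2 = (k + 1) * L + ((1 : ℕ) : ℤ) := by
        rw [hj', hL]
        push_cast
        ring
      rw [e, key k j (by omega), key (k + 1) 1 (by omega), zpow_add, zpow_one, mul_smul, hj']
      intro h2
      have h3 : P.getVert (l + 1) = w • P.getVert 1 := smul_left_cancel _ h2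
      have h4 := dist_chain hc P.getVert 1 l (fun i _ hi => hadj i (by omega))
      rw [add_comm 1 l, h3] at h4
      have h5 := hmin (P.getVert 1)
      omega
  · intro i
    obtain ⟨k, j, hj, rfl⟩ := hdec i
    have e : k * L + (j : ℤ) + L = (k + 1) * L + j := by ring
    rw [e, key k j (by omega), key (k + 1) j (by omega), ← mul_smul]
    congr 1
    rw [add_comm, zpow_add, zpow_one]

end Pool.Agent.J4.H1.AR.DICH
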