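import Pool.Agent.K7.H20.AW.Tr
import Pool.Agent.Helper741.Matsumoto

/-!
# Shephard groups and Artin groups: definitions for the theorem on Farrell-Jones groups

`Sh M p` is the Shephard group (for `p = 0` the Artin group) of the Coxeter matrix `M`; the label `0` stands
for infinity. `pr` is the homomorphism to the Coxeter group, `SP M p X` the standard parabolic subgroup,
`PW cs X` the standard parabolic subgroup of the Coxeter group, `Mer cs ho X` the group generated by the
conjugates `u s² u⁻¹` (meridians) such that the reflection of `W` is not in `PW cs X`.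
-/

set_option autoImplicit false

namespace Pool.Agent.J4.H1.AR

open Pool.Agent.Helper741 Pool.Agent.K7.H87.FJ6 CoxeterSystem
open Pool.Agent.K7.H20.AW (PW PW_mem PW_coord)

section defs

variable {B : Type} [Fintype B] [DecidableEq B] {M : CoxeterMatrix B}
variable {W : Type} [Group W] (cs : CoxeterSystem M W) {p : B → ℕ} (ho : Adm M p)

/-- the homomorphism to the Coxeter group -/
def pr : Sh M p →* W :=
  Sh.lift (fun x => cs.simple x) (fun _ _ =>
    alt_comm_of_pow (cs.simple_mul_simple_self _) (cs.simple_mul_simple_self _)
      (cs.simple_mul_simple_pow _ _)) (fun i => by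
    obtain ⟨k, hk⟩ := ho.even i
    show cs.simple i ^ (p i) = 1
    rw [hk, ← two_mul, pow_mul, cs.simple_sq, one_pow])

@[simp] theorem pr_gen (b : B) : pr cs ho (Sh.gen M p b) = cs.simple b := Sh.lift_gen _ _ _ _

theorem pr_surjective : Function.Surjective (pr cs ho) := by
  rw [← MonoidHom.range_eq_top, eq_top_iff, ← cs.subgroup_closure_range_simple, Subgroup.closure_le]
  rintro _ ⟨b, rfl⟩
  exact ⟨Sh.gen M p b, pr_gen cs ho b⟩

variable (M p) in
/-- the standard parabolic subgroup -/
def SP (X : Set B) : Subgroup (Sh M p) := Subgroup.closure (Sh.gen M p '' X)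

/-- the meridians outside the parabolic subgroup of the Coxeter group -/
def merSet (X : Set B) : Set (Sh M p) :=
  {x | ∃ (u : Sh M p) (s : B), pr cs ho u * cs.simple s * (pr cs ho u)⁻¹ ∉ PW cs X ∧
    x = u * Sh.gen M p s ^ 2 * u⁻¹}

/-- the group generated by them -/
def Mer (X : Set B) : Subgroup (Sh M p) := Subgroup.closure (merSet cs ho X)

/-- the coordinate subspace -/
def Cp (X : Set B) : Submodule ℝ (B → ℝ) where
  carrier := {z | ∀ d, d ∉ X → z d = 0}
  add_mem' := fun {a b} ha hb d hd => by
    show a d + b d = 0
    rw [ha d hd, hb d hd, add_zero]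
  zero_mem' := fun _ _ => rfl
  smul_mem' := fun c z hz d hd => by
    show c • z d = 0
    rw [hz d hd, smul_zero]

/-- the image of the coordinate subspace -/
noncomputable def Cu (v : W) (X : Set B) : Submodule ℝ (B → ℝ) := (Cp X).map (geo cs v)

end defs

end Pool.Agent.J4.H1.AR
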