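import Pool.Agent.J4.H1.AR.TreeGeo

/-! Project AR (helper1), piece ELL (helper40). -/

set_option autoImplicit false

namespace Pool.Agent.J4.H1.AR.ELL

open Pool.Agent.J4.H1.AR.TreeGeo

variable {G V : Type} [Group G] [MulAction G V] {T : SimpleGraph V}

theorem zpow_fix {w : G} {u : V} (h : ∀ m : ℕ, 0 < m → w ^ m • u ≠ u) {k : ℕ} (hk : 0 < k) {i j : ℤ} (hij : i ≠ j) :
    (w ^ k) ^ i • u ≠ (w ^ k) ^ j • u := by
  have hpos : ∀ i j : ℤ, i < j → (w ^ k) ^ i • u ≠ (w ^ k) ^ j • u := by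
    intro i j hlt he
    have h1 : (w ^ k) ^ (j - i) • u = u := by
      have := congrArg (fun z => (w ^ k) ^ (-i) • z) he
      simp only [smul_smul, ← zpow_add] at this
      rw [neg_add_cancel, zpow_zero, one_smul, neg_add_eq_sub] at this
      exact this.symm
    obtain ⟨n, hn⟩ := Int.eq_ofNat_of_zero_le (by omega : 0 ≤ j - i)
    rw [hn, zpow_natCast, ← pow_mul] at h1
    exact h (k * n) (Nat.mul_pos hk (by omega)) h1
  rcases lt_or_gt_of_ne hij with h1 | h1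
  · exact hpos i j h1
  · exact (hpos j i h1).symm

theorem ELL (hT : T.IsTree) (hact : ∀ (g : G) (u v : V), T.Adj u v → T.Adj (g • u) (g • v))
    (w : G) (q : V) (hq : w • q = q) (x : V) (hx : ∀ m : ℕ, 0 < m → w ^ m • x ≠ x) :
    ∃ (k : ℕ) (v : V), 0 < k ∧ w ^ k • v = v ∧ ∀ (r : G) (i j : ℤ), i ≠ j →
      r • ((w ^ k) ^ i • x) = (w ^ k) ^ i • x → r • ((w ^ k) ^ j • x) = (w ^ k) ^ j • x → r • v = v := by
  classical
  have hex : ∃ n : ℕ, ∃ (v : V) (k : ℕ), 0 < k ∧ w ^ k • v = v ∧ T.dist x v = n :=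
    ⟨_, q, 1, one_pos, by rw [pow_one]; exact hq, rfl⟩
  obtain ⟨v, k, hk, hv, hn⟩ := Nat.find_spec hex
  have hmin := fun m (hm : m < Nat.find hex) => Nat.find_min hex hm
  rw [← hn] at hmin
  have hvx : v ≠ x := by
    rintro rfl
    exact hx k hk hv
  obtain ⟨u, hu, hd⟩ := exists_closer hT hvx
  have hu0 : ∀ m : ℕ, 0 < m → w ^ m • u ≠ u := fun m hm he =>
    hmin (T.dist x u) (by omega) ⟨u, m, hm, he, rfl⟩
  have hvz : ∀ i : ℤ, (w ^ k) ^ i • v = v := by
    intro i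
    have h1 : (w ^ k) ∈ MulAction.stabilizer G v := hv
    exact (MulAction.stabilizer G v).zpow_mem h1 i
  have hadj : ∀ i : ℤ, T.Adj v ((w ^ k) ^ i • u) := by
    intro i
    have := hact ((w ^ k) ^ i) _ _ hu
    rwa [hvz] at this
  have hdist : ∀ i : ℤ, T.dist ((w ^ k) ^ i • x) ((w ^ k) ^ i • u) + 1 = T.dist ((w ^ k) ^ i • x) v := by
    intro i
    conv_rhs => rw [← hvz i]
    rw [dist_smul hT hact, dist_smul hT hact]
    exact hd
  refine ⟨k, v, hk, hv, fun r i j hij h1 h2 => ?_⟩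
  refine fixes_between hT hact h1 h2 (between hT _ v rfl fun z hz hdz => ?_)
  have hz' : z = (w ^ k) ^ j • u := closer_unique hT hz (hadj j) hdz (hdist j)
  refine farther hT (hadj i) hz ?_ (hdist i)
  rw [hz']
  exact (zpow_fix hu0 hk hij).symm

end Pool.Agent.J4.H1.AR.ELL
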