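import Pool.Agent.J4.H1.AR.Defs
import Pool.Agent.Y462.SS.Base

/-! Project AR (helper1), piece INF (helper30): the group of an infinite Coxeter matrix is the directed colimit
of the groups of the finite sets of generators. -/

set_option autoImplicit false

namespace Pool.Agent.J4.H1.AR.INF

open Pool.Agent.Helper741 Pool.Agent.K7.H87.FJ6 CoxeterSystem Pool.Agent.J4.H1.AR
open Pool.Agent.Y462.SS (Closed)

variable {B : Type} (M : CoxeterMatrix B) (p : B → ℕ)

/-- the group of a finite set of generators -/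
abbrev GF (F : Finset B) : Type :=
  Sh (pull M (Subtype.val : F → B) Subtype.val_injective) (p ∘ Subtype.val)

/-- its generators -/
abbrev ge {F : Finset B} (x : B) (h : x ∈ F) : GF M p F :=
  Sh.gen (pull M (Subtype.val : F → B) Subtype.val_injective) (p ∘ Subtype.val) ⟨x, h⟩

theorem ge_rel {F : Finset B} (x y : B) (hx : x ∈ F) (hy : y ∈ F) :
    alt (ge M p x hx) (ge M p y hy) (M x y) = alt (ge M p y hy) (ge M p x hx) (M x y) :=
  Sh.rel (M := pull M (Subtype.val : F → B) Subtype.val_injective) (p := p ∘ Subtype.val)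
    ⟨x, hx⟩ ⟨y, hy⟩

theorem ge_pow {F : Finset B} (x : B) (hx : x ∈ F) : ge M p x hx ^ p x = 1 :=
  Sh.pow (M := pull M (Subtype.val : F → B) Subtype.val_injective) (p := p ∘ Subtype.val) ⟨x, hx⟩

/-- the transition maps -/
def tr {F F' : Finset B} (h : F ≤ F') : GF M p F →* GF M p F' :=
  Sh.lift (fun x : F => ge M p x.1 (h x.2)) (fun i j => ge_rel M p i.1 j.1 _ _)
    (fun i => ge_pow M p i.1 _)

theorem tr_ge {F F' : Finset B} (h : F ≤ F') (x : B) (hx : x ∈ F) :
    tr M p h (ge M p x hx) = ge M p x (h hx) := Sh.lift_gen _ _ _ _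

/-- the map to the whole group -/
abbrev toS (F : Finset B) : GF M p F →* Sh M p := inc M p Subtype.val Subtype.val_injective

theorem toS_ge {F : Finset B} (x : B) (hx : x ∈ F) : toS M p F (ge M p x hx) = Sh.gen M p x :=
  inc_gen _ _ _ _ _

open Classical in
/-- the map from the free group which kills the other generators -/
noncomputable def re (F : Finset B) : FreeGroup B →* GF M p F :=
  FreeGroup.lift (fun b => if h : b ∈ F then ge M p b h else 1)

theorem re_of {F : Finset B} (x : B) (hx : x ∈ F) : re M p F (FreeGroup.of x) = ge M p x hx := by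
  unfold re
  rw [FreeGroup.lift_apply_of, dif_pos hx]

/-- the words which die in the groups of all large finite sets -/
noncomputable def dead : Subgroup (FreeGroup B) where
  carrier := {v | ∃ F₀ : Finset B, ∀ F', F₀ ≤ F' → re M p F' v = 1}
  one_mem' := ⟨∅, fun F' _ => map_one _⟩
  mul_mem' := by
    classical
    rintro a b ⟨F₁, h1⟩ ⟨F₂, h2⟩
    refine ⟨F₁ ∪ F₂, fun F' hF => ?_⟩
    rw [map_mul, h1 F' (Finset.subset_union_left.trans hF),
      h2 F' (Finset.subset_union_right.trans hF), one_mul]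
  inv_mem' := by
    rintro a ⟨F₁, h1⟩
    refine ⟨F₁, fun F' hF => ?_⟩
    rw [map_inv, h1 F' hF, inv_one]

theorem mem_dead {v : FreeGroup B} : v ∈ dead M p ↔
    ∃ F₀ : Finset B, ∀ F', F₀ ≤ F' → re M p F' v = 1 := Iff.rfl

instance : (dead M p).Normal := ⟨by
  rintro a ha g
  obtain ⟨F₁, h1⟩ := (mem_dead M p).1 ha
  refine (mem_dead M p).2 ⟨F₁, fun F' hF => ?_⟩
  rw [map_mul, map_mul, h1 F' hF, mul_one, map_inv, mul_inv_cancel]⟩

theorem rels_le : rels M p ⊆ dead M p := by
  classical
  rintro _ (⟨i, j, rfl⟩ | ⟨i, rfl⟩)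
  · refine (mem_dead M p).2 ⟨{i, j}, fun F' hF => ?_⟩
    have hi : i ∈ F' := hF (by simp)
    have hj : j ∈ F' := hF (by simp)
    rw [map_mul, map_inv, map_alt, map_alt, re_of M p i hi, re_of M p j hj, ge_rel, mul_inv_cancel]
  · refine (mem_dead M p).2 ⟨{i}, fun F' hF => ?_⟩
    have hi : i ∈ F' := hF (by simp)
    rw [map_pow, re_of M p i hi, ge_pow]

theorem eventually_dies (F : Finset B) (x : GF M p F) (hx : toS M p F x = 1) :
    ∃ F', ∃ h : F ≤ F', tr M p h x = 1 := by
  classical
  obtain ⟨w, rfl⟩ := PresentedGroup.mk_surjective _ x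
  have h1 : toS M p F (PresentedGroup.mk _ w) =
      PresentedGroup.mk (rels M p) (FreeGroup.map (Subtype.val : F → B) w) := by
    have : (toS M p F).comp (PresentedGroup.mk _) =
        (PresentedGroup.mk (rels M p)).comp (FreeGroup.map (Subtype.val : F → B)) := by
      refine FreeGroup.ext_hom _ _ fun b => ?_
      rw [MonoidHom.comp_apply, MonoidHom.comp_apply, FreeGroup.map.of]
      exact toS_ge M p b.1 b.2
    exact DFunLike.congr_fun this w
  rw [h1, PresentedGroup.mk_eq_one_iff] at hx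
  have h2 := Subgroup.normalClosure_le_normal (rels_le M p) hx
  obtain ⟨F₀, h3⟩ := (mem_dead M p).1 h2
  refine ⟨F ∪ F₀, Finset.subset_union_left, ?_⟩
  rw [← h3 (F ∪ F₀) Finset.subset_union_right]
  have h4 : (tr M p (Finset.subset_union_left : F ≤ F ∪ F₀)).comp (PresentedGroup.mk _) =
      (re M p (F ∪ F₀)).comp (FreeGroup.map (Subtype.val : F → B)) := by
    refine FreeGroup.ext_hom _ _ fun b => ?_
    rw [MonoidHom.comp_apply, MonoidHom.comp_apply, FreeGroup.map.of,
      re_of M p b.1 (Finset.mem_union_left _ b.2)]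
    exact tr_ge M p _ b.1 b.2
  exact DFunLike.congr_fun h4 w

theorem toS_tr {F F' : Finset B} (h : F ≤ F') (x : GF M p F) :
    toS M p F' (tr M p h x) = toS M p F x := by
  have : (toS M p F').comp (tr M p h) = toS M p F := by
    refine Sh.hom_ext fun i => ?_
    rw [MonoidHom.comp_apply, tr_ge M p h i.1 i.2, toS_ge M p i.1 _]
    exact (toS_ge M p i.1 i.2).symm
  exact DFunLike.congr_fun this x

/-- every element comes from a finite set of generators -/
theorem exists_toS (y : Sh M p) : ∃ F, ∃ x : GF M p F, toS M p F x = y := by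
  classical
  induction y using Sh.induction with
  | one => exact ⟨∅, 1, map_one _⟩
  | gen i => exact ⟨{i}, ge M p i (by simp), toS_ge M p i _⟩
  | mul x y hx hy =>
    obtain ⟨F₁, a, rfl⟩ := hx
    obtain ⟨F₂, b, rfl⟩ := hy
    refine ⟨F₁ ∪ F₂, tr M p Finset.subset_union_left a * tr M p Finset.subset_union_right b, ?_⟩
    rw [map_mul, toS_tr, toS_tr]
  | inv x hx =>
    obtain ⟨F₁, a, rfl⟩ := hx
    exact ⟨F₁, a⁻¹, map_inv _ _⟩

/-- Piece INF: infinite rank. -/
theorem INF {C : ∀ (G : Type) [Group G], Prop} (hC : Closed C) {B : Type} (M : CoxeterMatrix B)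
    (p : B → ℕ) (h : ∀ F : Finset B, C (Sh (pull M (Subtype.val : F → B) Subtype.val_injective)
      (p ∘ Subtype.val))) : C (Sh M p) := by
  classical
  refine hC.colim (Finset B) (fun i j => ⟨i ∪ j, Finset.subset_union_left,
    Finset.subset_union_right⟩) (fun F => GF M p F) (fun F F' h => tr M p h) (Sh M p)
    (fun F => toS M p F) ?_ ?_ ?_ ?_ ?_ h
  · intro F h x
    have : tr M p h = MonoidHom.id _ := Sh.hom_ext fun i => tr_ge M p h i.1 i.2
    rw [this]
    rfl
  · intro F F' F'' h h' x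
    have : (tr M p h').comp (tr M p h) = tr M p (h.trans h') := by
      refine Sh.hom_ext fun i => ?_
      rw [MonoidHom.comp_apply, tr_ge M p h i.1 i.2, tr_ge M p h' i.1 _]
      exact (tr_ge M p (h.trans h') i.1 i.2).symm
    exact DFunLike.congr_fun this x
  · intro F F' h x
    exact toS_tr M p h x
  · exact exists_toS M p
  · intro F x hx
    exact eventually_dies M p F x hx

section sub

variable {A : Type} (ι : A → B) (hι : Function.Injective ι)

/-- the map of the groups of finite subsets -/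
def sm {F : Finset A} {F' : Finset B} (hF : ∀ a ∈ F, ι a ∈ F') :
    GF (pull M ι hι) (p ∘ ι) F →* GF M p F' :=
  inc (pull M (Subtype.val : F' → B) Subtype.val_injective) (p ∘ Subtype.val)
    (fun a : F => (⟨ι a.1, hF a.1 a.2⟩ : F')) (fun _ _ hab => Subtype.ext
      (hι (congrArg Subtype.val hab)))

theorem sm_ge {F : Finset A} {F' : Finset B} (hF : ∀ a ∈ F, ι a ∈ F') (a : A) (ha : a ∈ F) :
    sm M p ι hι hF (ge (pull M ι hι) (p ∘ ι) a ha) = ge M p (ι a) (hF a ha) :=
  inc_gen (pull M (Subtype.val : F' → B) Subtype.val_injective) (p ∘ Subtype.val)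
    (fun a : F => (⟨ι a.1, hF a.1 a.2⟩ : F')) (fun _ _ hab => Subtype.ext
      (hι (congrArg Subtype.val hab))) ⟨a, ha⟩

theorem sm_injective {M : CoxeterMatrix B} {p : B → ℕ} (h : Adm M p) {F : Finset A}
    {F' : Finset B} (hF : ∀ a ∈ F, ι a ∈ F') : Function.Injective (sm M p ι hι hF) :=
  Pool.Agent.K7.H87.FJ6.inc_injective (h.pull (Subtype.val : F' → B) Subtype.val_injective)
    (fun a : F => (⟨ι a.1, hF a.1 a.2⟩ : F')) (fun _ _ hab => Subtype.ext
      (hι (congrArg Subtype.val hab)))

/-- the parabolic subgroups of a group of infinite rank -/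
theorem inc_injective {M : CoxeterMatrix B} {p : B → ℕ} (h : Adm M p) (ι : A → B)
    (hι : Function.Injective ι) : Function.Injective (inc M p ι hι) := by
  classical
  refine (injective_iff_map_eq_one _).2 fun x hx => ?_
  obtain ⟨F, y, rfl⟩ := exists_toS (pull M ι hι) (p ∘ ι) x
  have hF : ∀ a ∈ F, ι a ∈ F.image ι := fun a ha => Finset.mem_image_of_mem _ ha
  have e1 : (toS M p (F.image ι)).comp (sm M p ι hι hF) =
      (inc M p ι hι).comp (toS (pull M ι hι) (p ∘ ι) F) := by
    refine Sh.hom_ext fun i => ?_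
    rw [MonoidHom.comp_apply, MonoidHom.comp_apply]
    have h1 := sm_ge M p ι hι hF i.1 i.2
    have h2 := toS_ge (pull M ι hι) (p ∘ ι) i.1 i.2
    have h3 := toS_ge M p (ι i.1) (hF i.1 i.2)
    exact (congrArg (toS M p (F.image ι)) h1).trans (h3.trans
      ((inc_gen M p ι hι i.1).symm.trans (congrArg (inc M p ι hι) h2.symm)))
  have h1 : toS M p (F.image ι) (sm M p ι hι hF y) = 1 := by
    have := DFunLike.congr_fun e1 y
    rw [MonoidHom.comp_apply, MonoidHom.comp_apply] at this
    rw [this, hx]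
  obtain ⟨F', hF', h2⟩ := eventually_dies M p _ _ h1
  have hF2 : ∀ a ∈ F, ι a ∈ F' := fun a ha => hF' (hF a ha)
  have e2 : (tr M p hF').comp (sm M p ι hι hF) = sm M p ι hι hF2 := by
    refine Sh.hom_ext fun i => ?_
    have h3 := sm_ge M p ι hι hF i.1 i.2
    have h4 := sm_ge M p ι hι hF2 i.1 i.2
    have h5 := tr_ge M p hF' (ι i.1) (hF i.1 i.2)
    exact (congrArg (tr M p hF') h3).trans (h5.trans h4.symm)
  have h3 : sm M p ι hι hF2 y = 1 := by
    have := DFunLike.congr_fun e2 y
    rw [MonoidHom.comp_apply] at this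
    rw [← this, h2]
  have h4 : y = 1 := sm_injective ι hι h hF2 (by rw [h3, map_one])
  rw [h4, map_one]

end sub

end Pool.Agent.J4.H1.AR.INF
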