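import Pool.Agent.J4.H1.AR.Tfr
import Pool.Agent.J4.H1.AR.INF
import Pool.Agent.J4.H1.AR.D2

/-!
# Reduction to the irreducible parabolic subgroups without infinite labels

The proof of `red` is the proof of helper30's `RED.RED`.
-/

set_option autoImplicit false

namespace Pool.Agent.J4.H1.AR.Fin

open Pool.Agent.Helper741 Pool.Agent.K7.H87.FJ6 CoxeterSystem
open Pool.Agent.Y110.FJ (ClosedE)
open Pool.Agent.R941.FJ (C_equiv)
open Pool.Agent.J4.H1.AR.Fr Pool.Agent.J4.H1.AR.Tfr

/-- no infinite label and no decomposition into two commuting parts -/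
def Irr {B : Type} (M : CoxeterMatrix B) (X : Set B) : Prop :=
  (∀ x ∈ X, ∀ y ∈ X, M x y ≠ 0) ∧
    ∀ Y ⊆ X, (∀ x ∈ Y, ∀ y ∈ X, y ∉ Y → M x y = 2) → Y = ∅ ∨ Y = X

/-- what is used of the class -/
structure Nice (Q : ∀ (G : Type) [Group G], Prop) : Prop where
  inj : ∀ (G H : Type) [Group G] [Group H] (f : G →* H), Function.Injective f → Q H → Q G
  prod : ∀ (G H : Type) [Group G] [Group H], Q G → Q H → Q (G × H)
  step : ∀ (B : Type) [Fintype B] [DecidableEq B] (M : CoxeterMatrix B) (p : B → ℕ), Adm M p →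
    ∀ s t : B, s ≠ t → M s t = 0 →
    (∀ Y : Set B, Y ≠ Set.univ → Q ↥(Subgroup.closure (Sh.gen M p '' Y))) → Q (Sh M p)
  union : ∀ (B : Type) (M : CoxeterMatrix B) (p : B → ℕ), Adm M p →
    (∀ F : Finset B, Q (Sh (pull M (Subtype.val : F → B) Subtype.val_injective)
      (p ∘ Subtype.val))) → Q (Sh M p)

theorem alt_two {G : Type} [Monoid G] (a b : G) : alt a b 2 = a * b := by
  simp [alt, List.range_succ]

theorem red {Q : ∀ (G : Type) [Group G], Prop} (hC : Nice Q) {B : Type} (M : CoxeterMatrix B)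
    (p : B → ℕ) (X : Set B) (h2 : ∀ x ∈ X, ∀ y ∉ X, M x y = 2)
    (h1 : Q ↥(Subgroup.closure (Sh.gen M p '' X)))
    (h1' : Q ↥(Subgroup.closure (Sh.gen M p '' Xᶜ))) : Q (Sh M p) := by
  classical
  set A := Subgroup.closure (Sh.gen M p '' X) with hA
  set A' := Subgroup.closure (Sh.gen M p '' Xᶜ) with hA'
  have hx : ∀ {b : B}, b ∈ X → Sh.gen M p b ∈ A := fun {b} hb =>
    Subgroup.subset_closure ⟨b, hb, rfl⟩
  have hx' : ∀ {b : B}, b ∉ X → Sh.gen M p b ∈ A' := fun {b} hb =>
    Subgroup.subset_closure ⟨b, hb, rfl⟩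
  have hcomm0 : ∀ x ∈ X, ∀ y ∉ X, Sh.gen M p x * Sh.gen M p y = Sh.gen M p y * Sh.gen M p x := by
    intro x hx y hy
    have h := Sh.rel (M := M) (p := p) x y
    rwa [h2 x hx y hy, alt_two, alt_two] at h
  have hcomm1 : ∀ x ∈ X, A' ≤ Subgroup.centralizer {Sh.gen M p x} := by
    intro x hx
    rw [hA', Subgroup.closure_le]
    rintro _ ⟨y, hy, rfl⟩
    rw [SetLike.mem_coe, Subgroup.mem_centralizer_iff]
    rintro _ rfl
    exact hcomm0 x hx y hy
  have hcomm2 : A ≤ Subgroup.centralizer (A' : Set (Sh M p)) := by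
    rw [hA, Subgroup.closure_le]
    rintro _ ⟨x, hx, rfl⟩
    rw [SetLike.mem_coe, Subgroup.mem_centralizer_iff]
    intro b hb
    exact ((Subgroup.mem_centralizer_iff.1 (hcomm1 x hx hb)) _ rfl).symm
  have hcomm : ∀ (a : A) (b : A'), Commute (A.subtype a) (A'.subtype b) := by
    intro a b
    exact ((Subgroup.mem_centralizer_iff.1 (hcomm2 a.2)) _ b.2).symm
  obtain ⟨φ, hφ⟩ : ∃ φ : B → A × A', φ = fun b => if h : b ∈ X then
      MonoidHom.inl A A' ⟨Sh.gen M p b, hx h⟩ else MonoidHom.inr A A' ⟨Sh.gen M p b, hx' h⟩ :=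
    ⟨_, rfl⟩
  have f1 : ∀ b (h : b ∈ X), φ b = MonoidHom.inl A A' ⟨Sh.gen M p b, hx h⟩ := by
    intro b h
    rw [hφ]
    simp only
    rw [dif_pos h]
  have f2 : ∀ b (h : b ∉ X), φ b = MonoidHom.inr A A' ⟨Sh.gen M p b, hx' h⟩ := by
    intro b h
    rw [hφ]
    simp only
    rw [dif_neg h]
  have g1 : ∀ i j, alt (φ i) (φ j) (M i j) = alt (φ j) (φ i) (M i j) := by
    intro i j
    by_cases hi : i ∈ X <;> by_cases hj : j ∈ X
    · rw [f1 i hi, f1 j hj, ← map_alt, ← map_alt]
      congr 1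
      apply A.subtype_injective
      rw [map_alt, map_alt]
      exact Sh.rel i j
    · rw [f1 i hi, f2 j hj, h2 i hi j hj, alt_two, alt_two]
      ext <;> simp
    · rw [f2 i hi, f1 j hj, ← M.symmetric, h2 j hj i hi, alt_two, alt_two]
      ext <;> simp
    · rw [f2 i hi, f2 j hj, ← map_alt, ← map_alt]
      congr 1
      apply A'.subtype_injective
      rw [map_alt, map_alt]
      exact Sh.rel i j
  have g2 : ∀ i, φ i ^ p i = 1 := by
    intro i
    by_cases hi : i ∈ X
    · rw [f1 i hi, ← map_pow]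
      have : (⟨Sh.gen M p i, hx hi⟩ : A) ^ p i = 1 := by
        apply A.subtype_injective
        rw [map_pow, map_one]
        exact Sh.pow i
      rw [this, map_one]
    · rw [f2 i hi, ← map_pow]
      have : (⟨Sh.gen M p i, hx' hi⟩ : A') ^ p i = 1 := by
        apply A'.subtype_injective
        rw [map_pow, map_one]
        exact Sh.pow i
      rw [this, map_one]
  set Φ : Sh M p →* A × A' := Sh.lift φ g1 g2
  set Ψ : A × A' →* Sh M p := MonoidHom.noncommCoprod A.subtype A'.subtype hcomm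
  have hΨ : Ψ.comp Φ = MonoidHom.id _ := by
    refine Sh.hom_ext fun i => ?_
    rw [MonoidHom.comp_apply, Sh.lift_gen]
    by_cases hi : i ∈ X
    · rw [f1 i hi]
      simp [Ψ, MonoidHom.noncommCoprod_apply]
    · rw [f2 i hi]
      simp [Ψ, MonoidHom.noncommCoprod_apply]
  refine hC.inj _ _ Φ ?_ (hC.prod _ _ h1 h1')
  intro x y hxy
  have e1 := DFunLike.congr_fun hΨ x
  have e2 := DFunLike.congr_fun hΨ y
  rw [MonoidHom.comp_apply] at e1 e2
  have e3 : x = Ψ (Φ x) := e1.symm
  rw [e3, hxy]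
  exact e2

variable {Q : ∀ (G : Type) [Group G], Prop}

theorem Q_iff (hC : Nice Q) {A B : Type} {M : CoxeterMatrix B} {p : B → ℕ}
    (ho : Adm M p) (ι : A → B) (hι : Function.Injective ι) :
    Q ↥(Subgroup.closure (Sh.gen M p '' Set.range ι)) ↔ Q (Sh (pull M ι hι) (p ∘ ι)) := by
  rw [← range_inc M p ι hι]
  exact ⟨fun h => hC.inj _ _ (MonoidHom.ofInjective (INF.inc_injective ho ι hι)).toMonoidHom
      (MonoidHom.ofInjective (INF.inc_injective ho ι hι)).injective h,
    fun h => hC.inj _ _ (MonoidHom.ofInjective (INF.inc_injective ho ι hι)).symm.toMonoidHom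
      (MonoidHom.ofInjective (INF.inc_injective ho ι hι)).symm.injective h⟩

theorem Q_top (hC : Nice Q) {G : Type} [Group G] {H : Subgroup G} (hH : H = ⊤) (h : Q ↥H) :
    Q G := by
  subst hH
  exact hC.inj _ _ (Subgroup.topEquiv (G := G)).symm.toMonoidHom
    (Subgroup.topEquiv (G := G)).symm.injective h

/-- passing to the group of a subset -/
theorem irr_pull (hC : Nice Q) {A B : Type} {M : CoxeterMatrix B} {p : B → ℕ}
    (ho : Adm M p) (ι : A → B) (hι : Function.Injective ι)
    (hX : ∀ X : Set B, X.Finite → Irr M X → Q ↥(Subgroup.closure (Sh.gen M p '' X)))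
    (X : Set A) (hf : X.Finite) (h : Irr (pull M ι hι) X) :
    Q ↥(Subgroup.closure (Sh.gen (pull M ι hι) (p ∘ ι) '' X)) := by
  refine hC.inj _ _ (((inc M p ι hι).comp (Subgroup.subtype _)).codRestrict
      (Subgroup.closure (Sh.gen M p '' (ι '' X))) ?_) ?_ (hX _ (hf.image ι) ?_)
  · intro x
    rw [← map_inc M p ι hι]
    exact Subgroup.mem_map_of_mem _ x.2
  · intro x y hxy
    have h1 := congrArg Subtype.val hxy
    exact Subtype.ext (INF.inc_injective ho _ _ h1)
  · refine ⟨?_, ?_⟩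
    · rintro _ ⟨x, hx, rfl⟩ _ ⟨y, hy, rfl⟩
      exact h.1 x hx y hy
    · intro Y hY h2
      have hYY : ι '' (ι ⁻¹' Y) = Y := by
        rw [Set.image_preimage_eq_iff]
        exact hY.trans (Set.image_subset_range _ _)
      rcases h.2 (ι ⁻¹' Y) (fun x hx => by
          obtain ⟨x', hx', hxx⟩ := hY hx
          exact hι hxx ▸ hx') (fun x hx y hy hyY => h2 _ hx _ ⟨y, hy, rfl⟩ hyY) with h3 | h3
      · left
        rw [← hYY, h3, Set.image_empty]
      · right
        rw [← hYY, h3]

theorem fin_irr (hC : Nice Q) (n : ℕ) :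
    ∀ (B : Type) [Fintype B] [DecidableEq B] (M : CoxeterMatrix B) (p : B → ℕ), Adm M p →
      Fintype.card B = n →
      (∀ X : Set B, X.Finite → Irr M X → Q ↥(Subgroup.closure (Sh.gen M p '' X))) →
        Q (Sh M p) := by
  induction n using Nat.strong_induction_on with
  | _ n ih =>
  intro B _ _ M p ho hn hX
  classical
  have key : ∀ Y : Set B, Y ≠ Set.univ → Q ↥(Subgroup.closure (Sh.gen M p '' Y)) := by
    intro Y hY
    have hr : Y = Set.range (Subtype.val : Y → B) := by rw [Subtype.range_coe]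
    rw [hr, Q_iff hC ho Subtype.val Subtype.val_injective]
    refine ih (Fintype.card Y) ?_ Y _ _ (ho.pull _ _) rfl ?_
    · rw [← hn]
      refine Fintype.card_lt_of_injective_not_surjective (Subtype.val : Y → B)
        Subtype.val_injective fun hs => hY ?_
      rw [hr]
      exact hs.range_eq
    · exact irr_pull hC ho _ _ hX
  by_cases h : ∃ s t, M s t = 0
  · obtain ⟨s, t, h0⟩ := h
    have hst : s ≠ t := by
      rintro rfl
      rw [M.diagonal] at h0
      exact one_ne_zero h0
    exact hC.step B M p ho s t hst h0 key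
  · push Not at h
    by_cases h' : Irr M (Set.univ : Set B)
    · exact Q_top hC (SP_univ M p) (hX Set.univ Set.finite_univ h')
    · have h2 : ¬ ∀ Y ⊆ (Set.univ : Set B), (∀ x ∈ Y, ∀ y ∈ (Set.univ : Set B), y ∉ Y → M x y = 2) →
          Y = ∅ ∨ Y = Set.univ := fun h2 => h' ⟨fun x _ y _ => h x y, h2⟩
      push Not at h2
      obtain ⟨Y, -, h3, h4, h5⟩ := h2
      refine red hC M p Y (fun x hx y hy => h3 x hx y trivial hy) (key Y h5) (key Yᶜ ?_)
      intro h6
      rw [Set.compl_univ_iff] at h6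
      exact h4.ne_empty h6

/-- **the reduction** -/
theorem all (hC : Nice Q) {B : Type} (M : CoxeterMatrix B) (p : B → ℕ) (ho : Adm M p) :
    Q (Sh M p) ↔
      ∀ X : Set B, X.Finite → Irr M X → Q ↥(Subgroup.closure (Sh.gen M p '' X)) := by
  classical
  refine ⟨fun h X _ _ => hC.inj _ _ (Subgroup.subtype _) (Subgroup.subtype_injective _) h,
    fun h => hC.union B M p ho fun F => ?_⟩
  exact fin_irr hC _ F _ _ (ho.pull _ _) rfl (irr_pull hC ho _ _ h)

/-- the class of the Farrell-Jones type -/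
theorem nice_C {C : ∀ (G : Type) [Group G], Prop} (hC : ClosedE C)
    (hW : ∀ (B : Type) [Finite B] (M : CoxeterMatrix B), C M.Group) : Nice C where
  inj := hC.base.of_injective
  prod := hC.base.prod
  step B _ _ M p ho s t hst h0 hY := Cyc.all M.toCoxeterSystem ho hC (hW B M) hst h0 hY
  union B M p _ h := INF.INF hC.base M p h

theorem nice_TF : Nice TF where
  inj G H _ _ f hf h := TF.of_injective f hf h
  prod G H _ _ h1 h2 := by
    intro g n hn hg
    exact Prod.ext (h1 _ n hn (congrArg Prod.fst hg)) (h2 _ n hn (congrArg Prod.snd hg))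
  step B _ _ M p ho s t hst h0 hY := amalgam (AM.AM_Sh hst h0) (hY _ (by simp)) (hY _ (by simp))
  union B M p ho h := by
    intro g n hn hg
    classical
    have hF : ∃ (F : Finset B), g ∈ (inc M p (Subtype.val : F → B) Subtype.val_injective).range := by
      have hg' : g ∈ Subgroup.closure (Set.range (Sh.gen M p)) := by
        rw [Sh.closure_range_gen]
        trivial
      clear hg
      induction hg' using Subgroup.closure_induction with
      | mem x hx =>
        obtain ⟨b, rfl⟩ := hx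
        exact ⟨{b}, ⟨Sh.gen _ _ ⟨b, Finset.mem_singleton_self b⟩, inc_gen _ _ _ _ _⟩⟩
      | one => exact ⟨∅, Subgroup.one_mem _⟩
      | mul x y _ _ hx hy =>
        obtain ⟨F, hF⟩ := hx
        obtain ⟨F', hF'⟩ := hy
        rw [range_inc] at hF hF'
        refine ⟨F ∪ F', ?_⟩
        rw [range_inc]
        refine Subgroup.mul_mem _ (Subgroup.closure_mono ?_ hF) (Subgroup.closure_mono ?_ hF')
        · apply Set.image_mono
          rw [Subtype.range_coe, Subtype.range_coe]
          exact_mod_cast Finset.subset_union_left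
        · apply Set.image_mono
          rw [Subtype.range_coe, Subtype.range_coe]
          exact_mod_cast Finset.subset_union_right
      | inv x _ hx =>
        obtain ⟨F, hF⟩ := hx
        exact ⟨F, Subgroup.inv_mem _ hF⟩
    obtain ⟨F, x, rfl⟩ := hF
    have h1 : x ^ n = 1 := by
      apply INF.inc_injective ho (Subtype.val : F → B) Subtype.val_injective
      rw [map_pow, map_one, hg]
    rw [h F x n hn h1, map_one]

/-- the group of a subset of the generators -/
theorem Q_part {Q : ∀ (G : Type) [Group G], Prop} (hC : Nice Q) {B : Type} {M : CoxeterMatrix B}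
    {p : B → ℕ} (ho : Adm M p) (X : Set B) :
    Q ↥(Subgroup.closure (Sh.gen M p '' X)) ↔
      Q (Sh (pull M (Subtype.val : X → B) Subtype.val_injective) (p ∘ Subtype.val)) := by
  rw [← Q_iff hC ho (Subtype.val : X → B) Subtype.val_injective, Subtype.range_coe]

/-- two generators -/
theorem two {C : ∀ (G : Type) [Group G], Prop} (hC : ClosedE C)
    (hW : ∀ (B : Type) [Finite B] (M : CoxeterMatrix B), C M.Group) {B : Type}
    (M : CoxeterMatrix B) (p : B → ℕ) (h0 : ∀ b, p b = 0) (X : Set B) (hX : X.ncard = 2)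
    (hI : Irr M X) : C ↥(Subgroup.closure (Sh.gen M p '' X)) := by
  classical
  obtain rfl : p = fun _ => 0 := funext h0
  have ho : Adm M (fun _ => 0) := ⟨fun _ => Even.zero, fun _ _ _ => rfl⟩
  rw [Q_part (nice_C hC hW) ho]
  obtain ⟨s, t, hst, rfl⟩ := Set.ncard_eq_two.1 hX
  exact D2.D2 hC (pull M (Subtype.val : ({s, t} : Set B) → B) Subtype.val_injective)
    ⟨s, by simp⟩ ⟨t, by simp⟩ (fun h => hst (congrArg Subtype.val h)) (by
      rintro ⟨b, rfl | rfl⟩
      · exact Or.inl rfl
      · exact Or.inr rfl) (hI.1 s (by simp) t (by simp))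

/-- at most one generator -/
theorem one {C : ∀ (G : Type) [Group G], Prop} (hC : ClosedE C) {B : Type}
    (M : CoxeterMatrix B) (p : B → ℕ) (X : Set B) (hf : X.Finite) (hX : X.ncard < 2) :
    C ↥(Subgroup.closure (Sh.gen M p '' X)) := by
  have h : X.ncard = 0 ∨ X.ncard = 1 := by omega
  rcases h with h | h
  · rw [Set.ncard_eq_zero hf] at h
    subst h
    rw [Set.image_empty, Subgroup.closure_empty]
    refine hC.base.of_injective _ (Multiplicative ℤ) 1 ?_ hC.base.int
    intro x y _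
    exact Subsingleton.elim _ _
  · obtain ⟨b, rfl⟩ := Set.ncard_eq_one.1 h
    rw [Set.image_singleton, ← Subgroup.zpowers_eq_closure]
    exact Pool.Agent.R941.FJ.C_cyc hC.base _

/-- the two reductions for the class -/
theorem main {C : ∀ (G : Type) [Group G], Prop} (hC : ClosedE C)
    (hW : ∀ (B : Type) [Finite B] (M : CoxeterMatrix B), C M.Group) {B : Type}
    (M : CoxeterMatrix B) (p : B → ℕ) (ho : Adm M p) :
    (C (Sh M p) ↔ ∀ X : Set B, X.Finite → 2 ≤ X.ncard → Irr M X →
      C (Sh (pull M (Subtype.val : X → B) Subtype.val_injective) (p ∘ Subtype.val))) ∧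
    ((∀ b, p b = 0) → (C (Sh M p) ↔ ∀ X : Set B, X.Finite → 3 ≤ X.ncard → Irr M X →
      C (Sh (pull M (Subtype.val : X → B) Subtype.val_injective) (p ∘ Subtype.val)))) ∧
    (TF (Sh M p) ↔ ∀ X : Set B, X.Finite → Irr M X →
      TF (Sh (pull M (Subtype.val : X → B) Subtype.val_injective) (p ∘ Subtype.val))) := by
  have hN := nice_C hC hW
  refine ⟨?_, fun h0 => ?_, ?_⟩
  · rw [all hN M p ho]
    refine ⟨fun h X hX _ hI => (Q_part hN ho X).1 (h X hX hI), fun h X hX hI => ?_⟩
    rcases lt_or_ge X.ncard 2 with h2 | h2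
    · exact one hC M p X hX h2
    · exact (Q_part hN ho X).2 (h X hX h2 hI)
  · rw [all hN M p ho]
    refine ⟨fun h X hX _ hI => (Q_part hN ho X).1 (h X hX hI), fun h X hX hI => ?_⟩
    rcases lt_or_ge X.ncard 3 with h3 | h3
    · rcases lt_or_ge X.ncard 2 with h2 | h2
      · exact one hC M p X hX h2
      · exact two hC hW M p h0 X (by omega) hI
    · exact (Q_part hN ho X).2 (h X hX h3 hI)
  · rw [all nice_TF M p ho]
    exact ⟨fun h X hX hI => (Q_part nice_TF ho X).1 (h X hX hI),
      fun h X hX hI => (Q_part nice_TF ho X).2 (h X hX hI)⟩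

end Pool.Agent.J4.H1.AR.Fin
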