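import Pool.Agent.J4.H1.AR.Hyp2

/-!
# Finite rank
-/

set_option autoImplicit false

namespace Pool.Agent.J4.H1.AR.Fr

open Pool.Agent.Helper741 Pool.Agent.K7.H87.FJ6 CoxeterSystem
open Pool.Agent.Y110.FJ (ClosedE)
open Pool.Agent.R941.FJ (C_equiv)

/-- the standard parabolic subgroup of a Shephard group of any rank -/
theorem range_inc {A B : Type} (M : CoxeterMatrix B) (p : B → ℕ) (ι : A → B)
    (hι : Function.Injective ι) :
    (inc M p ι hι).range = Subgroup.closure (Sh.gen M p '' Set.range ι) := by
  rw [MonoidHom.range_eq_map, ← Sh.closure_range_gen, MonoidHom.map_closure, ← Set.range_comp,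
    ← Set.range_comp]
  congr 2

theorem map_inc {A B : Type} (M : CoxeterMatrix B) (p : B → ℕ) (ι : A → B)
    (hι : Function.Injective ι) (X : Set A) :
    (Subgroup.closure (Sh.gen (pull M ι hι) (p ∘ ι) '' X)).map (inc M p ι hι) =
      Subgroup.closure (Sh.gen M p '' (ι '' X)) := by
  rw [MonoidHom.map_closure]
  congr 1
  rw [Set.image_image, Set.image_image]
  refine Set.image_congr fun x _ => ?_
  exact inc_gen M p ι hι x

variable {C : ∀ (G : Type) [Group G], Prop}

/-- the parabolic subgroup is the group of the restricted matrix -/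
theorem C_iff (hC : ClosedE C) {A B : Type} [Finite B] {M : CoxeterMatrix B} {p : B → ℕ}
    (ho : Adm M p) (ι : A → B) (hι : Function.Injective ι) :
    C ↥(Subgroup.closure (Sh.gen M p '' Set.range ι)) ↔ C (Sh (pull M ι hι) (p ∘ ι)) := by
  rw [← range_inc M p ι hι]
  exact ⟨fun h => C_equiv hC.base (MonoidHom.ofInjective (inc_injective ho ι hι)) h,
    fun h => C_equiv hC.base (MonoidHom.ofInjective (inc_injective ho ι hι)).symm h⟩

theorem C_top (hC : ClosedE C) {G : Type} [Group G] {H : Subgroup G} (hH : H = ⊤) (h : C ↥H) :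
    C G := by
  subst hH
  exact C_equiv hC.base Subgroup.topEquiv.symm h

theorem SP_univ {B : Type} (M : CoxeterMatrix B) (p : B → ℕ) :
    Subgroup.closure (Sh.gen M p '' Set.univ) = ⊤ := by
  rw [Set.image_univ, Sh.closure_range_gen]

/-- **finite rank** -/
theorem finite_rank (hC : ClosedE C)
    (hW : ∀ (B : Type) [Finite B] (M : CoxeterMatrix B), C M.Group) (n : ℕ) :
    ∀ (B : Type) [Fintype B] [DecidableEq B] (M : CoxeterMatrix B) (p : B → ℕ), Adm M p →
      Fintype.card B = n →
      (∀ X : Set B, (∀ x ∈ X, ∀ y ∈ X, M x y ≠ 0) →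
        C ↥(Subgroup.closure (Sh.gen M p '' X))) → C (Sh M p) := by
  induction n using Nat.strong_induction_on with
  | _ n ih =>
  intro B _ _ M p ho hn hX
  by_cases h : ∃ s t, M s t = 0
  · obtain ⟨s, t, h0⟩ := h
    have hst : s ≠ t := by
      rintro rfl
      rw [M.diagonal] at h0
      exact one_ne_zero h0
    refine Cyc.all M.toCoxeterSystem ho hC (hW B M) hst h0 fun Y hY => ?_
    classical
    have hr : Y = Set.range (Subtype.val : Y → B) := by rw [Subtype.range_coe]
    show C ↥(Subgroup.closure (Sh.gen M p '' Y))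
    rw [hr, C_iff hC ho Subtype.val Subtype.val_injective]
    refine ih (Fintype.card Y) ?_ Y _ _ (ho.pull _ _) rfl ?_
    · rw [← hn]
      refine Fintype.card_lt_of_injective_not_surjective (Subtype.val : Y → B)
        Subtype.val_injective fun hs => hY ?_
      rw [hr]
      exact hs.range_eq
    · intro X hXX
      refine hC.base.of_injective _ _ (((inc M p (Subtype.val : Y → B)
        Subtype.val_injective).comp (Subgroup.subtype _)).codRestrict
          (Subgroup.closure (Sh.gen M p '' (Subtype.val '' X))) ?_) ?_ (hX _ ?_)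
      · intro x
        rw [← map_inc M p Subtype.val Subtype.val_injective]
        exact Subgroup.mem_map_of_mem _ x.2
      · intro x y hxy
        have h1 := congrArg Subtype.val hxy
        exact Subtype.ext (inc_injective ho _ _ h1)
      · rintro _ ⟨x, hx, rfl⟩ _ ⟨y, hy, rfl⟩
        exact hXX x hx y hy
  · push Not at h
    exact C_top hC (SP_univ M p) (hX Set.univ fun x _ y _ => h x y)

end Pool.Agent.J4.H1.AR.Fr
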