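import Pool.Agent.J4.H1.AR.TreeGeo

/-! Project AR (helper1), piece HYP (helper40). -/

set_option autoImplicit false

namespace Pool.Agent.J4.H1.AR.HYP

open Pool.Agent.J4.H1.AR.TreeGeo

variable {G V : Type} [Group G] [MulAction G V] {T : SimpleGraph V}

/-- the distance grows along a ray without backtracking -/
theorem ray (hT : T.IsTree) {x : V} (c : ℕ → V) (h1 : ∀ n, T.Adj (c n) (c (n + 1))) (h2 : ∀ n, c n ≠ c (n + 2))
    (h0 : T.dist x (c 1) = T.dist x (c 0) + 1) : ∀ n, T.dist x (c n) = T.dist x (c 0) + n := by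
  have key : ∀ n, T.dist x (c (n + 1)) = T.dist x (c n) + 1 := by
    intro n
    induction n with
    | zero => exact h0
    | succ n ih =>
      exact farther hT (h1 n).symm (h1 (n + 1)) (h2 n).symm ih.symm
  intro n
  induction n with
  | zero => rw [add_zero]
  | succ n ih => rw [key n, ih, add_assoc]

theorem line (hT : T.IsTree) (x : V) (γ : ℤ → V) (h1 : ∀ i, T.Adj (γ i) (γ (i + 1))) (h2 : ∀ i, γ i ≠ γ (i + 2)) :
    ∃ (i₁ : ℤ) (D : ℕ), ∀ i, T.dist x (γ i) = D + (i - i₁).natAbs := by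
  classical
  have hex : ∃ n : ℕ, ∃ i : ℤ, T.dist x (γ i) = n := ⟨_, 0, rfl⟩
  obtain ⟨i₁, hi₁⟩ := Nat.find_spec hex
  have hmin : ∀ i, T.dist x (γ i₁) ≤ T.dist x (γ i) := by
    intro i
    rw [hi₁]
    exact Nat.find_min' hex ⟨i, rfl⟩
  have hup : ∀ n : ℕ, T.dist x (γ (i₁ + n)) = T.dist x (γ i₁) + n := by
    have h := ray hT (x := x) (fun n : ℕ => γ (i₁ + n))
      (fun n => by
        have := h1 (i₁ + n)
        rw [add_assoc] at this
        simpa using this)
      (fun n => by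
        have := h2 (i₁ + n)
        rw [add_assoc] at this
        simpa using this) (by
        simp only [Nat.cast_one, Nat.cast_zero, add_zero]
        rcases hT.dist_eq_dist_add_one_of_adj x (h1 i₁) with h3 | h3
        · have := hmin (i₁ + 1)
          omega
        · exact h3)
    intro n
    have := h n
    simpa using this
  have hdown : ∀ n : ℕ, T.dist x (γ (i₁ - n)) = T.dist x (γ i₁) + n := by
    have h := ray hT (x := x) (fun n : ℕ => γ (i₁ - n))
      (fun n => by
        have := (h1 (i₁ - n - 1)).symm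
        rw [sub_add_cancel] at this
        have e : i₁ - (n : ℤ) - 1 = i₁ - ((n + 1 : ℕ) : ℤ) := by push_cast; ring
        rw [e] at this
        exact this)
      (fun n => by
        have := (h2 (i₁ - n - 2)).symm
        rw [sub_add_cancel] at this
        have e : i₁ - (n : ℤ) - 2 = i₁ - ((n + 2 : ℕ) : ℤ) := by push_cast; ring
        rw [e] at this
        exact this) (by
        simp only [Nat.cast_one, Nat.cast_zero, sub_zero]
        have h4 := (h1 (i₁ - 1)).symm
        rw [sub_add_cancel] at h4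
        rcases hT.dist_eq_dist_add_one_of_adj x h4 with h3 | h3
        · have := hmin (i₁ - 1)
          omega
        · exact h3)
    intro n
    have := h n
    simpa using this
  refine ⟨i₁, T.dist x (γ i₁), fun i => ?_⟩
  rcases le_total i₁ i with h | h
  · obtain ⟨n, hn⟩ := Int.eq_ofNat_of_zero_le (sub_nonneg.2 h)
    have e : i = i₁ + n := by omega
    rw [e, hup]
    congr 1
    omega
  · obtain ⟨n, hn⟩ := Int.eq_ofNat_of_zero_le (sub_nonneg.2 h)
    have e : i = i₁ - n := by omega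
    rw [e, hdown]
    congr 1
    omega

theorem shift {w : G} {γ : ℤ → V} {L : ℤ} (h3 : ∀ i, w • γ i = γ (i + L)) : ∀ (j : ℤ) (i : ℤ), w ^ j • γ i = γ (i + j * L) := by
  intro j
  induction j using Int.induction_on with
  | zero => intro i; rw [zpow_zero, one_smul, zero_mul, add_zero]
  | succ n ih =>
    intro i
    rw [add_comm (n : ℤ) 1, zpow_add, zpow_one, mul_smul, ih, h3]
    congr 1
    ring
  | pred n ih =>
    intro i
    have h4 : w⁻¹ • γ (i + -(n : ℤ) * L) = γ (i + -(n : ℤ) * L - L) := by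
      rw [inv_smul_eq_iff, h3]
      congr 1
      ring
    have e : -(n : ℤ) - 1 = -1 + -(n : ℤ) := by ring
    rw [e, zpow_add, zpow_neg_one, mul_smul, ih, h4]
    congr 1
    ring

theorem HYP (hT : T.IsTree) (hact : ∀ (g : G) (u v : V), T.Adj u v → T.Adj (g • u) (g • v))
    (w : G) (γ : ℤ → V) (L : ℤ) (hL : 0 < L) (h1 : ∀ i, T.Adj (γ i) (γ (i + 1)))
    (h2 : ∀ i, γ i ≠ γ (i + 2)) (h3 : ∀ i, w • γ i = γ (i + L)) (x : V) :
    (∀ m : ℕ, 0 < m → w ^ m • x ≠ x) ∧ ∀ r : G, {j : ℤ | r • (w ^ j • x) = w ^ j • x}.Infinite →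
      (∃ i₀ : ℤ, ∀ i ≥ i₀, r • γ i = γ i) ∨ ∃ i₀ : ℤ, ∀ i ≤ i₀, r • γ i = γ i := by
  obtain ⟨i₁, D, hD⟩ := line hT x γ h1 h2
  have hDj : ∀ j i : ℤ, T.dist (w ^ j • x) (γ i) = D + (i - j * L - i₁).natAbs := by
    intro j i
    have e : γ i = w ^ j • γ (i - j * L) := by
      rw [shift h3, sub_add_cancel]
    rw [e, dist_smul hT hact, hD]
  refine ⟨fun m hm he => ?_, fun r hr => ?_⟩
  · have h4 := hDj m i₁
    rw [zpow_natCast, he, hD] at h4
    have h5 : 0 < (m : ℤ) * L := mul_pos (by exact_mod_cast hm) hL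
    omega
  · have hfix : ∀ j j' : ℤ, r • (w ^ j • x) = w ^ j • x → r • (w ^ j' • x) = w ^ j' • x →
        ∀ i : ℤ, i₁ + j * L ≤ i → i < i₁ + j' * L → r • γ i = γ i := by
      intro j j' hj hj' i hi hi'
      refine fixes_between hT hact hj hj' (between hT _ (γ i) rfl fun z hz hdz => ?_)
      have hz' : z = γ (i + 1) := by
        refine closer_unique hT hz (h1 i) hdz ?_
        rw [hDj, hDj]
        omega
      rw [hz', hDj, hDj]
      omega
    by_cases hub : ∀ B : ℤ, ∃ j ∈ {j : ℤ | r • (w ^ j • x) = w ^ j • x}, B < j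
    · left
      obtain ⟨j₀, hj₀⟩ := hr.nonempty
      refine ⟨i₁ + j₀ * L, fun i hi => ?_⟩
      obtain ⟨j', hj', hlt⟩ := hub (|i - i₁|)
      refine hfix j₀ j' hj₀ hj' i hi ?_
      have h5 : 0 ≤ |i - i₁| := abs_nonneg _
      have h6 : i - i₁ ≤ |i - i₁| := le_abs_self _
      nlinarith
    · right
      push Not at hub
      obtain ⟨B, hB⟩ := hub
      obtain ⟨j₀, hj₀⟩ := hr.nonempty
      have hlb : ∀ B' : ℤ, ∃ j ∈ {j : ℤ | r • (w ^ j • x) = w ^ j • x}, j < B' := by
        intro B'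
        by_contra hcon
        push Not at hcon
        exact hr ((Set.finite_Icc B' B).subset fun j hj => ⟨hcon j hj, hB j hj⟩)
      refine ⟨i₁ + j₀ * L - 1, fun i hi => ?_⟩
      obtain ⟨j, hj, hlt⟩ := hlb (-|i - i₁|)
      refine hfix j j₀ hj hj₀ i ?_ (by omega)
      have h5 : 0 ≤ |i - i₁| := abs_nonneg _
      have h6 : -(i - i₁) ≤ |i - i₁| := neg_le_abs _
      nlinarith

end Pool.Agent.J4.H1.AR.HYP
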