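import Pool.Agent.J4.H1.AR.Cyc

/-!
# The hyperbolic case
-/

set_option autoImplicit false

namespace Pool.Agent.J4.H1.AR.Cyc

open Pool.Agent.Helper741 Pool.Agent.K7.H87.FJ6 CoxeterSystem
open Pool.Agent.K7.H20.AW (PW PW_mem PW_coord)
open Pool.Agent.Y110.FJ (ClosedE)
open Pool.Agent.J4.H1.AR.Rt Pool.Agent.J4.H1.AR.Vx Pool.Agent.J4.H1.AR.Pw
open Pool.Agent.Helper705_SA (cosetGraph IsAmalgam cosetGraph_isTree)

variable {B : Type} [Fintype B] [DecidableEq B] {M : CoxeterMatrix B}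
variable {W : Type} [Group W] (cs : CoxeterSystem M W) {p : B → ℕ} (ho : Adm M p)
variable {C : ∀ (G : Type) [Group G], Prop}

theorem Yb_card (s t : B) (i : Bool) : (Yb s t i).ncard < Fintype.card B := by
  have h1 : (Yb s t i).ncard < (Set.univ : Set B).ncard := by
    apply Set.ncard_lt_ncard _ (Set.toFinite _)
    exact (Set.ssubset_univ_iff).2 (Yb_ne s t i)
  rwa [Set.ncard_univ, Nat.card_eq_fintype_card] at h1

theorem ne_univ_of_card {Z : Set B} (h : Z.ncard < Fintype.card B) : Z ≠ Set.univ := by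
  rintro rfl
  rw [Set.ncard_univ, Nat.card_eq_fintype_card] at h
  exact lt_irrefl _ h

/-- the hyperbolic case -/
theorem hyp (hC : ClosedE C) {s t : B} (hst : s ≠ t) (h0 : M s t = 0)
    (hA : ∀ Y : Set B, Y ≠ Set.univ → C ↥(SP M p Y)) (g : Sh M p)
    (hinf : ∀ k : ℕ, 0 < k → g ^ k ∉ (pr cs ho).ker)
    (γ : ℤ → (W ⧸ PW cs {s}ᶜ) ⊕ (W ⧸ PW cs {t}ᶜ)) (L : ℤ) (hL : 0 < L)
    (h1 : ∀ i, (cosetGraph (PW cs {s}ᶜ) (PW cs {t}ᶜ)).Adj (γ i) (γ (i + 1)))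
    (h2 : ∀ i, γ i ≠ γ (i + 2)) (h3 : ∀ i, pr cs ho g • γ i = γ (i + L)) :
    C ↥((pr cs ho).ker ⊔ Subgroup.zpowers g) := by
  have hT := cosetGraph_isTree _ _ (AM.AM_W cs hst h0)
  have hsurj := vx_surj (PW cs {s}ᶜ) (PW cs {t}ᶜ)
  choose c v hcv using fun i => hsurj (γ i)
  obtain ⟨w, hw⟩ : ∃ w, w = pr cs ho g := ⟨_, rfl⟩
  rw [← hw] at h3
  -- equivariance
  have hstep : ∀ i, c i = c (i + L) ∧ (w * v i)⁻¹ * v (i + L) ∈ PW cs (Yb s t (c i)) := by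
    intro i
    have h4 := h3 i
    rw [hcv i, hcv (i + L), smul_vx] at h4
    have h5 := vx_inj _ _ h4
    refine ⟨h5, ?_⟩
    rw [← h5, vx_eq, sb_PW] at h4
    exact h4
  have hmap : ∀ i, (Cu cs (v i) (Yb s t (c i))).map (geo cs w) =
      Cu cs (v (i + L)) (Yb s t (c (i + L))) := by
    intro i
    rw [← (hstep i).1]
    exact Cu_smul cs w _ _ (hstep i).2
  obtain ⟨h, Z, hZc, hZ⟩ := INT.INT cs v (fun i => Yb s t (c i))
  have hZu : Z ≠ Set.univ := ne_univ_of_card (lt_of_le_of_lt (hZc 0) (Yb_card s t _))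
  have hinv : (Cp Z).map (geo cs (h⁻¹ * w * h)) = (Cp Z : Submodule ℝ (B → ℝ)) := by
    refine RAY.RAY2 cs w h Z fun g' s' hg' => ?_
    rw [← geo_mul_apply, hZ]
    intro i
    have h4 := (hZ g' s').1 hg' (i - L)
    have h5 : geo cs w (geo cs g' (ee s')) ∈
        (Cu cs (v (i - L)) (Yb s t (c (i - L)))).map (geo cs w) :=
      Submodule.mem_map_of_mem h4
    rw [hmap, sub_add_cancel, ← geo_mul_apply] at h5
    exact h5
  obtain ⟨k, y, n, hk, hy, hyn, hn⟩ := NRM.NRM cs Z _ hinv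
  refine of_pow (pr cs ho) (pr_surjective cs ho) hC g hk ?_
  obtain ⟨b, hb⟩ := pr_surjective cs ho h
  have hgk : pr cs ho (g ^ k) = w ^ k := by rw [map_pow, hw]
  refine local' _ _ hC (AM.AM_Sh hst h0) _ fun i a => ?_
  obtain ⟨x₀, hx₀⟩ : ∃ x₀, x₀ = vx (PW cs {s}ᶜ) (PW cs {t}ᶜ) i (pr cs ho a) := ⟨_, rfl⟩
  have hH := HYP.HYP hT (hact _ _) w γ L hL h1 h2 h3 x₀
  have hfree : ∀ m : ℕ, 0 < m → (w ^ k) ^ m • x₀ ≠ x₀ := by
    intro m hm'
    rw [← pow_mul]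
    exact hH.1 _ (Nat.mul_pos hk hm')
  obtain ⟨P, iP, f, hP, hf⟩ := core' cs ho hC (g ^ k) (pow_ker cs ho hinf hk)
    (Yb s t i) a (hA _ (Yb_ne s t i)) hn (hA _ hZu) b (by
      intro x hx
      obtain ⟨j, hj⟩ := mem_cyc cs ho _ hx
      rw [mem_Dm, map_mul, map_mul, map_inv, hb, hj, hgk]
      have e : h⁻¹ * (w ^ k) ^ j * h = ((h⁻¹ * w * h) ^ k) ^ j := by
        have e1 : ∀ m : ℤ, (h⁻¹ * w * h) ^ m = h⁻¹ * w ^ m * h := by
          intro m
          have := conj_zpow (i := m) (a := h⁻¹) (b := w)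
          rwa [inv_inv] at this
        rw [← zpow_natCast, ← zpow_natCast, ← zpow_mul, ← zpow_mul, e1]
      rw [e, hyn]
      exact Subgroup.zpow_mem _ (mul_mem (Subgroup.mem_sup_left hy)
        (Subgroup.mem_sup_right (Subgroup.mem_zpowers n))) j) (by
      intro u s' hu
      by_contra hcon
      apply hu
      rw [hb, refl_root, hZ]
      have hinf2 : {j : ℤ | (u * cs.simple s' * u⁻¹) • (w ^ j • x₀) = w ^ j • x₀}.Infinite := by
        have h4 : ((fun j : ℤ => (k : ℤ) * j) '' {j : ℤ | ((pr cs ho (g ^ k)) ^ j *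
            pr cs ho a)⁻¹ * (u * cs.simple s' * u⁻¹) * ((pr cs ho (g ^ k)) ^ j * pr cs ho a) ∈
            PW cs (Yb s t i)}).Infinite := by
          refine Set.Infinite.image ?_ hcon
          intro j _ j' _ hjj
          have hk' : (k : ℤ) ≠ 0 := by exact_mod_cast hk.ne'
          exact mul_left_cancel₀ hk' hjj
        refine h4.mono ?_
        rintro _ ⟨j, hj, rfl⟩
        show (u * cs.simple s' * u⁻¹) • (w ^ ((k : ℤ) * j) • x₀) = w ^ ((k : ℤ) * j) • x₀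
        rw [hx₀, smul_vx, fix_vx, sb_PW, zpow_mul, zpow_natCast]
        have hj' : ((pr cs ho (g ^ k)) ^ j * pr cs ho a)⁻¹ * (u * cs.simple s' * u⁻¹) *
          ((pr cs ho (g ^ k)) ^ j * pr cs ho a) ∈ PW cs (Yb s t i) := hj
        rwa [hgk] at hj'
      have hroot : ∀ i, (u * cs.simple s' * u⁻¹) • γ i = γ i →
          geo cs u (ee s') ∈ Cu cs (v i) (Yb s t (c i)) := by
        intro i hi
        rw [← refl_root, ← sb_PW, ← fix_vx, ← hcv i]
        exact hi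
      refine RAY.RAY cs w L hL v (fun i => Yb s t (c i)) hmap _ ?_
      rcases hH.2 _ hinf2 with ⟨i₀, h4⟩ | ⟨i₀, h4⟩
      · exact Or.inl ⟨i₀, fun i hi => hroot i (h4 i hi)⟩
      · exact Or.inr ⟨i₀, fun i hi => hroot i (h4 i hi)⟩)
  refine ⟨P, iP, f, hP, fun x hx hfx => ?_⟩
  rw [sb_SP] at hx
  have hfix : pr cs ho (x : Sh M p) • x₀ = x₀ := by
    rw [hx₀, fix_vx, sb_PW]
    have := pr_SP cs ho hx
    rwa [map_mul, map_mul, map_inv] at this
  have h3 : (x : Sh M p) ∈ (pr cs ho).ker :=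
    mem_ker_of cs ho _ (g ^ k) hgk x₀ hfree x.2 hfix
  exact hf x h3 hx hfx

/-- the cyclic extensions -/
theorem cyc (hC : ClosedE C) {s t : B} (hst : s ≠ t) (h0 : M s t = 0)
    (hA : ∀ Y : Set B, Y ≠ Set.univ → C ↥(SP M p Y)) (g : Sh M p)
    (hinf : ∀ k : ℕ, 0 < k → g ^ k ∉ (pr cs ho).ker) :
    C ↥((pr cs ho).ker ⊔ Subgroup.zpowers g) := by
  have hT := cosetGraph_isTree _ _ (AM.AM_W cs hst h0)
  rcases DICH.DICH hT (hact _ _) (hinv _ _) (pr cs ho g) with ⟨q, hq⟩ | ⟨γ, L, hL, h1, h2, h3⟩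
  · exact ell cs ho hC hst h0 hA g hinf q hq
  · exact hyp cs ho hC hst h0 hA g hinf γ L hL h1 h2 h3

include cs ho in
/-- the group -/
theorem all (hC : ClosedE C) (hW : C W) {s t : B} (hst : s ≠ t) (h0 : M s t = 0)
    (hA : ∀ Y : Set B, Y ≠ Set.univ → C ↥(SP M p Y)) : C (Sh M p) := by
  refine Pool.Agent.Y529.FJ.t_ext C hC (Sh M p) (pr cs ho).ker (kerC cs ho hC hst h0 hA) ?_
    (fun g hg => cyc cs ho hC hst h0 hA g hg)
  exact hC.base.of_injective _ _ (QuotientGroup.kerLift (pr cs ho))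
    (QuotientGroup.kerLift_injective _) hW

end Pool.Agent.J4.H1.AR.Cyc
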