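import Pool.Agent.Y110.FJ.Stm

/-!
# Homomorphisms of a subgroup of finite index (piece IND of the project AR of helper1)
-/

set_option autoImplicit false

namespace Pool.Agent.J4.H1.AR.IND

open Pool.Agent.Y110.FJ (ClosedE)
open Pool.Agent.Y462.SS (Closed Wr)

variable {C : ∀ (G : Type) [Group G], Prop}

theorem pow_mem (hC : Closed C) {A : Type} [Group A] (hA : C A) (n : ℕ) : C (Fin n → A) := by
  induction n with
  | zero => exact hC.of_injective _ A 1 (Function.injective_of_subsingleton _) hA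
  | succ n ih =>
    let f : (Fin (n + 1) → A) →* A × (Fin n → A) :=
      { toFun := fun g => (g 0, fun i => g i.succ)
        map_one' := rfl
        map_mul' := fun _ _ => rfl }
    refine hC.of_injective _ _ f ?_ (hC.prod _ _ hA ih)
    intro g h hgh
    have h1 : g 0 = h 0 := congrArg Prod.fst hgh
    have h2 : (fun i : Fin n => g i.succ) = fun i : Fin n => h i.succ := congrArg Prod.snd hgh
    funext i
    refine Fin.cases h1 (fun j => ?_) i
    exact congrFun h2 j

theorem fun_mem (hC : Closed C) {A X : Type} [Group A] [Finite X] (hA : C A) : C (X → A) := by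
  obtain ⟨n, ⟨e⟩⟩ := Finite.exists_equiv_fin X
  let f : (X → A) →* (Fin n → A) :=
    { toFun := fun g i => g (e.symm i)
      map_one' := rfl
      map_mul' := fun _ _ => rfl }
  refine hC.of_injective _ _ f ?_ (pow_mem hC hA n)
  intro g h hgh
  funext x
  have := congrFun hgh (e x)
  show g x = h x
  have h1 : g (e.symm (e x)) = h (e.symm (e x)) := this
  rwa [e.symm_apply_apply] at h1

/-- the projection of the wreath product to the symmetric group -/
def wp (X A : Type) [Group A] : Wr X A →* Equiv.Perm X where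
  toFun := Wr.p
  map_one' := rfl
  map_mul' _ _ := rfl

theorem wr_mem (hC : Closed C) {A X : Type} [Group A] [Finite X] (hA : C A) : C (Wr X A) := by
  refine hC.finiteIndex _ (wp X A).ker inferInstance ?_
  let f : (wp X A).ker →* (X → A) :=
    { toFun := fun w => w.1.s
      map_one' := rfl
      map_mul' := fun a b => by
        funext x
        show a.1.s (b.1.p x) * b.1.s x = a.1.s x * b.1.s x
        have hb : b.1.p = 1 := b.2
        rw [hb]
        rfl }
  refine hC.of_injective _ _ f ?_ (fun_mem hC hA)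
  intro a b hab
  apply Subtype.ext
  apply Wr.ext
  · exact hab
  · have ha : a.1.p = 1 := a.2
    have hb : b.1.p = 1 := b.2
    rw [ha, hb]

section

variable {H P' : Type} [Group H] [Group P'] (H' : Subgroup H) (f' : H' →* P')

theorem out_mem (g : H) (t : H ⧸ H') : (g • t).out⁻¹ * g * t.out ∈ H' := by
  rw [mul_assoc, ← QuotientGroup.eq, QuotientGroup.out_eq']
  conv_lhs => rw [← QuotientGroup.out_eq' t]
  rfl

/-- the induced homomorphism to the wreath product -/
noncomputable def ind : H →* Wr (H ⧸ H') P' where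
  toFun g := ⟨fun t => f' ⟨(g • t).out⁻¹ * g * t.out, out_mem H' g t⟩, MulAction.toPerm g⟩
  map_one' := by
    apply Wr.ext
    · funext t
      show f' ⟨((1 : H) • t).out⁻¹ * 1 * t.out, _⟩ = 1
      rw [← map_one f']
      congr 1
      apply Subtype.ext
      show ((1 : H) • t).out⁻¹ * 1 * t.out = 1
      rw [one_smul]
      group
    · show MulAction.toPerm (1 : H) = 1
      ext t
      simp
  map_mul' a b := by
    apply Wr.ext
    · funext t
      show f' ⟨((a * b) • t).out⁻¹ * (a * b) * t.out, _⟩ =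
        f' ⟨(a • b • t).out⁻¹ * a * (b • t).out, _⟩ * f' ⟨(b • t).out⁻¹ * b * t.out, _⟩
      rw [← map_mul]
      congr 1
      apply Subtype.ext
      show ((a * b) • t).out⁻¹ * (a * b) * t.out =
        ((a • b • t).out⁻¹ * a * (b • t).out) * ((b • t).out⁻¹ * b * t.out)
      rw [mul_smul]
      group
    · show MulAction.toPerm (a * b) = MulAction.toPerm a * MulAction.toPerm b
      ext t
      simp [mul_smul]

theorem ind_ker {x : H} (hx : ind H' f' x = 1) : ∃ h : x ∈ H', f' ⟨x, h⟩ = 1 := by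
  have hp : ∀ t : H ⧸ H', x • t = t := by
    intro t
    have h1 : (ind H' f' x).p = 1 := by rw [hx]; rfl
    have h2 := congrArg (fun e : Equiv.Perm (H ⧸ H') => e t) h1
    exact h2
  have hs : ∀ t : H ⧸ H', f' ⟨(x • t).out⁻¹ * x * t.out, out_mem H' x t⟩ = 1 := by
    intro t
    have h1 : (ind H' f' x).s = 1 := by rw [hx]; rfl
    exact congrFun h1 t
  have hmem : x ∈ H' := by
    have h1 := hp ((1 : H) : H ⧸ H')
    have h2 : ((x * 1 : H) : H ⧸ H') = ((1 : H) : H ⧸ H') := h1
    rw [mul_one] at h2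
    have h3 := QuotientGroup.eq.1 h2.symm
    simpa using h3
  refine ⟨hmem, ?_⟩
  obtain ⟨t, ht⟩ : ∃ t : H ⧸ H', t = ((1 : H) : H ⧸ H') := ⟨_, rfl⟩
  have ho : t.out ∈ H' := by
    have h1 : ((1 : H) : H ⧸ H') = ((t.out : H) : H ⧸ H') := by
      rw [QuotientGroup.out_eq', ht]
    have h2 := QuotientGroup.eq.1 h1
    simpa using h2
  have h4 := hs t
  have h5 : (⟨(x • t).out⁻¹ * x * t.out, out_mem H' x t⟩ : H') =
      (⟨t.out, ho⟩ : H')⁻¹ * ⟨x, hmem⟩ * ⟨t.out, ho⟩ := by
    apply Subtype.ext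
    show (x • t).out⁻¹ * x * t.out = t.out⁻¹ * x * t.out
    rw [hp t]
  rw [h5, map_mul, map_mul, map_inv] at h4
  have h6 : f' ⟨x, hmem⟩ = f' ⟨t.out, ho⟩ * ((f' ⟨t.out, ho⟩)⁻¹ * f' ⟨x, hmem⟩ * f' ⟨t.out, ho⟩) *
      (f' ⟨t.out, ho⟩)⁻¹ := by group
  rw [h6, h4]
  group

end

theorem IND {C : ∀ (G : Type) [Group G], Prop} (hC : ClosedE C) {H P' : Type} [Group H] [Group P']
    (H' : Subgroup H) [H'.Normal] [H'.FiniteIndex] (f' : H' →* P') (hP : C P') :
    ∃ (P : Type) (_ : Group P) (f : H →* P), C P ∧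
      ∀ x : H, f x = 1 → ∃ hx : x ∈ H', f' ⟨x, hx⟩ = 1 :=
  ⟨Wr (H ⧸ H') P', inferInstance, ind H' f', wr_mem hC.base hP, fun _ hx => ind_ker H' f' hx⟩

end Pool.Agent.J4.H1.AR.IND
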