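import Pool.Agent.J4.H1.AR.Defs
import Pool.Agent.Helper741.FiniteClass

/-!
# AR, piece INT: the intersection of parabolic subgroups is parabolic (for roots)
-/

set_option autoImplicit false

namespace Pool.Agent.J4.H1.AR.INT

open Pool.Agent.Helper741 Pool.Agent.K7.H87.FJ6 CoxeterSystem
open Pool.Agent.K7.H20.AW (PW PW_mem PW_coord)

variable {B : Type} [Fintype B] [DecidableEq B] {M : CoxeterMatrix B}
variable {W : Type} [Group W] (cs : CoxeterSystem M W)

theorem geo_inv_geo (v : W) (z : B → ℝ) : geo cs v⁻¹ (geo cs v z) = z := by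
  have := Pool.Agent.K7.H87.FJ6.geo_apply_inv cs v⁻¹ z
  rwa [inv_inv] at this

theorem mem_Cu (v : W) (X : Set B) (z : B → ℝ) : z ∈ Cu cs v X ↔ geo cs v⁻¹ z ∈ Cp X := by
  unfold Cu
  rw [Submodule.mem_map]
  constructor
  · rintro ⟨y, hy, rfl⟩
    rw [geo_inv_geo]
    exact hy
  · intro h
    exact ⟨_, h, Pool.Agent.K7.H87.FJ6.geo_apply_inv cs v z⟩

theorem PW_Cp {X : Set B} {y : W} (hy : y ∈ PW cs X) (z : B → ℝ) :
    geo cs y z ∈ Cp X ↔ z ∈ Cp X := by
  have h := PW_coord cs hy z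
  constructor
  · intro h1 d hd
    rw [← h d hd]
    exact h1 d hd
  · intro h1 d hd
    rw [h d hd]
    exact h1 d hd

/-- minimal representatives of double cosets -/
theorem exists_min (Z X : Set B) (w : W) : ∃ a ∈ PW cs Z, ∃ u : W, ∃ b ∈ PW cs X, w = a * u * b ∧
    (∀ z ∈ Z, 0 ≤ geo cs u⁻¹ (ee z)) ∧ ∀ x ∈ X, 0 ≤ geo cs u (ee x) := by
  classical
  let P : ℕ → Prop := fun n => ∃ a ∈ PW cs Z, ∃ u : W, ∃ b ∈ PW cs X, w = a * u * b ∧
    cs.length u = n
  have hP : ∃ n, P n := ⟨_, 1, one_mem _, w, 1, one_mem _, by rw [one_mul, mul_one], rfl⟩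
  obtain ⟨a, ha, u, b, hb, hw, hl⟩ := Nat.find_spec hP
  refine ⟨a, ha, u, b, hb, hw, ?_, ?_⟩
  · intro z hz
    rw [geo_nonneg_iff]
    have h1 : cs.length u ≤ cs.length (cs.simple z * u) := by
      rw [hl]
      refine Nat.find_min' hP ⟨a * cs.simple z, mul_mem ha (PW_mem cs hz), cs.simple z * u, b, hb,
        ?_, rfl⟩
      rw [hw]
      have := cs.simple_mul_simple_self z
      calc a * u * b = a * (cs.simple z * cs.simple z) * u * b := by rw [this, mul_one]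
        _ = a * cs.simple z * (cs.simple z * u) * b := by group
    have h2 : cs.length (u⁻¹ * cs.simple z) = cs.length (cs.simple z * u) := by
      rw [← cs.length_inv, mul_inv_rev, inv_inv, cs.inv_simple]
    have h3 := cs.length_inv u
    rcases cs.length_simple_mul u z with h4 | h4
    · omega
    · omega
  · intro x hx
    rw [geo_nonneg_iff]
    have h1 : cs.length u ≤ cs.length (u * cs.simple x) := by
      rw [hl]
      refine Nat.find_min' hP ⟨a, ha, u * cs.simple x, cs.simple x * b, mul_mem (PW_mem cs hx) hb,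
        ?_, rfl⟩
      rw [hw]
      have := cs.simple_mul_simple_self x
      calc a * u * b = a * u * (cs.simple x * cs.simple x) * b := by rw [this, mul_one]
        _ = a * (u * cs.simple x) * (cs.simple x * b) := by group
    rcases cs.length_mul_simple u x with h4 | h4
    · omega
    · omega

/-- the intersection of two standard subsets -/
def Zp (Z X : Set B) (u : W) : Set B := {z | z ∈ Z ∧ ∃ x ∈ X, geo cs u⁻¹ (ee z) = ee x}

theorem ee_self (b : B) : (ee b : B → ℝ) b = 1 := by simp [ee]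

/-- the exact image -/
theorem image_eq {u : W} {X : Set B} (hX : ∀ x ∈ X, 0 ≤ geo cs u (ee x)) {d : B}
    (hd : 0 ≤ geo cs u⁻¹ (ee d)) (h : geo cs u⁻¹ (ee d) ∈ Cp X) :
    ∃ x ∈ X, geo cs u⁻¹ (ee d) = ee x := by
  have hMn : Mn cs (Subtype.val : X → B) u := fun x => hX x.1 x.2
  obtain ⟨⟨x, hx⟩, h1⟩ := of_span cs (Subtype.val : X → B) hMn (b := d) (by
    intro e he
    exact h e fun hc => he ⟨e, hc⟩ rfl)
  obtain ⟨t, ht⟩ := line cs h1
  refine ⟨x, hx, ?_⟩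
  have h2 : bil M (geo cs u⁻¹ (ee d)) (geo cs u⁻¹ (ee d)) = bil M (ee d) (ee d) := bil_geo cs u⁻¹ _ _
  have h3 : ∀ b : B, bil M (ee b) (ee b) = 2 := by
    intro b
    rw [bil_ee_left, coroot_ee, cc_self]
    norm_num
  rw [ht, bil_smul_left, bil_smul_right, h3, h3] at h2
  have h4 := hd x
  rw [ht] at h4
  have h5 : (0 : ℝ) ≤ t := by
    have h6 : (t • (ee x : B → ℝ)) x = t := by
      rw [Pi.smul_apply, ee_self, smul_eq_mul, mul_one]
    rw [h6] at h4
    exact h4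
  have h6 : t = 1 := by nlinarith
  rw [ht, h6, one_smul]

/-- two residues -/
theorem two {Z X : Set B} {u : W} (hZ : ∀ z ∈ Z, 0 ≤ geo cs u⁻¹ (ee z))
    (hX : ∀ x ∈ X, 0 ≤ geo cs u (ee x)) (β : B → ℝ) (hβ : 0 ≤ β ∨ β ≤ 0) :
    β ∈ Cp (Zp cs Z X u) ↔ β ∈ Cp Z ∧ geo cs u⁻¹ β ∈ Cp X := by
  constructor
  · intro h
    refine ⟨fun d hd => h d fun hc => hd hc.1, fun e he => ?_⟩
    rw [geo_sum]
    refine Finset.sum_eq_zero fun d _ => ?_
    by_cases hd : d ∈ Zp cs Z X u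
    · obtain ⟨_, x, hx, h1⟩ := hd
      rw [h1]
      have h2 : e ≠ x := fun hc => he (hc ▸ hx)
      have h3 : (ee x : B → ℝ) e = 0 := by simp [ee, Pi.single_apply, h2]
      rw [h3, mul_zero]
    · rw [h d hd, zero_mul]
  · have key : ∀ β : B → ℝ, 0 ≤ β → β ∈ Cp Z → geo cs u⁻¹ β ∈ Cp X → β ∈ Cp (Zp cs Z X u) := by
      intro β hβ h1 h2 d hd
      by_contra hne
      apply hd
      have hdZ : d ∈ Z := by
        by_contra hc
        exact hne (h1 d hc)
      refine ⟨hdZ, image_eq cs hX (hZ d hdZ) fun e he => ?_⟩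
      have h3 := h2 e he
      rw [geo_sum] at h3
      have h4 : ∀ c ∈ Finset.univ, 0 ≤ β c * geo cs u⁻¹ (ee c) e := by
        intro c _
        by_cases hc : c ∈ Z
        · exact mul_nonneg (hβ c) (hZ c hc e)
        · rw [h1 c hc, zero_mul]
      have h5 := (Finset.sum_eq_zero_iff_of_nonneg h4).1 h3 d (Finset.mem_univ _)
      rcases mul_eq_zero.1 h5 with h6 | h6
      · exact absurd h6 hne
      · exact h6
    rintro ⟨h1, h2⟩
    rcases hβ with h | h
    · exact key β h h1 h2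
    · have h3 := key (-β) (neg_nonneg.2 h) (neg_mem h1) (by rw [map_neg]; exact neg_mem h2)
      have h4 := neg_mem h3
      rwa [neg_neg] at h4

/-- two residues in general position -/
theorem two' {Z X : Set B} {h v a u b : W} (ha : a ∈ PW cs Z) (hb : b ∈ PW cs X)
    (hw : h⁻¹ * v = a * u * b) (hZ : ∀ z ∈ Z, 0 ≤ geo cs u⁻¹ (ee z))
    (hX : ∀ x ∈ X, 0 ≤ geo cs u (ee x)) (g : W) (s : B) :
    geo cs g (ee s) ∈ Cu cs (h * a) (Zp cs Z X u) ↔
      geo cs g (ee s) ∈ Cu cs h Z ∧ geo cs g (ee s) ∈ Cu cs v X := by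
  rw [mem_Cu, mem_Cu, mem_Cu]
  have h1 := two cs hZ hX (geo cs (h * a)⁻¹ (geo cs g (ee s))) (by
    rw [← geo_mul_apply]
    exact sgn cs _ _)
  rw [h1]
  have h2 : geo cs (h * a)⁻¹ (geo cs g (ee s)) = geo cs a⁻¹ (geo cs h⁻¹ (geo cs g (ee s))) := by
    rw [mul_inv_rev, geo_mul_apply]
  have h3 : v⁻¹ = b⁻¹ * (u⁻¹ * (h * a)⁻¹) := by
    have : v = h * (a * u * b) := by rw [← hw]; group
    rw [this]
    group
  have h4 : geo cs v⁻¹ (geo cs g (ee s)) =
      geo cs b⁻¹ (geo cs u⁻¹ (geo cs (h * a)⁻¹ (geo cs g (ee s)))) := by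
    rw [h3, geo_mul_apply, geo_mul_apply]
  rw [h4, PW_Cp cs (inv_mem hb), h2, PW_Cp cs (inv_mem ha)]

theorem INT {I : Type} [Nonempty I] (v : I → W) (X : I → Set B) :
    ∃ (h : W) (Z : Set B), (∀ i, Z.ncard ≤ (X i).ncard) ∧ ∀ (g : W) (s : B),
      geo cs g (ee s) ∈ Cu cs h Z ↔ ∀ i, geo cs g (ee s) ∈ Cu cs (v i) (X i) := by
  classical
  let Q : W → Set B → Prop := fun h Z => ∀ (g : W) (s : B),
    (∀ i, geo cs g (ee s) ∈ Cu cs (v i) (X i)) → geo cs g (ee s) ∈ Cu cs h Z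
  have hQ : ∀ i, Q (v i) (X i) := fun i g s hi => hi i
  let P : ℕ → Prop := fun n => ∃ (h : W) (Z : Set B), Q h Z ∧ Z.ncard = n
  have hP : ∃ n, P n := ⟨_, v (Classical.arbitrary I), X (Classical.arbitrary I), hQ _, rfl⟩
  obtain ⟨h, Z, hZ, hn⟩ := Nat.find_spec hP
  refine ⟨h, Z, fun i => ?_, fun g s => ⟨fun hg i => ?_, hZ g s⟩⟩
  · rw [hn]
    exact Nat.find_min' hP ⟨v i, X i, hQ i, rfl⟩
  · obtain ⟨a, ha, u, b, hb, hw, h1, h2⟩ := exists_min cs Z (X i) (h⁻¹ * v i)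
    have h3 : ∀ (g : W) (s : B), _ := two' cs ha hb hw h1 h2
    have hQ' : Q (h * a) (Zp cs Z (X i) u) := fun g s hs => (h3 g s).2 ⟨hZ g s hs, hs i⟩
    have h4 : Z.ncard ≤ (Zp cs Z (X i) u).ncard := by
      rw [hn]
      exact Nat.find_min' hP ⟨h * a, _, hQ', rfl⟩
    have h5 : Zp cs Z (X i) u = Z :=
      Set.eq_of_subset_of_ncard_le (fun z hz => hz.1) h4 (Set.toFinite _)
    refine ((h3 g s).1 ?_).2
    rw [h5, mem_Cu, mul_inv_rev, geo_mul_apply, PW_Cp cs (inv_mem ha), ← mem_Cu]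
    exact hg

end Pool.Agent.J4.H1.AR.INT
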