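import Pool.Agent.J4.H1.AR.Defs

set_option autoImplicit false

/-!
# The preimage of a parabolic subgroup of the Coxeter group
-/

namespace Pool.Agent.J4.H1.AR.KER

open Pool.Agent.Helper741 Pool.Agent.K7.H87.FJ6 CoxeterSystem
open Pool.Agent.K7.H20.AW (PW PW_mem PW_coord)

section defs

variable {B : Type} [Fintype B] [DecidableEq B] {M : CoxeterMatrix B}
variable {W : Type} [Group W] (cs : CoxeterSystem M W) {p : B → ℕ} (ho : Adm M p)

variable (p) in
/-- the section given by Matsumoto's theorem -/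
noncomputable def tau (w : W) : Sh M p :=
  ((cs.exists_isReduced w).choose.map (Sh.gen M p)).prod

theorem tau_word {ω : List B} (h : cs.IsReduced ω) :
    tau cs p (cs.wordProd ω) = (ω.map (Sh.gen M p)).prod := by
  have h1 := (cs.exists_isReduced (cs.wordProd ω)).choose_spec
  exact matsumoto cs (Sh.gen M p) (fun i j => Sh.rel i j) _ _ h1.1 h h1.2.symm

theorem tau_one : tau cs p (1 : W) = 1 := by
  have h : cs.IsReduced [] := by
    show cs.length (cs.wordProd []) = _
    rw [cs.wordProd_nil, cs.length_one]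
    rfl
  have := tau_word (p := p) cs h
  rw [cs.wordProd_nil] at this
  rw [this]
  rfl

theorem tau_left {w : W} {b : B} (h : cs.length w < cs.length (cs.simple b * w)) :
    tau cs p (cs.simple b * w) = Sh.gen M p b * tau cs p w := by
  obtain ⟨ω, h1, rfl⟩ := cs.exists_isReduced w
  have h2 : cs.IsReduced (b :: ω) := by
    show cs.length (cs.wordProd (b :: ω)) = _
    rw [cs.wordProd_cons, List.length_cons]
    rcases cs.length_simple_mul (cs.wordProd ω) b with h3 | h3
    · rw [h3, h1.eq]
    · omega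
  rw [← cs.wordProd_cons, tau_word cs h2, tau_word cs h1, List.map_cons, List.prod_cons]

theorem tau_right {w : W} {b : B} (h : cs.length w < cs.length (w * cs.simple b)) :
    tau cs p (w * cs.simple b) = tau cs p w * Sh.gen M p b := by
  obtain ⟨ω, h1, rfl⟩ := cs.exists_isReduced w
  have h2 : cs.IsReduced (ω ++ [b]) := by
    show cs.length (cs.wordProd (ω ++ [b])) = _
    rw [cs.wordProd_append, cs.wordProd_singleton, List.length_append, List.length_singleton]
    rcases cs.length_mul_simple (cs.wordProd ω) b with h3 | h3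
    · rw [h3, h1.eq]
    · omega
  have h3 : cs.wordProd ω * cs.simple b = cs.wordProd (ω ++ [b]) := by
    rw [cs.wordProd_append, cs.wordProd_singleton]
  rw [h3, tau_word cs h2, tau_word cs h1, List.map_append, List.prod_append]
  simp

theorem pr_tau (w : W) : pr cs ho (tau cs p w) = w := by
  obtain ⟨ω, h1, rfl⟩ := cs.exists_isReduced w
  rw [tau_word cs h1, map_list_prod, List.map_map]
  unfold CoxeterSystem.wordProd
  congr 1
  exact List.map_congr_left fun b _ => pr_gen cs ho b

/-- minimal representatives are unique -/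
theorem uniq {X : Set B} {v y : W} (hv : ∀ x ∈ X, 0 ≤ geo cs v (ee x)) (hy : y ∈ PW cs X)
    (hvy : ∀ x ∈ X, 0 ≤ geo cs (v * y) (ee x)) : y = 1 := by
  by_contra hne
  obtain ⟨i, hi⟩ : ∃ i, ¬ 0 ≤ geo cs y (ee i) := by
    by_contra hcon
    push Not at hcon
    exact hne (eq_one_of_geo cs y hcon)
  have hi' : geo cs y (ee i) ≤ 0 := (sgn cs y i).resolve_left hi
  have hiX : i ∈ X := by
    by_contra hcon
    have h1 := PW_coord cs hy (ee i) i hcon
    have h2 := hi' i
    rw [h1] at h2
    have h3 : ee i i = (1 : ℝ) := by simp [ee]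
    rw [h3] at h2
    norm_num at h2
  have h1 : geo cs (v * y) (ee i) ≤ 0 := by
    intro e
    rw [geo_mul_apply, geo_sum]
    refine Finset.sum_nonpos fun d _ => ?_
    by_cases hd : d ∈ X
    · exact mul_nonpos_of_nonpos_of_nonneg (hi' d) (hv d hd e)
    · rw [PW_coord cs hy (ee i) d hd]
      have h3 : ee i d = (0 : ℝ) := by
        have : d ≠ i := fun h => hd (h ▸ hiX)
        simp [ee, Pi.single_apply, this]
      rw [h3, zero_mul]
  exact geo_ee_ne_zero cs (v * y) i (le_antisymm h1 (hvy i hiX))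

theorem pr_mer {X : Set B} {m : Sh M p} (hm : m ∈ Mer cs ho X) : pr cs ho m = 1 := by
  have h1 : Mer cs ho X ≤ (pr cs ho).ker := by
    unfold Mer
    rw [Subgroup.closure_le]
    rintro _ ⟨u, s, -, rfl⟩
    show pr cs ho (u * Sh.gen M p s ^ 2 * u⁻¹) = 1
    rw [map_mul, map_mul, map_pow, pr_gen, cs.simple_sq, mul_one, map_inv, mul_inv_cancel]
  exact h1 hm

theorem conj_mer {X : Set B} {g m : Sh M p} (hg : pr cs ho g ∈ PW cs X) (hm : m ∈ Mer cs ho X) :
    g * m * g⁻¹ ∈ Mer cs ho X := by
  unfold Mer at hm ⊢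
  induction hm using Subgroup.closure_induction with
  | mem x hx =>
    obtain ⟨u, s, h1, rfl⟩ := hx
    apply Subgroup.subset_closure
    refine ⟨g * u, s, fun h2 => h1 ?_, by group⟩
    rw [map_mul, mul_inv_rev] at h2
    have h3 := (PW cs X).mul_mem ((PW cs X).mul_mem ((PW cs X).inv_mem hg) h2) hg
    convert h3 using 1
    group
  | one =>
    rw [mul_one, mul_inv_cancel]
    exact one_mem _
  | mul x y _ _ hx hy =>
    have := mul_mem hx hy
    convert this using 1
    group
  | inv x _ hx =>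
    have := inv_mem hx
    convert this using 1
    group

theorem pr_SP {X : Set B} {a : Sh M p} (ha : a ∈ SP M p X) : pr cs ho a ∈ PW cs X := by
  have h1 : SP M p X ≤ (PW cs X).comap (pr cs ho) := by
    unfold SP
    rw [Subgroup.closure_le]
    rintro _ ⟨b, hb, rfl⟩
    show pr cs ho (Sh.gen M p b) ∈ PW cs X
    rw [pr_gen]
    exact PW_mem cs hb
  exact h1 ha

/-- the elements `τ v * m * a` -/
def SS (X : Set B) (g : Sh M p) : Prop :=
  ∃ (v : W) (m a : Sh M p), (∀ x ∈ X, 0 ≤ geo cs v (ee x)) ∧ m ∈ Mer cs ho X ∧ a ∈ SP M p X ∧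
    g = tau cs p v * m * a

theorem step (X : Set B) (b : B) (g : Sh M p) (hg : SS cs ho X g) :
    SS cs ho X (Sh.gen M p b * g) ∧ SS cs ho X ((Sh.gen M p b)⁻¹ * g) := by
  obtain ⟨v, m, a, hv, hm, ha, rfl⟩ := hg
  by_cases hx : ∃ x ∈ X, cs.simple b * v = v * cs.simple x
  · obtain ⟨x, hxX, hx⟩ := hx
    have h1 : cs.length v < cs.length (v * cs.simple x) := (geo_nonneg_iff cs v x).1 (hv x hxX)
    have h2 : cs.length v < cs.length (cs.simple b * v) := by rw [hx]; exact h1
    have h3 : Sh.gen M p b * tau cs p v = tau cs p v * Sh.gen M p x := by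
      rw [← tau_left cs h2, ← tau_right cs h1, hx]
    have hxg : pr cs ho (Sh.gen M p x) ∈ PW cs X := by
      rw [pr_gen]
      exact PW_mem cs hxX
    have hxS : Sh.gen M p x ∈ SP M p X := Subgroup.subset_closure ⟨x, hxX, rfl⟩
    refine ⟨⟨v, Sh.gen M p x * m * (Sh.gen M p x)⁻¹, Sh.gen M p x * a, hv, conj_mer cs ho hxg hm,
      mul_mem hxS ha, ?_⟩, ⟨v, (Sh.gen M p x)⁻¹ * m * ((Sh.gen M p x)⁻¹)⁻¹,
      (Sh.gen M p x)⁻¹ * a, hv, conj_mer cs ho ?_ hm, mul_mem (inv_mem hxS) ha, ?_⟩⟩
    · calc Sh.gen M p b * (tau cs p v * m * a) = (Sh.gen M p b * tau cs p v) * m * a := by group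
        _ = (tau cs p v * Sh.gen M p x) * m * a := by rw [h3]
        _ = _ := by group
    · rw [map_inv]
      exact inv_mem hxg
    · have h4 : (Sh.gen M p b)⁻¹ * tau cs p v = tau cs p v * (Sh.gen M p x)⁻¹ := by
        rw [inv_mul_eq_iff_eq_mul, ← mul_assoc, h3, mul_assoc, mul_inv_cancel, mul_one]
      calc (Sh.gen M p b)⁻¹ * (tau cs p v * m * a) =
            ((Sh.gen M p b)⁻¹ * tau cs p v) * m * a := by group
        _ = (tau cs p v * (Sh.gen M p x)⁻¹) * m * a := by rw [h4]
        _ = _ := by group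
  · have hv' : ∀ x ∈ X, 0 ≤ geo cs (cs.simple b * v) (ee x) := by
      have h1 := Mn_move cs (Subtype.val : X → B) (v := v) (fun x => hv x.1 x.2) (b := b)
        (fun ⟨x, h2⟩ => hx ⟨x.1, x.2, h2⟩)
      intro x hxX
      exact h1 ⟨x, hxX⟩
    have hnot : v⁻¹ * cs.simple b * v ∉ PW cs X := by
      intro h1
      have h2 : v * (v⁻¹ * cs.simple b * v) = cs.simple b * v := by group
      have h3 := uniq cs hv h1 (by rw [h2]; exact hv')
      rw [h3, mul_one] at h2
      have h4 : cs.simple b = 1 := by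
        have : cs.simple b * v = 1 * v := by rw [one_mul]; exact h2.symm
        exact mul_right_cancel this
      have h5 := cs.length_simple b
      rw [h4, cs.length_one] at h5
      omega
    -- the meridian
    set t' : Sh M p := tau cs p (cs.simple b * v) with ht'
    have hmer : t'⁻¹ * Sh.gen M p b ^ 2 * t' ∈ Mer cs ho X := by
      apply Subgroup.subset_closure
      refine ⟨t'⁻¹, b, ?_, by rw [inv_inv]⟩
      rw [map_inv, ht', pr_tau, inv_inv]
      intro h1
      apply hnot
      convert h1 using 1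
      rw [mul_inv_rev, cs.inv_simple]
      have := cs.simple_mul_simple_self b
      calc v⁻¹ * cs.simple b * v = v⁻¹ * (cs.simple b * cs.simple b) * cs.simple b * v := by
            rw [this, mul_one]
        _ = _ := by group
    rcases cs.length_simple_mul v b with h1 | h1
    · have h2 : t' = Sh.gen M p b * tau cs p v := tau_left cs (by omega)
      refine ⟨⟨cs.simple b * v, m, a, hv', hm, ha, ?_⟩,
        ⟨cs.simple b * v, (t'⁻¹ * Sh.gen M p b ^ 2 * t')⁻¹ * m, a, hv',
          mul_mem (inv_mem hmer) hm, ha, ?_⟩⟩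
      · rw [← ht', h2]
        group
      · rw [← ht', h2]
        group
    · have h2 : tau cs p v = Sh.gen M p b * t' := by
        have h3 : cs.simple b * (cs.simple b * v) = v := by
          rw [← mul_assoc, cs.simple_mul_simple_self, one_mul]
        have h4 := tau_left (p := p) cs (w := cs.simple b * v) (b := b) (by rw [h3]; omega)
        rw [h3] at h4
        exact h4
      refine ⟨⟨cs.simple b * v, (t'⁻¹ * Sh.gen M p b ^ 2 * t') * m, a, hv', mul_mem hmer hm, ha, ?_⟩,
        ⟨cs.simple b * v, m, a, hv', hm, ha, ?_⟩⟩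
      · rw [← ht', h2, pow_two]
        group
      · rw [← ht', h2]
        group

theorem all_SS (X : Set B) (g : Sh M p) : SS cs ho X g := by
  have hg : g ∈ Subgroup.closure (Set.range (Sh.gen M p)) := by
    rw [Sh.closure_range_gen]
    trivial
  induction hg using Subgroup.closure_induction_left with
  | one =>
    refine ⟨1, 1, 1, fun x _ => ?_, one_mem _, one_mem _, by rw [tau_one]; simp⟩
    rw [map_one]
    exact ee_nonneg _
  | mul_left x hx y _ hy =>
    obtain ⟨b, rfl⟩ := hx
    exact (step cs ho X b y hy).1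
  | inv_mul_cancel x hx y _ hy =>
    obtain ⟨b, rfl⟩ := hx
    exact (step cs ho X b y hy).2

/-- Piece KER -/
theorem KER (X : Set B) (g : Sh M p) (hg : pr cs ho g ∈ PW cs X) :
    ∃ m ∈ Mer cs ho X, ∃ a ∈ SP M p X, g = m * a := by
  obtain ⟨v, m, a, hv, hm, ha, rfl⟩ := all_SS cs ho X g
  rw [map_mul, map_mul, pr_tau, pr_mer cs ho hm, mul_one] at hg
  have h1 : v ∈ PW cs X := by
    have := mul_mem hg (inv_mem (pr_SP cs ho ha))
    rwa [mul_inv_cancel_right] at this
  have h2 : v = 1 := by
    refine uniq cs (v := 1) (fun x _ => ?_) h1 (by rw [one_mul]; exact hv)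
    rw [map_one]
    exact ee_nonneg _
  refine ⟨m, hm, a, ha, ?_⟩
  rw [h2, tau_one, one_mul]

end defs

end Pool.Agent.J4.H1.AR.KER
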