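import Pool.Agent.J4.H1.AR.Defs
import Pool.Agent.Helper741.FiniteClass

/-!
# Piece NRM of the project AR of helper1: the stabilizer of a coordinate subspace
-/

set_option autoImplicit false

namespace Pool.Agent.J4.H1.AR.NRM

open Pool.Agent.Helper741 Pool.Agent.K7.H87.FJ6 CoxeterSystem
open Pool.Agent.K7.H20.AW (PW PW_mem PW_coord)

variable {B : Type} [Fintype B] [DecidableEq B] {M : CoxeterMatrix B}
variable {W : Type} [Group W] (cs : CoxeterSystem M W)

theorem PW_Cp {Z : Set B} {y : W} (hy : y ∈ PW cs Z) {z : B → ℝ} (hz : z ∈ Cp Z) :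
    geo cs y z ∈ Cp Z := by
  intro d hd
  rw [PW_coord cs hy z d hd]
  exact hz d hd

theorem ee_Cp {Z : Set B} {z : B} (hz : z ∈ Z) : (ee z : B → ℝ) ∈ Cp Z := by
  intro d hd
  have h : d ≠ z := fun h => hd (h ▸ hz)
  simp [ee, Pi.single_apply, h]

/-- the permutation of the rays -/
theorem ray {Z : Set B} {n : W} (h1 : ∀ v ∈ Cp Z, geo cs n v ∈ Cp Z)
    (h2 : ∀ z ∈ Z, 0 ≤ geo cs n⁻¹ (ee z)) {z : B} (hz : z ∈ Z) :
    ∃ z' ∈ Z, geo cs n (ee z) = ee z' := by
  have hf : geo cs n⁻¹ (geo cs n (ee z)) = ee z := geo_inv_apply cs n _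
  have hC := h1 _ (ee_Cp hz)
  rcases sgn cs n z with hs | hs
  · obtain ⟨d, hd⟩ : ∃ d, geo cs n (ee z) d ≠ 0 := by
      by_contra hcon
      push Not at hcon
      exact geo_ee_ne_zero cs n z (funext hcon)
    have hdZ : d ∈ Z := by
      by_contra hcon
      exact hd (hC d hcon)
    have hpos : 0 < geo cs n (ee z) d := lt_of_le_of_ne (hs _) (Ne.symm hd)
    -- the ray
    have hray : geo cs n⁻¹ (ee d) = (geo cs n⁻¹ (ee d) z) • ee z := by
      ext e
      by_cases he : e = z
      · subst he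
        simp [ee]
      · have h3 := congrFun hf e
        rw [geo_sum] at h3
        have h4 : ∀ a ∈ (Finset.univ : Finset B),
            0 ≤ geo cs n (ee z) a * geo cs n⁻¹ (ee a) e := by
          intro a _
          by_cases ha : a ∈ Z
          · exact mul_nonneg (hs _) (h2 a ha e)
          · rw [hC a ha, zero_mul]
        have h5 : ee z e = (0 : ℝ) := by
          simp [ee, Pi.single_apply, he]
        rw [h5, Finset.sum_eq_zero_iff_of_nonneg h4] at h3
        have h6 := h3 d (Finset.mem_univ _)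
        have h7 := (mul_eq_zero.1 h6).resolve_left hpos.ne'
        rw [h7, Pi.smul_apply, h5, smul_zero]
    set t : ℝ := geo cs n⁻¹ (ee d) z with ht
    have ht0 : 0 ≤ t := h2 d hdZ z
    have hb := bil_geo cs n⁻¹ (ee d) (ee d)
    rw [hray, bil_smul_left, bil_smul_right, bil_ee_left, coroot_ee, cc_self, bil_ee_left,
      coroot_ee, cc_self] at hb
    have ht1 : t = 1 := by nlinarith
    refine ⟨d, hdZ, ?_⟩
    have h8 : geo cs n (geo cs n⁻¹ (ee d)) = geo cs n (ee z) := by
      rw [hray, ht1, one_smul]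
    rw [← h8, Helper741.geo_apply_inv]
  · exfalso
    have h3 := congrFun hf z
    rw [geo_sum] at h3
    have h4 : ∑ a, geo cs n (ee z) a * geo cs n⁻¹ (ee a) z ≤ 0 := by
      refine Finset.sum_nonpos fun a _ => ?_
      by_cases ha : a ∈ Z
      · exact mul_nonpos_of_nonpos_of_nonneg (hs _) (h2 a ha z)
      · rw [hC a ha, zero_mul]
    rw [h3] at h4
    have h5 : ee z z = (1 : ℝ) := by simp [ee]
    rw [h5] at h4
    norm_num at h4

/-- the element of minimal length -/
theorem minrep (Z : Set B) (u : W) : ∃ (y n : W), y ∈ PW cs Z ∧ u = y * n ∧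
    ∀ z ∈ Z, 0 ≤ geo cs n⁻¹ (ee z) := by
  classical
  have hex : ∃ k : ℕ, ∃ n : W, u * n⁻¹ ∈ PW cs Z ∧ cs.length n = k :=
    ⟨cs.length u, u, by rw [mul_inv_cancel]; exact one_mem _, rfl⟩
  obtain ⟨n, hn, hk⟩ := Nat.find_spec hex
  refine ⟨u * n⁻¹, n, hn, by group, ?_⟩
  intro z hz
  rw [geo_nonneg_iff]
  have h1 : cs.length n ≤ cs.length (cs.simple z * n) := by
    rw [hk]
    refine Nat.find_min' hex ⟨cs.simple z * n, ?_, rfl⟩
    rw [_root_.mul_inv_rev, cs.inv_simple, ← mul_assoc]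
    exact mul_mem hn (PW_mem cs hz)
  have h2 : cs.length (n⁻¹ * cs.simple z) = cs.length (cs.simple z * n) := by
    rw [← cs.length_inv (n⁻¹ * cs.simple z), _root_.mul_inv_rev, inv_inv, cs.inv_simple]
  rw [cs.length_inv, h2]
  exact lt_of_le_of_ne h1 (cs.length_simple_mul_ne n z).symm

theorem NRM (Z : Set B) (u : W) (hu : (Cp Z).map (geo cs u) = (Cp Z : Submodule ℝ (B → ℝ))) :
    ∃ (k : ℕ) (y n : W), 0 < k ∧ y ∈ PW cs Z ∧ u ^ k = y * n ∧ ∀ z ∈ Z, geo cs n (ee z) = ee z := by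
  classical
  obtain ⟨y₀, n, hy, rfl, hn⟩ := minrep cs Z u
  have h1 : ∀ v ∈ Cp Z, geo cs n v ∈ Cp Z := by
    intro v hv
    have h : geo cs (y₀ * n) v ∈ Cp Z := by
      rw [← hu]
      exact Submodule.mem_map_of_mem hv
    have h' := PW_Cp cs (inv_mem hy) h
    rwa [geo_mul_apply, geo_inv_apply] at h'
  choose! σ hσ hσ' using fun (z : B) (hz : z ∈ Z) => ray cs h1 hn hz
  -- the permutation of `Z`
  let s : Z → Z := fun z => ⟨σ z, hσ z z.2⟩
  have hs : Function.Injective s := by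
    rintro ⟨a, ha⟩ ⟨b, hb⟩ hab
    have h2 : σ a = σ b := congrArg Subtype.val hab
    have h3 : geo cs n (ee a) = geo cs n (ee b) := by rw [hσ' a ha, hσ' b hb, h2]
    have h4 := geo_injective_apply cs n h3
    have h5 := congrFun h4 a
    refine Subtype.ext ?_
    by_contra hne
    have hne' : a ≠ b := hne
    simp [ee, Pi.single_apply, hne'] at h5
  let τ : Equiv.Perm Z := Equiv.ofBijective s ⟨hs, Finite.surjective_of_injective hs⟩
  have hτ : ∀ (k : ℕ) (z : Z), geo cs (n ^ k) (ee (z : B)) = ee (((τ ^ k) z : Z) : B) := by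
    intro k
    induction k with
    | zero => intro z; rw [pow_zero, pow_zero, map_one]; rfl
    | succ k ih =>
      intro z
      rw [pow_succ', geo_mul_apply, ih, pow_succ', Equiv.Perm.mul_apply]
      exact hσ' _ ((τ ^ k) z).2
  -- `n` normalizes
  have hnorm : ∀ y ∈ PW cs Z, n * y * n⁻¹ ∈ PW cs Z := by
    intro y hy
    induction hy using Subgroup.closure_induction with
    | mem w hw =>
      obtain ⟨b, hb, rfl⟩ := hw
      have h2 := trick cs (v := n) (c := b) (b := σ b) (t := 1) (by rw [hσ' b hb, one_smul])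
      have h3 : n * cs.simple b * n⁻¹ = cs.simple (σ b) := by
        rw [← h2]
        group
      rw [h3]
      exact PW_mem cs (hσ b hb)
    | one => rw [mul_one, mul_inv_cancel]; exact one_mem _
    | mul x y _ _ hx hy =>
      have : n * (x * y) * n⁻¹ = (n * x * n⁻¹) * (n * y * n⁻¹) := by group
      rw [this]
      exact mul_mem hx hy
    | inv x _ hx =>
      have : n * x⁻¹ * n⁻¹ = (n * x * n⁻¹)⁻¹ := by group
      rw [this]
      exact inv_mem hx
  have hpow : ∀ k : ℕ, ∃ y ∈ PW cs Z, (y₀ * n) ^ k = y * n ^ k := by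
    intro k
    induction k with
    | zero => exact ⟨1, one_mem _, by simp⟩
    | succ k ih =>
      obtain ⟨y, hy', hk⟩ := ih
      refine ⟨y₀ * (n * y * n⁻¹), mul_mem hy (hnorm y hy'), ?_⟩
      rw [pow_succ', hk, pow_succ']
      group
  obtain ⟨y, hy', hk⟩ := hpow (orderOf τ)
  refine ⟨orderOf τ, y, n ^ orderOf τ, orderOf_pos τ, hy', hk, ?_⟩
  intro z hz
  have h2 := hτ (orderOf τ) ⟨z, hz⟩
  rw [pow_orderOf_eq_one] at h2
  exact h2

end Pool.Agent.J4.H1.AR.NRM
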