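import Pool.Agent.J4.H1.AR.Vx
import Pool.Agent.Y529.FJ.Ext

/-!
# Powers
-/

set_option autoImplicit false

namespace Pool.Agent.J4.H1.AR.Pw

open Pool.Agent.Y110.FJ (ClosedE)

variable {G W : Type} [Group G] [Group W]

theorem relIndex_pow (w : W) {k : ℕ} (hk : 0 < k) :
    (Subgroup.zpowers (w ^ k)).relIndex (Subgroup.zpowers w) ≠ 0 := by
  have h0 : Finite (↥(Subgroup.zpowers w) ⧸ (Subgroup.zpowers (w ^ k)).subgroupOf
      (Subgroup.zpowers w)) := by
    refine Finite.of_surjective (fun z : Fin k =>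
      (QuotientGroup.mk (⟨w ^ (z : ℕ), (z : ℤ), by simp⟩ : ↥(Subgroup.zpowers w)) :
        ↥(Subgroup.zpowers w) ⧸ (Subgroup.zpowers (w ^ k)).subgroupOf (Subgroup.zpowers w))) ?_
    intro c
    induction c using QuotientGroup.induction_on with
    | H x =>
      obtain ⟨x, m, hm⟩ := x
      have hm' : w ^ m = x := hm
      subst hm'
      have h1 : 0 ≤ m % (k : ℤ) := Int.emod_nonneg _ (by exact_mod_cast hk.ne')
      have h2 : m % (k : ℤ) < k := Int.emod_lt_of_pos _ (by exact_mod_cast hk)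
      obtain ⟨j, hj⟩ := Int.eq_ofNat_of_zero_le h1
      rw [hj] at h2
      have h3 : j < k := by exact_mod_cast h2
      refine ⟨⟨j, h3⟩, QuotientGroup.eq.2 ?_⟩
      rw [Subgroup.mem_subgroupOf]
      refine ⟨m / (k : ℤ), ?_⟩
      show (w ^ k) ^ (m / (k : ℤ)) = (w ^ j)⁻¹ * w ^ m
      have h5 : w ^ m = w ^ j * (w ^ k) ^ (m / (k : ℤ)) := by
        rw [← zpow_natCast w j, ← zpow_natCast w k, ← zpow_mul, ← zpow_add]
        congr 1
        have h6 := Int.emod_add_mul_ediv m (k : ℤ)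
        rw [hj] at h6
        exact h6.symm
      rw [h5, inv_mul_cancel_left]
  have h1 : ((Subgroup.zpowers (w ^ k)).subgroupOf (Subgroup.zpowers w)).FiniteIndex :=
    Subgroup.finiteIndex_of_finite_quotient
  exact h1.index_ne_zero

variable (π : G →* W) (hπ : Function.Surjective π)

theorem comap_zp (g : G) : (Subgroup.zpowers (π g)).comap π = π.ker ⊔ Subgroup.zpowers g := by
  rw [← MonoidHom.map_zpowers, Subgroup.comap_map_eq, sup_comm]

include hπ in
theorem relIndex_comap (w : W) {k : ℕ} (hk : 0 < k) :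
    ((Subgroup.zpowers (w ^ k)).comap π).relIndex ((Subgroup.zpowers w).comap π) ≠ 0 := by
  rw [Subgroup.relIndex_comap, Subgroup.map_comap_eq_self_of_surjective hπ]
  exact relIndex_pow w hk

variable {C : ∀ (G : Type) [Group G], Prop}

include hπ in
/-- overgroups -/
theorem of_pow (hC : ClosedE C) (g : G) {k : ℕ} (hk : 0 < k)
    (h : C ↥(π.ker ⊔ Subgroup.zpowers (g ^ k))) : C ↥(π.ker ⊔ Subgroup.zpowers g) := by
  rw [← comap_zp π] at h ⊢
  rw [map_pow] at h
  refine Pool.Agent.Y529.FJ.up hC.base (Subgroup.comap_mono ?_) (relIndex_comap π hπ (π g) hk) h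
  rw [Subgroup.zpowers_le]
  exact Subgroup.pow_mem _ (Subgroup.mem_zpowers _) k

include hπ in
/-- induced homomorphisms -/
theorem lift_pow (hC : ClosedE C) (g : G) {k : ℕ} (hk : 0 < k) {P' : Type} [Group P']
    (f' : ↥(π.ker ⊔ Subgroup.zpowers (g ^ k)) →* P') (hP : C P') :
    ∃ (P : Type) (_ : Group P) (f : ↥(π.ker ⊔ Subgroup.zpowers g) →* P), C P ∧
      ∀ x : ↥(π.ker ⊔ Subgroup.zpowers g), f x = 1 →
        ∃ hx : (x : G) ∈ π.ker ⊔ Subgroup.zpowers (g ^ k), f' ⟨x, hx⟩ = 1 := by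
  obtain ⟨H, hH⟩ : ∃ H, H = π.ker ⊔ Subgroup.zpowers g := ⟨_, rfl⟩
  obtain ⟨H', hH'⟩ : ∃ H', H' = π.ker ⊔ Subgroup.zpowers (g ^ k) := ⟨_, rfl⟩
  have e : H = (Subgroup.zpowers (π g)).comap π := by rw [comap_zp, hH]
  have e' : H' = (Subgroup.zpowers (π g ^ k)).comap π := by rw [← map_pow, comap_zp, hH']
  have hle : H' ≤ H := by
    rw [hH, hH']
    refine sup_le le_sup_left ((Subgroup.zpowers_le.2 ?_))
    exact Subgroup.mem_sup_right (Subgroup.pow_mem _ (Subgroup.mem_zpowers _) k)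
  rw [← hH]
  revert f'
  rw [← hH']
  intro f'
  have hnor : (H'.subgroupOf H).Normal := by
    refine ⟨fun x hx y => ?_⟩
    rw [Subgroup.mem_subgroupOf, e', Subgroup.mem_comap] at hx ⊢
    have hmH : ∀ z : G, z ∈ H → π z ∈ Subgroup.zpowers (π g) := by
      intro z hz
      rwa [e, Subgroup.mem_comap] at hz
    obtain ⟨i, hi⟩ := hx
    obtain ⟨j, hj⟩ := hmH y y.2
    refine ⟨i, ?_⟩
    simp only [Subgroup.coe_mul, map_mul, Subgroup.coe_inv, map_inv]
    have hi' : (π g ^ k) ^ i = π (x : G) := hi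
    have hj' : π g ^ j = π (y : G) := hj
    rw [← hi', ← hj']
    show (π g ^ k) ^ i = π g ^ j * (π g ^ k) ^ i * (π g ^ j)⁻¹
    rw [← zpow_natCast, ← zpow_mul, ← zpow_neg, ← zpow_add, ← zpow_add]
    congr 1
    ring
  have hfi : (H'.subgroupOf H).FiniteIndex := by
    refine ⟨?_⟩
    show H'.relIndex H ≠ 0
    rw [e, e']
    exact relIndex_comap π hπ (π g) hk
  obtain ⟨P, iP, f, hPP, hf⟩ := IND.IND hC (H'.subgroupOf H)
    (f'.comp (Subgroup.subgroupOfEquivOfLe hle).toMonoidHom) hP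
  refine ⟨P, iP, f, hPP, fun x hx => ?_⟩
  obtain ⟨h1, h2⟩ := hf x hx
  exact ⟨h1, h2⟩

end Pool.Agent.J4.H1.AR.Pw
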