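import Pool.Agent.J4.H1.AR.Defs

/-! Project AR (helper1), piece RAY (helper30): linear algebra of the residues along a line. -/

set_option autoImplicit false

namespace Pool.Agent.J4.H1.AR.RAY

open Pool.Agent.Helper741 Pool.Agent.K7.H87.FJ6 CoxeterSystem Pool.Agent.J4.H1.AR
open Pool.Agent.K7.H20.AW (PW PW_mem PW_coord)

section lin

variable {V : Type} [AddCommGroup V] [Module ℝ V] [FiniteDimensional ℝ V]

theorem frk (g : V →ₗ[ℝ] V) (hg : Function.Injective g) (U : Submodule ℝ V) :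
    Module.finrank ℝ (U.map g) = Module.finrank ℝ U :=
  (Submodule.equivMapOfInjective g hg U).finrank_eq.symm

theorem core (g g' : V →ₗ[ℝ] V) (h1 : ∀ x, g' (g x) = x) (h2 : ∀ x, g (g' x) = x) (L : ℤ) (hL : 0 < L)
    (F : ℤ → Submodule ℝ V) (h : ∀ i, (F i).map g = F (i + L)) (z : V) (i₀ : ℤ) (hz : ∀ i ≥ i₀, z ∈ F i) :
    ∀ i, z ∈ F i := by
  have hginj : Function.Injective g := fun x y hxy => by rw [← h1 x, hxy, h1]
  have hF : ∀ i x, x ∈ F i ↔ g x ∈ F (i + L) := by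
    intro i x
    rw [← h i]
    constructor
    · intro hx
      exact ⟨x, hx, rfl⟩
    · rintro ⟨y, hy, hyx⟩
      rw [← hginj hyx]
      exact hy
  obtain ⟨U, hU⟩ : ∃ U : ℤ → Submodule ℝ V, U = fun n => ⨅ i : {i : ℤ // n ≤ i}, F i := ⟨_, rfl⟩
  have hUm : ∀ n x, x ∈ U n ↔ ∀ i, n ≤ i → x ∈ F i := by
    intro n x
    rw [hU]
    simp [Submodule.mem_iInf]
  have hle : ∀ n, U n ≤ U (n + L) := by
    intro n x hx
    rw [hUm] at hx ⊢
    intro i hi
    exact hx i (by omega)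
  have hmap : ∀ n, (U n).map g = U (n + L) := by
    intro n
    ext x
    constructor
    · rintro ⟨y, hy, rfl⟩
      have hy' := (hUm n y).1 hy
      rw [hUm]
      intro i hi
      have h3 := (hF (i - L) y).1 (hy' (i - L) (by omega))
      rwa [sub_add_cancel] at h3
    · intro hx
      refine ⟨g' x, ?_, h2 x⟩
      have hx' := (hUm _ x).1 hx
      show g' x ∈ U n
      rw [hUm]
      intro i hi
      rw [hF, h2]
      exact hx' _ (by omega)
  have heq : ∀ n, U n = U (n + L) := by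
    intro n
    refine Submodule.eq_of_le_of_finrank_eq (hle n) ?_
    rw [← hmap n]
    exact (frk g hginj _).symm
  have hz0 : z ∈ U i₀ := (hUm _ _).2 hz
  have hdown : ∀ m : ℕ, z ∈ U (i₀ - m * L) := by
    intro m
    induction m with
    | zero => simpa using hz0
    | succ m ih =>
      rw [heq]
      have : i₀ - ((m + 1 : ℕ) : ℤ) * L + L = i₀ - m * L := by push_cast; ring
      rw [this]
      exact ih
  intro i
  have h3 := hdown (i₀ - i).toNat
  rw [hUm] at h3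
  apply h3
  have h4 : i₀ - i ≤ ((i₀ - i).toNat : ℤ) := Int.self_le_toNat _
  have h5 : ((i₀ - i).toNat : ℤ) ≤ ((i₀ - i).toNat : ℤ) * L := by nlinarith
  omega

end lin

variable {B : Type} [Fintype B] [DecidableEq B] {M : CoxeterMatrix B}
variable {W : Type} [Group W] (cs : CoxeterSystem M W)

theorem RAY (w : W) (L : ℤ) (hL : 0 < L) (v : ℤ → W) (X : ℤ → Set B)
    (h : ∀ i, (Cu cs (v i) (X i)).map (geo cs w) = Cu cs (v (i + L)) (X (i + L))) (z : B → ℝ)
    (hz : (∃ i₀ : ℤ, ∀ i ≥ i₀, z ∈ Cu cs (v i) (X i)) ∨ ∃ i₀ : ℤ, ∀ i ≤ i₀, z ∈ Cu cs (v i) (X i)) :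
    ∀ i, z ∈ Cu cs (v i) (X i) := by
  have e1 : ∀ x, geo cs w⁻¹ (geo cs w x) = x := fun x => geo_inv_apply cs w x
  have e2 : ∀ x, geo cs w (geo cs w⁻¹ x) = x := fun x => Pool.Agent.Helper741.geo_apply_inv cs w x
  rcases hz with ⟨i₀, hz⟩ | ⟨i₀, hz⟩
  · exact core (geo cs w) (geo cs w⁻¹) e1 e2 L hL (fun i => Cu cs (v i) (X i)) h z i₀ hz
  · have h3 := core (geo cs w⁻¹) (geo cs w) e2 e1 L hL (fun i => Cu cs (v (-i)) (X (-i))) (by
      intro i
      have h4 := h (-(i + L))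
      have h5 : -(i + L) + L = -i := by ring
      rw [h5] at h4
      show (Cu cs (v (-i)) (X (-i))).map (geo cs w⁻¹) = Cu cs (v (-(i + L))) (X (-(i + L)))
      rw [← h4]
      ext x
      constructor
      · rintro ⟨_, ⟨y, hy, rfl⟩, rfl⟩
        rw [e1]
        exact hy
      · intro hx
        exact ⟨_, ⟨x, hx, rfl⟩, e1 x⟩) z (-i₀) (fun i hi => hz (-i) (by omega))
    intro i
    have := h3 (-i)
    simpa using this

theorem ee_mem {Z : Set B} {z : B} (hz : z ∈ Z) : (ee z : B → ℝ) ∈ Cp Z := by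
  intro d hd
  have : d ≠ z := fun h => hd (h ▸ hz)
  simp [ee, this]

/-- `Cu h Z` is spanned by the roots `geo h (ee z)`, `z ∈ Z`. -/
theorem RAY2 (w h : W) (Z : Set B) (hw : ∀ (g : W) (s : B), geo cs g (ee s) ∈ Cu cs h Z →
    geo cs w (geo cs g (ee s)) ∈ Cu cs h Z) :
    (Cp Z).map (geo cs (h⁻¹ * w * h)) = (Cp Z : Submodule ℝ (B → ℝ)) := by
  classical
  have hinj : Function.Injective (geo cs (h⁻¹ * w * h)) := fun x y hxy => geo_injective_apply cs _ hxy
  refine Submodule.eq_of_le_of_finrank_eq ?_ (frk _ hinj _)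
  rintro _ ⟨x, hx, rfl⟩
  have h1 : ∀ z ∈ Z, geo cs (h⁻¹ * w * h) (ee z) ∈ (Cp Z : Submodule ℝ (B → ℝ)) := by
    intro z hz
    obtain ⟨y, hy, hyz⟩ := hw h z ⟨ee z, ee_mem hz, rfl⟩
    have h2 : geo cs (h⁻¹ * w * h) (ee z) = y := by
      rw [geo_mul_apply, geo_mul_apply, ← hyz, geo_inv_apply]
    rw [h2]
    exact hy
  have h3 : x = ∑ d, x d • (ee d : B → ℝ) := by
    funext d
    rw [Finset.sum_apply]
    simp [ee, Pi.single_apply]
  rw [h3, map_sum]
  refine Submodule.sum_mem _ fun d _ => ?_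
  rw [map_smul]
  by_cases hd : d ∈ Z
  · exact Submodule.smul_mem _ _ (h1 d hd)
  · rw [hx d hd, zero_smul]
    exact Submodule.zero_mem _

end Pool.Agent.J4.H1.AR.RAY
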