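import Pool.Agent.J4.H1.AR.Defs

/-!
# Reflections in standard parabolic subgroups

The reflection `g s g⁻¹` is in the standard parabolic subgroup `PW cs X` iff its root `geo g (ee s)` is in the
coordinate subspace of `X`.
-/

set_option autoImplicit false

namespace Pool.Agent.J4.H1.AR.REF

open Pool.Agent.Helper741 Pool.Agent.K7.H87.FJ6 CoxeterSystem
open Pool.Agent.K7.H20.AW (PW PW_mem PW_coord)

variable {B : Type} [Fintype B] [DecidableEq B] {M : CoxeterMatrix B}
variable {W : Type} [Group W] (cs : CoxeterSystem M W)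

/-- a shortest element in a coset of a standard parabolic subgroup -/
theorem exists_min (X : Set B) (w : W) : ∃ y ∈ PW cs X, ∀ y' ∈ PW cs X,
    cs.length (w * y) ≤ cs.length (w * y') := by
  classical
  have hne : ∃ n : ℕ, ∃ y ∈ PW cs X, cs.length (w * y) = n := ⟨_, 1, one_mem _, rfl⟩
  obtain ⟨y, hy, h⟩ := Nat.find_spec hne
  refine ⟨y, hy, fun y' hy' => ?_⟩
  rw [h]
  exact Nat.find_min' hne ⟨y', hy', rfl⟩

theorem REF (X : Set B) (g : W) (s : B) :
    g * cs.simple s * g⁻¹ ∈ PW cs X ↔ geo cs g (ee s) ∈ Cp X := by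
  constructor
  · intro h d hd
    have h1 := PW_coord cs h (geo cs g (ee s)) d hd
    have h2 : geo cs (g * cs.simple s * g⁻¹) (geo cs g (ee s)) = - geo cs g (ee s) := by
      rw [← geo_mul_apply, inv_mul_cancel_right, geo_mul_apply, geo_simple, sg_ee_self, map_neg]
    rw [h2, Pi.neg_apply] at h1
    linarith
  · intro h
    obtain ⟨y, hy, hmin⟩ := exists_min cs X g⁻¹
    have hMn : Mn cs (Subtype.val : X → B) (g⁻¹ * y) := by
      intro x
      rw [geo_nonneg_iff]
      have h1 := hmin (y * cs.simple x) (mul_mem hy (PW_mem cs x.2))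
      rw [← mul_assoc] at h1
      rcases cs.length_mul_simple (g⁻¹ * y) x with h2 | h2 <;> omega
    obtain ⟨x, hx⟩ := of_span cs (Subtype.val : X → B) hMn (b := s) (by
      intro d hd
      have hd' : d ∉ X := fun hc => hd ⟨d, hc⟩ rfl
      rw [mul_inv_rev, inv_inv, geo_mul_apply, PW_coord cs (inv_mem hy) _ d hd']
      exact h d hd')
    have h3 : g * cs.simple s * g⁻¹ = y * cs.simple x * y⁻¹ := by
      calc g * cs.simple s * g⁻¹ = g * (cs.simple s * (g⁻¹ * y)) * y⁻¹ := by group
        _ = g * ((g⁻¹ * y) * cs.simple x) * y⁻¹ := by rw [hx]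
        _ = y * cs.simple x * y⁻¹ := by group
    rw [h3]
    exact mul_mem (mul_mem hy (PW_mem cs x.2)) (inv_mem hy)

end Pool.Agent.J4.H1.AR.REF
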