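import Pool.Agent.J4.H1.AR.COC
import Pool.Agent.J4.H1.AR.KER
import Pool.Agent.J4.H1.AR.AM
import Pool.Agent.J4.H1.AR.REF
import Pool.Agent.J4.H1.AR.INT
import Pool.Agent.J4.H1.AR.RAY
import Pool.Agent.J4.H1.AR.NRM
import Pool.Agent.J4.H1.AR.DICH
import Pool.Agent.J4.H1.AR.ELL
import Pool.Agent.J4.H1.AR.HYP
import Pool.Agent.J4.H1.AR.CORE
import Pool.Agent.J4.H1.AR.IND
import Pool.Agent.R941.FJ.Hyper

/-!
# The retractions and the local homomorphisms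
-/

set_option autoImplicit false

namespace Pool.Agent.J4.H1.AR.Rt

open Pool.Agent.Helper741 Pool.Agent.K7.H87.FJ6 CoxeterSystem
open Pool.Agent.K7.H20.AW (PW PW_mem PW_coord)
open Pool.Agent.Y110.FJ (ClosedE)

variable {B : Type} [Fintype B] [DecidableEq B] {M : CoxeterMatrix B}
variable {W : Type} [Group W] (cs : CoxeterSystem M W) {p : B → ℕ} (ho : Adm M p)

/-- the domain of the retraction -/
def Dm (X : Set B) (n : W) : Subgroup (Sh M p) := (PW cs X ⊔ Subgroup.zpowers n).comap (pr cs ho)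

theorem mem_Dm {X : Set B} {n : W} {x : Sh M p} :
    x ∈ Dm cs ho X n ↔ pr cs ho x ∈ PW cs X ⊔ Subgroup.zpowers n := Iff.rfl

/-- the retraction -/
noncomputable def rt (X : Set B) (n : W) (hn : ∀ x ∈ X, geo cs n (ee x) = ee x) :
    ↥(Dm cs ho X n) →* Sh M p := (COC.COC cs ho X n hn).choose

variable {X : Set B} {n : W} (hn : ∀ x ∈ X, geo cs n (ee x) = ee x)

theorem rt_mem (x : ↥(Dm cs ho X n)) : rt cs ho X n hn x ∈ SP M p X :=
  (COC.COC cs ho X n hn).choose_spec.1 x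

theorem rt_fix (x : ↥(Dm cs ho X n)) (hx : (x : Sh M p) ∈ SP M p X) :
    rt cs ho X n hn x = (x : Sh M p) := (COC.COC cs ho X n hn).choose_spec.2.1 x hx

theorem pr_mer (u : Sh M p) (s : B) : pr cs ho (u * Sh.gen M p s ^ 2 * u⁻¹) = 1 := by
  rw [map_mul, map_mul, map_pow, pr_gen, cs.simple_sq, mul_one, map_inv, mul_inv_cancel]

theorem rt_mer (u : Sh M p) (s : B) (h : u * Sh.gen M p s ^ 2 * u⁻¹ ∈ Dm cs ho X n)
    (hs : pr cs ho u * cs.simple s * (pr cs ho u)⁻¹ ∉ PW cs X) : rt cs ho X n hn ⟨_, h⟩ = 1 :=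
  (COC.COC cs ho X n hn).choose_spec.2.2 u s h hs

theorem ker_Dm {x : Sh M p} (hx : pr cs ho x = 1) : x ∈ Dm cs ho X n := by
  rw [mem_Dm, hx]
  exact Subgroup.one_mem _

theorem Mer_le {x : Sh M p} (hx : x ∈ Mer cs ho X) : pr cs ho x = 1 := by
  have h1 : Mer cs ho X ≤ (pr cs ho).ker := by
    rw [Mer, Subgroup.closure_le]
    rintro _ ⟨u, s, -, rfl⟩
    exact pr_mer cs ho u s
  exact h1 hx

theorem rt_Mer {x : Sh M p} (hx : x ∈ Mer cs ho X) :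
    rt cs ho X n hn ⟨x, ker_Dm cs ho (Mer_le cs ho hx)⟩ = 1 := by
  have h1 : Mer cs ho X ≤ ((rt cs ho X n hn).ker.map (Dm cs ho X n).subtype) := by
    rw [Mer, Subgroup.closure_le]
    rintro _ ⟨u, s, hs, rfl⟩
    exact ⟨⟨_, ker_Dm cs ho (pr_mer cs ho u s)⟩, rt_mer cs ho hn u s _ hs, rfl⟩
  obtain ⟨y, hy, hyx⟩ := h1 hx
  have h2 : y = ⟨x, ker_Dm cs ho (Mer_le cs ho hx)⟩ := Subtype.ext hyx
  rw [← h2]
  exact hy

/-- the kernel -/
theorem rt_ker {x : Sh M p} (hx : pr cs ho x = 1)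
    (h : rt cs ho X n hn ⟨x, ker_Dm cs ho hx⟩ = 1) : x ∈ Mer cs ho X := by
  obtain ⟨m, hm, a, ha, rfl⟩ := KER.KER cs ho X x (by rw [hx]; exact Subgroup.one_mem _)
  have h1 : pr cs ho a = 1 := by
    rw [map_mul, Mer_le cs ho hm, one_mul] at hx
    exact hx
  have h2 : (⟨m * a, ker_Dm cs ho hx⟩ : ↥(Dm cs ho X n)) =
      ⟨m, ker_Dm cs ho (Mer_le cs ho hm)⟩ * ⟨a, ker_Dm cs ho h1⟩ := rfl
  rw [h2, map_mul, rt_Mer cs ho hn hm, one_mul, rt_fix cs ho hn ⟨a, _⟩ ha] at h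
  have h3 : a = 1 := h
  rw [h3, mul_one]
  exact hm

/-- the retraction on a conjugate subgroup -/
noncomputable def rc (b : Sh M p) (K : Subgroup (Sh M p))
    (hK : ∀ x ∈ K, b⁻¹ * x * b ∈ Dm cs ho X n) : K →* ↥(SP M p X) :=
  (((rt cs ho X n hn).codRestrict (SP M p X) (rt_mem cs ho hn)).comp
    ((((MulAut.conj b⁻¹).toMonoidHom.comp K.subtype).codRestrict (Dm cs ho X n) (fun x => by
      have := hK x x.2
      simpa using this))))

theorem rc_coe (b : Sh M p) (K : Subgroup (Sh M p)) (hK : ∀ x ∈ K, b⁻¹ * x * b ∈ Dm cs ho X n)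
    (x : K) : (rc cs ho hn b K hK x : Sh M p) = rt cs ho X n hn ⟨b⁻¹ * x * b, hK x x.2⟩ := by
  show rt cs ho X n hn _ = _
  congr 1
  apply Subtype.ext
  simp

end Pool.Agent.J4.H1.AR.Rt
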