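import Pool.Agent.J4.H1.AR.Fr

/-!
# Torsion-free groups
-/

set_option autoImplicit false

namespace Pool.Agent.J4.H1.AR.Tfr

open Pool.Agent.Helper741 Pool.Agent.K7.H87.FJ6 CoxeterSystem
open Pool.Agent.J4.H1.AR.Vx
open Pool.Agent.Helper705_SA (cosetGraph IsAmalgam cosetGraph_isTree)

/-- torsion-free -/
def TF (G : Type) [Group G] : Prop := ∀ g : G, ∀ n : ℕ, 0 < n → g ^ n = 1 → g = 1

theorem TF.of_injective {G H : Type} [Group G] [Group H] (f : G →* H) (hf : Function.Injective f)
    (h : TF H) : TF G := by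
  intro g n hn hg
  apply hf
  rw [map_one]
  exact h _ n hn (by rw [← map_pow, hg, map_one])

/-- amalgams of torsion-free groups -/
theorem amalgam {G : Type} [Group G] {A D : Subgroup G} (h : IsAmalgam A D) (hA : TF ↥A)
    (hD : TF ↥D) : TF G := by
  intro g n hn hg
  have hT := cosetGraph_isTree _ _ h
  rcases DICH.DICH hT (hact A D) (hinv A D) g with ⟨q, hq⟩ | ⟨γ, L, hL, h1, h2, h3⟩
  · obtain ⟨i, a, rfl⟩ := vx_surj A D q
    rw [fix_vx] at hq
    have h1 : (a⁻¹ * g * a) ^ n = 1 := by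
      have := conj_pow (i := n) (a := a⁻¹) (b := g)
      rw [inv_inv] at this
      rw [this, hg]
      group
    have h2 : a⁻¹ * g * a = 1 := by
      cases i
      · have := hD ⟨a⁻¹ * g * a, hq⟩ n hn (Subtype.ext h1)
        exact congrArg Subtype.val this
      · have := hA ⟨a⁻¹ * g * a, hq⟩ n hn (Subtype.ext h1)
        exact congrArg Subtype.val this
    have h3 : g = a * (a⁻¹ * g * a) * a⁻¹ := by group
    rw [h3, h2]
    group
  · exfalso
    refine (HYP.HYP hT (hact A D) g γ L hL h1 h2 h3 (γ 0)).1 n hn ?_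
    rw [hg, one_smul]

end Pool.Agent.J4.H1.AR.Tfr
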