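import Mathlib

/-! Project AR (helper1): elementary geometry of trees in terms of the distance (helper40). -/

set_option autoImplicit false

namespace Pool.Agent.J4.H1.AR.TreeGeo

variable {V : Type} {T : SimpleGraph V}

/-- a neighbour closer to `y` -/
theorem exists_closer (hT : T.IsTree) {v y : V} (h : v ≠ y) : ∃ u, T.Adj v u ∧ T.dist y u + 1 = T.dist y v := by
  obtain ⟨p, hp⟩ := hT.connected.exists_walk_length_eq_dist v y
  cases p with
  | nil => exact absurd rfl h
  | @cons _ u _ hadj p =>
    refine ⟨u, hadj, ?_⟩
    rw [SimpleGraph.Walk.length_cons] at hp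
    have h1 := SimpleGraph.dist_le p
    rw [SimpleGraph.dist_comm (u := y) (v := u), SimpleGraph.dist_comm (u := y) (v := v)]
    have h2 : T.dist v y ≤ T.dist v u + T.dist u y := hT.connected.dist_triangle
    rw [SimpleGraph.dist_eq_one_iff_adj.2 hadj] at h2
    omega

/-- the neighbour closer to `x` is unique -/
theorem closer_unique (hT : T.IsTree) {x v u u' : V} (h : T.Adj v u) (h' : T.Adj v u')
    (hd : T.dist x u + 1 = T.dist x v) (hd' : T.dist x u' + 1 = T.dist x v) : u = u' := by
  obtain ⟨p, hp, hpl⟩ := hT.connected.exists_path_of_dist x u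
  obtain ⟨q, hq, hql⟩ := hT.connected.exists_path_of_dist x u'
  have h1 : (p.concat h.symm).IsPath := by
    apply SimpleGraph.Walk.isPath_of_length_eq_dist
    rw [SimpleGraph.Walk.length_concat, hpl, hd]
  have h2 : (q.concat h'.symm).IsPath := by
    apply SimpleGraph.Walk.isPath_of_length_eq_dist
    rw [SimpleGraph.Walk.length_concat, hql, hd']
  have h3 : p.concat h.symm = q.concat h'.symm :=
    congrArg Subtype.val (hT.isAcyclic.path_unique ⟨_, h1⟩ ⟨_, h2⟩)
  have h4 := congrArg SimpleGraph.Walk.penultimate h3
  rwa [SimpleGraph.Walk.penultimate_concat, SimpleGraph.Walk.penultimate_concat] at h4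

/-- two different neighbours: at most one is closer -/
theorem farther (hT : T.IsTree) {x v u u' : V} (h : T.Adj v u) (h' : T.Adj v u') (hne : u' ≠ u)
    (hd : T.dist x u + 1 = T.dist x v) : T.dist x u' = T.dist x v + 1 := by
  rcases hT.dist_eq_dist_add_one_of_adj x h' with h1 | h1
  · exact absurd (closer_unique hT h h' hd h1.symm) hne.symm
  · exact h1

/-- no backtracking at `v`: then `v` is between `x` and `y` -/
theorem between (hT : T.IsTree) {x y : V} : ∀ (n : ℕ) (v : V), T.dist v y = n →
    (∀ u, T.Adj v u → T.dist y u + 1 = T.dist y v → T.dist x u = T.dist x v + 1) →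
    T.dist x y = T.dist x v + T.dist v y := by
  intro n
  induction n with
  | zero =>
    intro v hv _
    rw [hT.connected.dist_eq_zero_iff] at hv
    subst hv
    rw [SimpleGraph.dist_self, add_zero]
  | succ n ih =>
    intro v hv h
    have hvy : v ≠ y := by
      rintro rfl
      rw [SimpleGraph.dist_self] at hv
      omega
    obtain ⟨u, hu, hd⟩ := exists_closer hT hvy
    have hdu := h u hu hd
    have e1 : T.dist u y = n := by
      rw [SimpleGraph.dist_comm (u := y) (v := u), SimpleGraph.dist_comm (u := y) (v := v)] at hd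
      omega
    rw [ih u e1 ?_, hdu, e1, hv]
    · omega
    · intro u' hu' hd'
      refine farther hT hu.symm hu' ?_ hdu.symm
      rintro rfl
      omega

/-- a vertex between `x` and `y` is determined by its distances -/
theorem between_unique (hT : T.IsTree) {x y : V} : ∀ (n : ℕ) (v v' : V), T.dist v y = n → T.dist v' y = n →
    T.dist x v = T.dist x v' → T.dist x v + T.dist v y = T.dist x y → v = v' := by
  intro n
  induction n with
  | zero =>
    intro v v' hv hv' _ _
    rw [hT.connected.dist_eq_zero_iff] at hv hv'
    rw [hv, hv']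
  | succ n ih =>
    intro v v' hv hv' he hb
    have key : ∀ z : V, T.dist z y = n + 1 → T.dist x z + T.dist z y = T.dist x y →
        ∃ u, T.Adj z u ∧ T.dist u y = n ∧ T.dist x u = T.dist x z + 1 := by
      intro z hz hbz
      have hzy : z ≠ y := by
        rintro rfl
        rw [SimpleGraph.dist_self] at hz
        omega
      obtain ⟨u, hu, hd⟩ := exists_closer hT hzy
      have e1 : T.dist u y = n := by
        rw [SimpleGraph.dist_comm (u := y) (v := u), SimpleGraph.dist_comm (u := y) (v := z)] at hd
        omega
      refine ⟨u, hu, e1, ?_⟩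
      have h1 : T.dist x y ≤ T.dist x u + T.dist u y := hT.connected.dist_triangle
      have h2 : T.dist x u ≤ T.dist x z + T.dist z u := hT.connected.dist_triangle
      rw [SimpleGraph.dist_eq_one_iff_adj.2 hu] at h2
      omega
    obtain ⟨u, hu, hu1, hu2⟩ := key v hv hb
    obtain ⟨u', hu', hu1', hu2'⟩ := key v' hv' (by rw [← he, hv', ← hv]; exact hb)
    have huu : u = u' := ih u u' hu1 hu1' (by omega) (by omega)
    subst huu
    exact closer_unique hT hu.symm hu'.symm hu2.symm hu2'.symm

section act

variable {G : Type} [Group G] [MulAction G V]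

theorem adj_iff (hact : ∀ (g : G) (u v : V), T.Adj u v → T.Adj (g • u) (g • v)) (g : G) (u v : V) :
    T.Adj (g • u) (g • v) ↔ T.Adj u v := by
  refine ⟨fun h => ?_, hact g u v⟩
  have := hact g⁻¹ _ _ h
  rwa [inv_smul_smul, inv_smul_smul] at this

theorem dist_smul_le (hT : T.IsTree) (hact : ∀ (g : G) (u v : V), T.Adj u v → T.Adj (g • u) (g • v)) (g : G)
    (u v : V) : T.dist (g • u) (g • v) ≤ T.dist u v := by
  obtain ⟨p, hp⟩ := hT.connected.exists_walk_length_eq_dist u v
  rw [← hp]
  clear hp
  induction p with
  | nil => rw [SimpleGraph.dist_self]; exact Nat.zero_le _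
  | @cons a b c hab p ih =>
    have h1 : T.dist (g • a) (g • c) ≤ T.dist (g • a) (g • b) + T.dist (g • b) (g • c) := hT.connected.dist_triangle
    rw [SimpleGraph.dist_eq_one_iff_adj.2 (hact g a b hab)] at h1
    rw [SimpleGraph.Walk.length_cons]
    omega

/-- the action is by isometries -/
theorem dist_smul (hT : T.IsTree) (hact : ∀ (g : G) (u v : V), T.Adj u v → T.Adj (g • u) (g • v)) (g : G)
    (u v : V) : T.dist (g • u) (g • v) = T.dist u v := by
  refine le_antisymm (dist_smul_le hT hact g u v) ?_
  have := dist_smul_le hT hact g⁻¹ (g • u) (g • v)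
  rwa [inv_smul_smul, inv_smul_smul] at this

/-- an element which fixes `x` and `y` fixes all vertices between them -/
theorem fixes_between (hT : T.IsTree) (hact : ∀ (g : G) (u v : V), T.Adj u v → T.Adj (g • u) (g • v)) {r : G}
    {x y v : V} (hx : r • x = x) (hy : r • y = y) (h : T.dist x y = T.dist x v + T.dist v y) : r • v = v := by
  have h1 : T.dist (r • v) y = T.dist v y := by
    conv_lhs => rw [← hy]
    exact dist_smul hT hact r v y
  have h2 : T.dist x (r • v) = T.dist x v := by
    conv_lhs => rw [← hx]
    exact dist_smul hT hact r x v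
  exact (between_unique hT (T.dist v y) v (r • v) rfl h1 h2.symm h.symm).symm

end act

end Pool.Agent.J4.H1.AR.TreeGeo
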