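import Pool.Agent.J4.H1.AR.Cor
import Pool.Agent.N24.TR.Tree

/-!
# The vertices of the coset tree
-/

set_option autoImplicit false

namespace Pool.Agent.J4.H1.AR.Vx

open Pool.Agent.Helper705_SA (cosetGraph IsAmalgam cosetGraph_isTree)
open Pool.Agent.Y110.FJ (ClosedE)

variable {G : Type} [Group G]

/-- the two subgroups -/
def sb (A D : Subgroup G) : Bool → Subgroup G
  | true => A
  | false => D

/-- the vertices -/
def vx (A D : Subgroup G) : Bool → G → (G ⧸ A) ⊕ (G ⧸ D)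
  | true, a => Sum.inl (QuotientGroup.mk a)
  | false, a => Sum.inr (QuotientGroup.mk a)

variable (A D : Subgroup G)

theorem vx_surj (v : (G ⧸ A) ⊕ (G ⧸ D)) : ∃ i a, v = vx A D i a := by
  rcases v with v | v
  · obtain ⟨a, rfl⟩ := QuotientGroup.mk_surjective v
    exact ⟨true, a, rfl⟩
  · obtain ⟨a, rfl⟩ := QuotientGroup.mk_surjective v
    exact ⟨false, a, rfl⟩

theorem smul_vx (g : G) (i : Bool) (a : G) : g • vx A D i a = vx A D i (g * a) := by
  cases i <;> rfl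

theorem vx_eq (i : Bool) (a b : G) : vx A D i a = vx A D i b ↔ a⁻¹ * b ∈ sb A D i := by
  cases i
  · show Sum.inr _ = Sum.inr _ ↔ _
    rw [Sum.inr.injEq, QuotientGroup.eq]
    exact Iff.rfl
  · show Sum.inl _ = Sum.inl _ ↔ _
    rw [Sum.inl.injEq, QuotientGroup.eq]
    exact Iff.rfl

theorem fix_vx (r : G) (i : Bool) (a : G) :
    r • vx A D i a = vx A D i a ↔ a⁻¹ * r * a ∈ sb A D i := by
  rw [smul_vx, eq_comm, vx_eq, ← mul_assoc]

theorem hact (g : G) (u v : (G ⧸ A) ⊕ (G ⧸ D)) (h : (cosetGraph A D).Adj u v) :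
    (cosetGraph A D).Adj (g • u) (g • v) := by
  obtain ⟨k, ⟨h1, h2⟩ | ⟨h1, h2⟩⟩ := h
  · exact ⟨g * k, Or.inl ⟨by rw [h1]; rfl, by rw [h2]; rfl⟩⟩
  · exact ⟨g * k, Or.inr ⟨by rw [h1]; rfl, by rw [h2]; rfl⟩⟩

theorem hinv (g : G) (u : (G ⧸ A) ⊕ (G ⧸ D)) : ¬ (cosetGraph A D).Adj u (g • u) := by
  rintro ⟨k, ⟨h1, h2⟩ | ⟨h1, h2⟩⟩
  · rw [h1] at h2
    exact absurd h2 (by rintro ⟨⟩)
  · rw [h2] at h1
    exact absurd h1 (by rintro ⟨⟩)

/-- groups with one homomorphism for each vertex -/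
theorem local' {C : ∀ (G : Type) [Group G], Prop} (hC : ClosedE C) (hAD : IsAmalgam A D)
    (H : Subgroup G)
    (h : ∀ (i : Bool) (a : G), ∃ (P : Type) (_ : Group P) (f : H →* P), C P ∧
      ∀ x : H, a⁻¹ * (x : G) * a ∈ sb A D i → f x = 1 → x = 1) : C H := by
  refine Pool.Agent.N24.TR.tree_local (G := H) hC (cosetGraph_isTree A D hAD)
    (fun g u v huv => hact A D g u v huv) fun v => ?_
  obtain ⟨i, a, rfl⟩ := vx_surj A D v
  obtain ⟨P, iP, f, hP, hf⟩ := h i a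
  refine ⟨P, iP, f, hP, fun x hx hfx => hf x ?_ hfx⟩
  exact (fix_vx A D (x : G) i a).1 hx

end Pool.Agent.J4.H1.AR.Vx
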